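import Mathlib

/-! JOB PTAbove.  At most `[K : ℚ]` prime ideals contain a given prime number.

The prime ideals containing the prime number `p` lie over `(p) = Ideal.span {(p : ℤ)}` (a maximal ideal `≠ ⊥` of `ℤ`; `P ∩ ℤ` is a prime ideal containing `p`), and `∑ e f = [K : ℚ]` (`Ideal.sum_ramification_inertia`, `Ideal.primesOverFinset` or `primesOver`), with `e, f ≥ 1`, so there are at most `[K : ℚ]` of them.
See the use of these lemmas in `Pool/Agent/Lib/MP_021685_agT/GB2.lean`. -/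

namespace PT

open NumberField Finset

theorem primes_above_le (K : Type) [Field K] [NumberField K] (p : ℕ) (hp : p.Prime) (E : Finset (Ideal (𝓞 K)))
    (hE : ∀ P ∈ E, P.IsPrime ∧ (p : 𝓞 K) ∈ P) : E.card ≤ Module.finrank ℚ K := by
  classical
  have hpZ : Prime (p : ℤ) := Nat.prime_iff_prime_int.mp hp
  let 𝔭 : Ideal ℤ := Ideal.span {(p : ℤ)}
  have hp0 : 𝔭 ≠ ⊥ := by
    rw [Ne, Ideal.span_singleton_eq_bot]
    exact hpZ.ne_zero
  have hpP : 𝔭.IsPrime := (Ideal.span_singleton_prime hpZ.ne_zero).mpr hpZ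
  have hpM : 𝔭.IsMaximal := hpP.isMaximal hp0
  have hfin : (𝔭.primesOver (𝓞 K)).Finite := IsDedekindDomain.primesOver_finite 𝔭 (𝓞 K)
  let _ : Fintype (𝔭.primesOver (𝓞 K)) := hfin.fintype
  have hsum := Ideal.sum_ramification_inertia_eq_finrank 𝔭 (𝓞 K)
  have hsub : ∀ P ∈ E, P ∈ 𝔭.primesOver (𝓞 K) := by
    intro P hP
    obtain ⟨h1, h2⟩ := hE P hP
    refine ⟨h1, ⟨?_⟩⟩
    have h3 : 𝔭 ≤ P.under ℤ := by
      rw [Ideal.span_singleton_le_iff_mem, Ideal.mem_comap]
      simpa using h2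
    have h4 : (P.under ℤ).IsPrime := Ideal.IsPrime.under ℤ P
    exact hpM.eq_of_le h4.ne_top h3
  have hcard : E.card ≤ (univ : Finset (𝔭.primesOver (𝓞 K))).card := by
    rw [← Finset.card_attach]
    refine Finset.card_le_card_of_injOn (fun P : E => (⟨P.1, hsub P.1 P.2⟩ : 𝔭.primesOver (𝓞 K)))
      (fun _ _ => Finset.mem_coe.2 (Finset.mem_univ _)) ?_
    intro P _ Q _ h
    exact Subtype.ext (congrArg (fun q : 𝔭.primesOver (𝓞 K) => q.1) h)
  refine hcard.trans ?_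
  rw [← RingOfIntegers.rank K, ← hsum, Finset.card_eq_sum_ones]
  refine Finset.sum_le_sum fun q _ => ?_
  have hq1 : q.1.IsPrime := q.2.1
  have hq2 : q.1.LiesOver 𝔭 := q.2.2
  have e1 : 0 < q.1.ramificationIdx ℤ := Ideal.ramificationIdx_pos _ _
  have e2 : 0 < q.1.inertiaDeg ℤ := Ideal.inertiaDeg_pos _ _
  exact Nat.mul_pos e1 e2

end PT
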