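import Pool.Agent.Lib.MP_10e784_ag.PT.PTDefs
import Pool.Agent.Lib.MP_021685_agT.GB2

/-! JOB PTGal.  Totally split primes.

`gal_primes`: let `L` be the splitting field of `∏ i, (G i).map (Int.castRingHom ℚ)` over `ℚ` (`Polynomial.SplittingField`, a number field, `IsGalois ℚ L` because `ℚ` is perfect: `IsGalois.of_separable_splitting_field` or `isGalois_iff` with `Normal`), `n = [L : ℚ]`.  Let `p` be large
(not dividing `B2`, to be chosen) and `P` a prime ideal of norm `p`.
(1) The Galois group acts transitively on the primes above `p` (`Ideal.exists_map_eq_of_isGalois` / `IsGalois.exists_smul_eq..`), so all of them have norm `p` (`Ideal.inertiaDeg_eq_of_isGalois`, or `absNorm` is invariant under ring automorphisms), and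
`Pool.Agent.Lib.MP_021685_agT.card_primes_of_norm` (file `GB2`) gives exactly `n` of them (its bound `B` must be `≤` something dividing into `B2`: e.g. let `B2` be divisible by all primes `≤ B`, i.e. by `B !`).
(2) `rt (G i) p = (G i).natDegree`: `𝓞 L ⧸ P` is a field with `p` elements, so isomorphic to `ZMod p`; let `π : 𝓞 L → ZMod p` be the resulting ring homomorphism.  With `c = leadingCoeff`, `d = natDegree`, the polynomial `g(X) = c ^ (d-1) G(X / c)` (`integralNormalization`; monic with integer coefficients)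
splits over `L` with roots `c θ ∈ 𝓞 L`, hence over `𝓞 L`, and applying `π` it splits over `ZMod p` into linear factors; so does `G` modulo `p` (`p ∤ c`): `(G.map _).Splits`.  Moreover `G` modulo `p` is separable if `p ∤ R`, where `U G + V G' = R` with `U, V ∈ ℤ[X]`, `R ≠ 0` an integer
(Bezout over `ℚ`, `G` is irreducible over `ℚ`, hence separable; clear denominators).  So it has `natDegree` distinct roots: `Polynomial.card_rootSet_eq_natDegree` / `Multiset.toFinset_card_of_nodup`, and `natDegree` modulo `p` is `d`. -/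

namespace PT

open NumberField Finset Polynomial

theorem ptgal_field_aux (L : Type) [Field L] (a : Algebra ℚ L) (Q : ℚ[X]) [CharZero L]
    (h : @IsSplittingField ℚ L _ _ a Q) :
    @IsSplittingField ℚ L _ _ DivisionRing.toRatAlgebra Q := by
  have h4 : a = DivisionRing.toRatAlgebra := Subsingleton.elim _ _
  subst h4
  exact h

theorem ptgal_field (Q : ℚ[X]) : ∃ (L : Type) (_ : Field L) (_ : NumberField L),
    IsGalois ℚ L ∧ (Q.map (algebraMap ℚ L)).Splits := by
  have h5 := ptgal_field_aux Q.SplittingField _ Q (IsSplittingField.splittingField Q)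
  have h1 : FiniteDimensional ℚ Q.SplittingField :=
    IsSplittingField.finiteDimensional Q.SplittingField Q
  have h2 : Normal ℚ Q.SplittingField := Normal.of_isSplittingField Q
  have h3 : (Q.map (algebraMap ℚ Q.SplittingField)).Splits :=
    IsSplittingField.splits Q.SplittingField Q
  exact ⟨Q.SplittingField, inferInstance, ⟨⟩, ⟨⟩, h3⟩

theorem ptgal_norm {L : Type} [Field L] [NumberField L] [IsGalois ℚ L] :
    ∃ N : ℕ, N ≠ 0 ∧ ∀ p : ℕ, p.Prime → ¬ p ∣ N →
      (∃ P : Ideal (𝓞 L), P.IsPrime ∧ Ideal.absNorm P = p) →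
      ∃ E : Finset (Ideal (𝓞 L)), E.card = Module.finrank ℚ L ∧
        ∀ P ∈ E, P.IsPrime ∧ Ideal.absNorm P = p := by
  obtain ⟨B, hB⟩ := Pool.Agent.Lib.MP_021685_agT.card_primes_of_norm (K := L)
  refine ⟨B.factorial, B.factorial_ne_zero, fun p hp hpN ⟨P, hP, hPp⟩ => ?_⟩
  have hlt : B < p := by
    by_contra h
    exact hpN ((Nat.Prime.dvd_factorial hp).2 (not_lt.1 h))
  refine hB p hp hlt fun Q hQ hmem => ?_
  have hrZ : Prime (p : ℤ) := Nat.prime_iff_prime_int.mp hp
  have hlies : ∀ R : Ideal (𝓞 L), R.IsPrime → (p : 𝓞 L) ∈ R → R.LiesOver (Ideal.span {(p : ℤ)}) := by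
    intro R hR hm
    refine ⟨?_⟩
    have hmax : (Ideal.span {(p : ℤ)}).IsMaximal :=
      ((Ideal.span_singleton_prime hrZ.ne_zero).mpr hrZ).isMaximal (by
        rw [Ne, Ideal.span_singleton_eq_bot]; exact hrZ.ne_zero)
    refine hmax.eq_of_le ?_ ?_
    · exact (Ideal.IsPrime.under ℤ R).ne_top
    · rw [Ideal.span_singleton_le_iff_mem, Ideal.mem_comap]
      simpa using hm
  have hPm : (p : 𝓞 L) ∈ P := by
    rw [← hPp]
    exact Ideal.absNorm_mem P
  have l1 := hlies P hP hPm
  have l2 := hlies Q hQ hmem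
  have hmax : (Ideal.span {(p : ℤ)}).IsMaximal :=
      ((Ideal.span_singleton_prime hrZ.ne_zero).mpr hrZ).isMaximal (by
        rw [Ne, Ideal.span_singleton_eq_bot]; exact hrZ.ne_zero)
  have h1 := Ideal.inertiaDeg_eq_of_isGaloisGroup (Ideal.span {(p : ℤ)}) P Q (L ≃ₐ[ℚ] L)
  have h2 := Ideal.pow_inertiaDeg p P
  have h3 := Ideal.pow_inertiaDeg p Q
  rw [← h3, ← h1, h2, hPp]

theorem ptgal_dvd {L : Type} [Field L] [NumberField L] (x : 𝓞 L) (P : Ideal (𝓞 L)) (hx : x ∈ P) :
    Ideal.absNorm P ∣ Ideal.absNorm (Ideal.span {x}) :=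
  Ideal.absNorm_dvd_absNorm_of_le ((Ideal.span_singleton_le_iff_mem _).2 hx)

theorem ptgal_hom {L : Type} [Field L] [NumberField L] (p : ℕ) (hp : p.Prime) (P : Ideal (𝓞 L))
    (hP : Ideal.absNorm P = p) : ∃ π : 𝓞 L →+* ZMod p, ∀ x, π x = 0 → x ∈ P := by
  classical
  have hc : Nat.card (𝓞 L ⧸ P) = p := by
    rw [← hP, Ideal.absNorm_apply, Submodule.cardQuot_apply]
  have hfin : Finite (𝓞 L ⧸ P) := Nat.finite_of_card_ne_zero (by rw [hc]; exact hp.ne_zero)
  let _ := Fintype.ofFinite (𝓞 L ⧸ P)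
  rw [Nat.card_eq_fintype_card] at hc
  refine ⟨((ZMod.ringEquivOfPrime (𝓞 L ⧸ P) hp hc).symm : (𝓞 L ⧸ P) →+* ZMod p).comp
    (Ideal.Quotient.mk P), fun x hx => ?_⟩
  have h1 : (ZMod.ringEquivOfPrime (𝓞 L ⧸ P) hp hc).symm (Ideal.Quotient.mk P x) = 0 := hx
  rw [EmbeddingLike.map_eq_zero_iff] at h1
  exact Ideal.Quotient.eq_zero_iff_mem.1 h1

theorem ptgal_roots {L : Type} [Field L] [NumberField L] (G : ℤ[X])
    (hirr : Irreducible (G.map (Int.castRingHom ℚ)))
    (hs : ((G.map (Int.castRingHom ℚ)).map (algebraMap ℚ L)).Splits) :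
    ∃ N : ℕ, N ≠ 0 ∧ ∀ p : ℕ, p.Prime → ¬ p ∣ N →
      (∃ P : Ideal (𝓞 L), P.IsPrime ∧ Ideal.absNorm P = p) → rt G p = G.natDegree := by
  classical
  have hinj : Function.Injective (Int.castRingHom ℚ) := Int.cast_injective
  have hG0 : G ≠ 0 := by
    rintro rfl
    simp at hirr
  have hdeg : (G.map (Int.castRingHom ℚ)).natDegree = G.natDegree :=
    natDegree_map_eq_of_injective hinj G
  have hd1 : 1 ≤ G.natDegree := by
    rw [← hdeg]
    exact hirr.natDegree_pos
  have hcard := card_rootSet_eq_natDegree (K := L) hirr.separable hs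
  rw [hdeg] at hcard
  have hroot : ∀ θ : (G.map (Int.castRingHom ℚ)).rootSet L, aeval (θ : L) G = 0 := by
    intro θ
    have h1 := (mem_rootSet.1 θ.2).2
    have h2 : (aeval (θ : L)) (G.map (algebraMap ℤ ℚ)) = 0 := h1
    rwa [aeval_map_algebraMap] at h2
  have hint : ∀ θ : (G.map (Int.castRingHom ℚ)).rootSet L,
      ∃ η : 𝓞 L, (η : L) = (G.leadingCoeff : L) * (θ : L) := by
    intro θ
    have h1 := isIntegral_leadingCoeff_smul (R := ℤ) (S := L) G (θ : L) (hroot θ)
    rw [zsmul_eq_mul] at h1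
    exact ⟨⟨_, h1⟩, rfl⟩
  choose η hη using hint
  have hc0 : (G.leadingCoeff : L) ≠ 0 := by
    exact_mod_cast leadingCoeff_ne_zero.2 hG0
  have hηinj : Function.Injective η := by
    intro a b hab
    have h1 := congrArg (fun z : 𝓞 L => (z : L)) hab
    simp only [hη] at h1
    exact Subtype.ext (mul_left_cancel₀ hc0 h1)
  have hint2 : ∀ θ, aeval (η θ) (integralNormalization G) = 0 := by
    intro θ
    have h1 : aeval ((G.leadingCoeff : L) * (θ : L)) (integralNormalization G) = 0 := by
      have := integralNormalization_aeval_eq_zero (S := ℤ) (A := L) (hroot θ)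
        (fun x hx => by simpa using hx)
      simpa using this
    rw [← hη] at h1
    have h2 : aeval (algebraMap (𝓞 L) L (η θ)) (integralNormalization G) = 0 := h1
    rw [aeval_algebraMap_apply] at h2
    exact (FaithfulSMul.algebraMap_injective (𝓞 L) L) (by simpa using h2)
  refine ⟨G.leadingCoeff.natAbs * ∏ a, ∏ b,
    if a = b then 1 else Ideal.absNorm (Ideal.span {η a - η b}), ?_, ?_⟩
  · refine mul_ne_zero ?_ ?_
    · rw [Int.natAbs_ne_zero]
      exact leadingCoeff_ne_zero.2 hG0
    · rw [Finset.prod_ne_zero_iff]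
      intro a _
      rw [Finset.prod_ne_zero_iff]
      intro b _
      split_ifs with hab
      · exact one_ne_zero
      · rw [Ne, Ideal.absNorm_eq_zero_iff, Ideal.span_singleton_eq_bot, sub_eq_zero]
        exact fun h => hab (hηinj h)
  · intro p hp hpN ⟨P, hP, hPp⟩
    have := Fact.mk hp
    obtain ⟨π, hπ⟩ := ptgal_hom p hp P hPp
    have hcp : (G.leadingCoeff : ZMod p) ≠ 0 := by
      intro h
      rw [ZMod.intCast_zmod_eq_zero_iff_dvd] at h
      exact hpN (Dvd.dvd.mul_right (Int.natCast_dvd.1 h) _)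
    have hne : ∀ a b, a ≠ b → π (η a) ≠ π (η b) := by
      intro a b hab h
      have h1 : η a - η b ∈ P := hπ _ (by rw [map_sub, h, sub_self])
      have h2 := ptgal_dvd _ P h1
      rw [hPp] at h2
      refine hpN (Dvd.dvd.mul_left ?_ _)
      refine dvd_trans ?_ (Finset.dvd_prod_of_mem _ (Finset.mem_univ a))
      refine dvd_trans ?_ (Finset.dvd_prod_of_mem _ (Finset.mem_univ b))
      rw [if_neg hab]
      exact h2
    have hz : ∀ a, (G.map (Int.castRingHom (ZMod p))).eval
        ((G.leadingCoeff : ZMod p)⁻¹ * π (η a)) = 0 := by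
      intro a
      have h1 := integralNormalization_eval₂_leadingCoeff_mul hd1 (Int.castRingHom (ZMod p))
        ((G.leadingCoeff : ZMod p)⁻¹ * π (η a))
      have h2 : (Int.castRingHom (ZMod p)) G.leadingCoeff *
          ((G.leadingCoeff : ZMod p)⁻¹ * π (η a)) = π (η a) := by
        simp [mul_inv_cancel_left₀ hcp]
      rw [h2] at h1
      have h3 : eval₂ (Int.castRingHom (ZMod p)) (π (η a)) (integralNormalization G) = 0 := by
        have h4 := congrArg π (hint2 a)
        rw [aeval_def, hom_eval₂, map_zero] at h4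
        rw [← h4]
        congr 1
        exact Subsingleton.elim _ _
      rw [h3] at h1
      rw [eval_map]
      have h5 := (mul_eq_zero.1 h1.symm).resolve_left (pow_ne_zero _ (by simpa using hcp))
      exact h5
    have hGp : G.map (Int.castRingHom (ZMod p)) ≠ 0 := by
      intro h
      have := congrArg (fun q => q.coeff G.natDegree) h
      simp only [coeff_map, coeff_zero] at this
      exact hcp (by simpa using this)
    apply le_antisymm
    · have h6 : rt G p ≤ ((G.map (Int.castRingHom (ZMod p))).roots.toFinset).card := by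
        rw [rt, ← Nat.card_eq_finsetCard]
        refine Nat.card_le_card_of_injective
          (fun ρ => ⟨ρ.1, by rw [Multiset.mem_toFinset, mem_roots hGp]; exact ρ.2⟩) ?_
        intro a b hab
        simp only [Subtype.mk.injEq] at hab
        exact Subtype.ext hab
      refine h6.trans ((Multiset.toFinset_card_le _).trans ((card_roots' _).trans ?_))
      exact natDegree_map_le
    · rw [← hcard, rt, ← Nat.card_eq_fintype_card]
      refine Nat.card_le_card_of_injective (fun a => ⟨_, hz a⟩) ?_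
      intro a b hab
      by_contra hne'
      have h7 := congrArg Subtype.val hab
      simp only at h7
      exact hne a b hne' (mul_left_cancel₀ (inv_ne_zero hcp) h7)

theorem gal_primes {ι : Type} [Fintype ι] (G : ι → ℤ[X]) (hG : ∀ i, Irreducible ((G i).map (Int.castRingHom ℚ))) :
    ∃ (L : Type) (_ : Field L) (_ : NumberField L) (n B2 : ℕ), 1 ≤ n ∧ n = Module.finrank ℚ L ∧ B2 ≠ 0 ∧
      ∀ p : ℕ, p.Prime → ¬ p ∣ B2 → (∃ P : Ideal (𝓞 L), P.IsPrime ∧ Ideal.absNorm P = p) →
        (∃ E : Finset (Ideal (𝓞 L)), E.card = n ∧ ∀ P ∈ E, P.IsPrime ∧ Ideal.absNorm P = p) ∧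
        ∀ i, rt (G i) p = (G i).natDegree := by
  classical
  set Q : ℚ[X] := ∏ i, (G i).map (Int.castRingHom ℚ) with hQ
  have hQ0 : Q ≠ 0 := Finset.prod_ne_zero_iff.2 fun i _ => (hG i).ne_zero
  obtain ⟨L, iF, iN, hgal, hspl⟩ := ptgal_field Q
  obtain ⟨N0, hN0, hN0'⟩ := ptgal_norm (L := L)
  have hr : ∀ i, ∃ N : ℕ, N ≠ 0 ∧ ∀ p : ℕ, p.Prime → ¬ p ∣ N →
      (∃ P : Ideal (𝓞 L), P.IsPrime ∧ Ideal.absNorm P = p) → rt (G i) p = (G i).natDegree := by
    intro i
    refine ptgal_roots (G i) (hG i) ?_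
    refine Splits.of_dvd hspl ?_ ?_
    · exact (Polynomial.map_ne_zero_iff (algebraMap ℚ L).injective).2 hQ0
    · exact Polynomial.map_dvd _ (Finset.dvd_prod_of_mem _ (Finset.mem_univ i))
  choose N hN hN' using hr
  refine ⟨L, iF, iN, Module.finrank ℚ L, N0 * ∏ i, N i, Module.finrank_pos, rfl,
    mul_ne_zero hN0 (Finset.prod_ne_zero_iff.2 fun i _ => hN i), fun p hp hpN hP => ⟨?_, ?_⟩⟩
  · exact hN0' p hp (fun h => hpN (Dvd.dvd.mul_right h _)) hP
  · intro i
    exact hN' i p hp (fun h => hpN (Dvd.dvd.mul_left (h.trans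
      (Finset.dvd_prod_of_mem _ (Finset.mem_univ i))) _)) hP

end PT
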