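import Mathlib
import Pool.Agent.Lib.MP_021685_agT.GC1

/-! Lower bound for sums over prime ideals from the pole of the Dedekind zeta function. -/

namespace PT

open NumberField Finset Filter Topology

private theorem ptzl_geom {x : ℝ} (h0 : 0 ≤ x) (h1 : x < 1) (m : ℕ) :
    ∑ k ∈ Finset.range m, x ^ k ≤ (1 - x)⁻¹ := by
  rw [← tsum_geometric_of_lt_one h0 h1]
  exact (summable_geometric_of_lt_one h0 h1).sum_le_tsum _ (fun k _ => pow_nonneg h0 k)

open Classical in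
private theorem ptzl_fac {K : Type} [Field K] [NumberField K] (E : Finset (Ideal (𝓞 K)))
    {I : Ideal (𝓞 K)} (hI : I ≠ ⊥)
    (hE : ∀ P : Ideal (𝓞 K), P ∈ UniqueFactorizationMonoid.normalizedFactors I → P ∈ E) :
    ∏ P ∈ E, P ^ (Multiset.count P (UniqueFactorizationMonoid.normalizedFactors I)) = I := by
  rw [← Finset.prod_multiset_count_of_subset]
  · exact Ideal.prod_normalizedFactors_eq_self hI
  · intro P hP
    exact hE P (Multiset.mem_toFinset.1 hP)

open Classical in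
private theorem ptzl_euler {K : Type} [Field K] [NumberField K] (E J : Finset (Ideal (𝓞 K)))
    (hEp : ∀ P ∈ E, P.IsPrime ∧ P ≠ ⊥) (hJ0 : ∀ I ∈ J, I ≠ ⊥)
    (hJ : ∀ I ∈ J, ∀ P : Ideal (𝓞 K), P ∈ UniqueFactorizationMonoid.normalizedFactors I → P ∈ E)
    {s : ℝ} (hs : 1 < s) :
    ∑ I ∈ J, ((Ideal.absNorm I : ℕ) : ℝ) ^ (-s) ≤
      ∏ P ∈ E, (1 - ((Ideal.absNorm P : ℕ) : ℝ) ^ (-s))⁻¹ := by
  set m : ℕ := (∑ I ∈ J, Multiset.card (UniqueFactorizationMonoid.normalizedFactors I)) + 1 with hm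
  have hx0 : ∀ P ∈ E, (0:ℝ) ≤ ((Ideal.absNorm P : ℕ) : ℝ) ^ (-s) := fun P _ => by positivity
  have hx1 : ∀ P ∈ E, ((Ideal.absNorm P : ℕ) : ℝ) ^ (-s) < 1 := by
    intro P hP
    have hn0 : Ideal.absNorm P ≠ 0 := fun h => (hEp P hP).2 (Ideal.absNorm_eq_zero_iff.1 h)
    have hn1 : Ideal.absNorm P ≠ 1 := fun h => (hEp P hP).1.ne_top (Ideal.absNorm_eq_one_iff.1 h)
    have h2 : (1:ℝ) < ((Ideal.absNorm P : ℕ) : ℝ) := by
      have : 1 < Ideal.absNorm P := by omega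
      exact_mod_cast this
    exact Real.rpow_lt_one_of_one_lt_of_neg h2 (by linarith)
  have h1 : ∏ P ∈ E, ∑ k ∈ Finset.range m, (((Ideal.absNorm P : ℕ) : ℝ) ^ (-s)) ^ k ≤
      ∏ P ∈ E, (1 - ((Ideal.absNorm P : ℕ) : ℝ) ^ (-s))⁻¹ :=
    Finset.prod_le_prod (fun P hP => Finset.sum_nonneg fun k _ => pow_nonneg (hx0 P hP) k)
      (fun P hP => ptzl_geom (hx0 P hP) (hx1 P hP) m)
  refine le_trans ?_ h1
  rw [Finset.prod_sum]
  set φ : Ideal (𝓞 K) → ((a : Ideal (𝓞 K)) → a ∈ E → ℕ) := fun I P _ =>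
    Multiset.count P (UniqueFactorizationMonoid.normalizedFactors I) with hφ
  have hinj : Set.InjOn φ (J : Set (Ideal (𝓞 K))) := by
    intro A hA B hB h
    rw [← ptzl_fac E (hJ0 A hA) (hJ A hA), ← ptzl_fac E (hJ0 B hB) (hJ B hB)]
    refine Finset.prod_congr rfl fun P hP => ?_
    rw [show Multiset.count P (UniqueFactorizationMonoid.normalizedFactors A) =
      Multiset.count P (UniqueFactorizationMonoid.normalizedFactors B) from congrFun (congrFun h P) hP]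
  have h2 : ∑ I ∈ J, ((Ideal.absNorm I : ℕ) : ℝ) ^ (-s) =
      ∑ p ∈ J.image φ, ∏ x ∈ E.attach, (((Ideal.absNorm x.1 : ℕ) : ℝ) ^ (-s)) ^ (p x.1 x.2) := by
    rw [Finset.sum_image hinj]
    refine Finset.sum_congr rfl fun I hI => ?_
    have h3 : (∏ x ∈ E.attach, (((Ideal.absNorm x.1 : ℕ) : ℝ) ^ (-s)) ^ (φ I x.1 x.2)) =
        ∏ P ∈ E, (((Ideal.absNorm P : ℕ) : ℝ) ^ (-s)) ^
          (Multiset.count P (UniqueFactorizationMonoid.normalizedFactors I)) :=
      Finset.prod_attach E (fun P => (((Ideal.absNorm P : ℕ) : ℝ) ^ (-s)) ^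
          (Multiset.count P (UniqueFactorizationMonoid.normalizedFactors I)))
    rw [h3]
    conv_lhs => rw [← ptzl_fac E (hJ0 I hI) (hJ I hI)]
    rw [map_prod, Nat.cast_prod, ← Real.finsetProd_rpow _ _ (fun _ _ => Nat.cast_nonneg _)]
    refine Finset.prod_congr rfl fun P _ => ?_
    rw [map_pow, Nat.cast_pow, ← Real.rpow_natCast, ← Real.rpow_mul (Nat.cast_nonneg _),
      ← Real.rpow_natCast, ← Real.rpow_mul (Nat.cast_nonneg _), mul_comm]
  rw [h2]
  refine Finset.sum_le_sum_of_subset_of_nonneg ?_ ?_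
  · intro p hp
    rw [Finset.mem_image] at hp
    obtain ⟨I, hI, rfl⟩ := hp
    rw [Finset.mem_pi]
    intro P hP
    rw [Finset.mem_range, hm, Nat.lt_succ_iff]
    refine le_trans (Multiset.count_le_card P _) ?_
    exact Finset.single_le_sum (f := fun I : Ideal (𝓞 K) =>
      Multiset.card (UniqueFactorizationMonoid.normalizedFactors I)) (fun _ _ => Nat.zero_le _) hI
  · intro p _ _
    exact Finset.prod_nonneg fun x _ => pow_nonneg (hx0 x.1 x.2) _

private theorem ptzl_bigO (K : Type) [Field K] [NumberField K] :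
    (fun n : ℕ ↦ ∑ k ∈ Finset.Icc 1 n, (Nat.card {I : Ideal (𝓞 K) // Ideal.absNorm I = k} : ℝ))
      =O[atTop] fun n ↦ (n : ℝ) ^ (1 : ℝ) := by
  have h1 : Tendsto (fun n : ℕ ↦
      (∑ k ∈ Finset.Icc 1 n, (Nat.card {I : Ideal (𝓞 K) // Ideal.absNorm I = k} : ℝ)) / (n : ℝ)) atTop
      (𝓝 ((2 ^ InfinitePlace.nrRealPlaces K * (2 * Real.pi) ^ InfinitePlace.nrComplexPlaces K *
        Units.regulator K * classNumber K) / (Units.torsionOrder K * Real.sqrt |discr K|))) := by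
    refine ((Ideal.tendsto_norm_le_div_atTop₀ K).comp tendsto_natCast_atTop_atTop).congr fun n ↦ ?_
    simp only [Function.comp_apply, Nat.cast_le, ← Nat.cast_sum]
    congr
    rw [← add_left_inj 1, ← Ideal.card_norm_le_eq_card_norm_le_add_one,
      show Finset.Icc 1 n = Finset.Ioc 0 n from Finset.Icc_succ_left_eq_Ioc _ _,
      show 1 = Nat.card {I : Ideal (𝓞 K) // Ideal.absNorm I = 0} by simp [Ideal.absNorm_eq_zero_iff],
      Finset.sum_Ioc_add_eq_sum_Icc (n.zero_le),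
      ← Finset.card_preimage_eq_sum_card_image_eq (fun k _ ↦ Ideal.finite_setOfPred_absNorm_eq k)]
    simp [Set.coe_eq_subtype]
  have h2 := h1.isBigO_one ℝ
  have h3 : (fun n : ℕ ↦ (∑ k ∈ Finset.Icc 1 n, (Nat.card {I : Ideal (𝓞 K) // Ideal.absNorm I = k} : ℝ)))
      =ᶠ[atTop] (fun n : ℕ ↦ ((∑ k ∈ Finset.Icc 1 n,
        (Nat.card {I : Ideal (𝓞 K) // Ideal.absNorm I = k} : ℝ)) / (n : ℝ)) * (n : ℝ) ^ (1 : ℝ)) := by
    filter_upwards [eventually_gt_atTop 0] with n hn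
    have : (n : ℝ) ≠ 0 := by positivity
    rw [Real.rpow_one]
    field_simp
  refine h3.trans_isBigO ?_
  have h4 := h2.mul (Asymptotics.isBigO_refl (fun n : ℕ ↦ (n : ℝ) ^ (1 : ℝ)) atTop)
  simpa using h4

private theorem ptzl_summable (K : Type) [Field K] [NumberField K] {s : ℝ} (hs : 1 < s) :
    LSeriesSummable (fun n ↦ ((Nat.card {I : Ideal (𝓞 K) // Ideal.absNorm I = n} : ℝ) : ℂ)) (s : ℂ) :=
  LSeriesSummable_of_sum_norm_bigO_and_nonneg (ptzl_bigO K) (fun _ => Nat.cast_nonneg _) zero_le_one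
    (by simpa using hs)

private theorem ptzl_term (a : ℕ → ℕ) (s : ℝ) {n : ℕ} (hn : n ≠ 0) :
    (LSeries.term (fun n ↦ ((a n : ℝ) : ℂ)) (s : ℂ) n).re = (a n : ℝ) * (n : ℝ) ^ (-s) := by
  rw [LSeries.term_of_ne_zero hn]
  have h1 : ((n : ℂ)) ^ (s : ℂ) = (((n : ℝ) ^ s : ℝ) : ℂ) := by
    rw [Complex.ofReal_cpow (Nat.cast_nonneg n)]
    simp
  rw [h1, ← Complex.ofReal_div, Complex.ofReal_re, Real.rpow_neg (Nat.cast_nonneg n)]
  rfl

open Classical in
/-- a finite set of ideals carrying half of the zeta value -/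
private theorem ptzl_half (K : Type) [Field K] [NumberField K] {s : ℝ} (hs : 1 < s)
    (hpos : 0 < (dedekindZeta K s).re) :
    ∃ J : Finset (Ideal (𝓞 K)), (∀ I ∈ J, I ≠ ⊥) ∧
      (dedekindZeta K s).re / 2 ≤ ∑ I ∈ J, ((Ideal.absNorm I : ℕ) : ℝ) ^ (-s) := by
  have hsum := ptzl_summable K hs
  have h1 : dedekindZeta K s = ∑' n, LSeries.term
      (fun n ↦ ((Nat.card {I : Ideal (𝓞 K) // Ideal.absNorm I = n} : ℝ) : ℂ)) (s : ℂ) n := by
    unfold dedekindZeta LSeries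
    simp
  have h2 : HasSum (fun n => (LSeries.term
      (fun n ↦ ((Nat.card {I : Ideal (𝓞 K) // Ideal.absNorm I = n} : ℝ) : ℂ)) (s : ℂ) n).re)
      (dedekindZeta K s).re := by
    rw [h1]
    exact Complex.hasSum_re hsum.hasSum
  have h3 : ∀ᶠ T : Finset ℕ in atTop, (dedekindZeta K s).re / 2 < ∑ n ∈ T, (LSeries.term
      (fun n ↦ ((Nat.card {I : Ideal (𝓞 K) // Ideal.absNorm I = n} : ℝ) : ℂ)) (s : ℂ) n).re :=
    h2.eventually (lt_mem_nhds (by linarith))
  obtain ⟨T, hT⟩ := h3.exists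
  refine ⟨(T.erase 0).biUnion (fun n => (Ideal.finite_setOfPred_absNorm_eq (S := 𝓞 K) n).toFinset),
    ?_, ?_⟩
  · intro I hI
    rw [Finset.mem_biUnion] at hI
    obtain ⟨n, hn, hIn⟩ := hI
    rw [Set.Finite.mem_toFinset] at hIn
    intro h0
    have h4 : Ideal.absNorm I = n := hIn
    rw [h0, Ideal.absNorm_bot] at h4
    exact (Finset.mem_erase.1 hn).1 h4.symm
  · rw [Finset.sum_biUnion]
    · refine hT.le.trans ?_
      have h0 : ∑ n ∈ T, (LSeries.term
          (fun n ↦ ((Nat.card {I : Ideal (𝓞 K) // Ideal.absNorm I = n} : ℝ) : ℂ)) (s : ℂ) n).re =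
          ∑ n ∈ T.erase 0, (LSeries.term
          (fun n ↦ ((Nat.card {I : Ideal (𝓞 K) // Ideal.absNorm I = n} : ℝ) : ℂ)) (s : ℂ) n).re :=
        (Finset.sum_erase T (by simp)).symm
      rw [h0]
      refine Finset.sum_le_sum fun n hn => ?_
      rw [ptzl_term (fun n => Nat.card {I : Ideal (𝓞 K) // Ideal.absNorm I = n}) s
        (Finset.mem_erase.1 hn).1]
      rw [Finset.sum_congr rfl (g := fun _ => (n : ℝ) ^ (-s)) (by
        intro I hI
        rw [Set.Finite.mem_toFinset] at hI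
        have h4 : Ideal.absNorm I = n := hI
        rw [h4]), Finset.sum_const, nsmul_eq_mul]
      refine mul_le_mul_of_nonneg_right ?_ (by positivity)
      rw [Nat.cast_le]
      rw [← Set.ncard_eq_toFinset_card _ (Ideal.finite_setOfPred_absNorm_eq (S := 𝓞 K) n)]
      exact le_of_eq rfl
    · intro a _ b _ hab
      rw [Function.onFun, Finset.disjoint_left]
      intro I hIa hIb
      rw [Set.Finite.mem_toFinset] at hIa hIb
      have h4 : Ideal.absNorm I = a := hIa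
      have h5 : Ideal.absNorm I = b := hIb
      exact hab (h4.symm.trans h5)

private theorem ptzl_log {y : ℝ} (h0 : 0 ≤ y) (h1 : y ≤ 1 / 2) :
    Real.log ((1 - y)⁻¹) ≤ y + 2 * y ^ 2 := by
  have h2 : (0:ℝ) < 1 - y := by linarith
  have h3 := Real.log_le_sub_one_of_pos (inv_pos.2 h2)
  refine h3.trans ?_
  have h4 : (1 - y)⁻¹ ≤ 1 + y + 2 * y ^ 2 := by
    rw [inv_le_iff_one_le_mul₀ h2]
    nlinarith [mul_nonneg (mul_nonneg h0 h0) (by linarith : (0:ℝ) ≤ 1 - 2 * y)]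
  linarith

private theorem ptzl_sum_le_prod {ι : Type} (E : Finset ι) (y : ι → ℝ) (hy : ∀ i ∈ E, 0 ≤ y i) :
    ∑ i ∈ E, y i ≤ ∏ i ∈ E, (1 + y i) := by
  classical
  have h : 1 + ∑ i ∈ E, y i ≤ ∏ i ∈ E, (1 + y i) := by
    induction E using Finset.induction_on with
    | empty => simp
    | insert a E ha ih =>
      rw [Finset.sum_insert ha, Finset.prod_insert ha]
      have h1 := ih (fun i hi => hy i (Finset.mem_insert_of_mem hi))
      have h2 : 0 ≤ y a := hy a (Finset.mem_insert_self _ _)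
      have h3 : 0 ≤ ∑ i ∈ E, y i := Finset.sum_nonneg fun i hi => hy i (Finset.mem_insert_of_mem hi)
      nlinarith [mul_nonneg h2 h3]
  linarith

theorem zeta_lower (K : Type) [Field K] [NumberField K] :
    ∃ C : ℝ, ∀ s : ℝ, 1 < s → s ≤ 2 → ∃ E : Finset (Ideal (𝓞 K)), (∀ P ∈ E, P.IsPrime ∧ P ≠ ⊥) ∧
      Real.log (1 / (s - 1)) - C ≤ ∑ P ∈ E, ((Ideal.absNorm P : ℕ) : ℝ) ^ (-s) := by
  classical
  obtain ⟨r, hr, hlim⟩ : ∃ r : ℝ, 0 < r ∧ Tendsto (fun s : ℝ ↦ ((s : ℂ) - 1) * dedekindZeta K s)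
      (𝓝[>] 1) (𝓝 (r : ℂ)) :=
    ⟨dedekindZeta_residue K, dedekindZeta_residue_pos K, tendsto_sub_one_mul_dedekindZeta_nhdsGT K⟩
  have hre : Tendsto (fun s : ℝ ↦ (s - 1) * (dedekindZeta K s).re) (𝓝[>] 1) (𝓝 r) := by
    have h1 := (Complex.continuous_re.tendsto _).comp hlim
    rw [Complex.ofReal_re] at h1
    refine h1.congr fun s => ?_
    simp only [Function.comp_apply]
    rw [show ((s : ℂ) - 1) = ((s - 1 : ℝ) : ℂ) by push_cast; rfl, Complex.re_ofReal_mul]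
  have hev : ∀ᶠ s : ℝ in 𝓝[>] 1, r / 2 < (s - 1) * (dedekindZeta K s).re :=
    hre.eventually (lt_mem_nhds (by linarith))
  rw [eventually_nhdsWithin_iff, Metric.eventually_nhds_iff] at hev
  obtain ⟨δ, hδ, hball⟩ := hev
  set Z2 : ℝ := (dedekindZeta K ((2 : ℝ) : ℂ)).re with hZ2
  refine ⟨max (Real.log (1 / δ)) (2 * Z2 - Real.log (r / 4)), ?_⟩
  intro s hs1 hs2
  rcases lt_or_ge s (1 + δ) with hsd | hsd
  · have hz : r / 2 < (s - 1) * (dedekindZeta K s).re := by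
      refine hball ?_ hs1
      rw [Real.dist_eq, abs_of_pos (by linarith)]
      linarith
    have hpos : 0 < (dedekindZeta K s).re := by
      by_contra hneg
      push Not at hneg
      nlinarith
    obtain ⟨J, hJ0, hJ⟩ := ptzl_half K hs1 hpos
    set E : Finset (Ideal (𝓞 K)) :=
      J.biUnion (fun I => (UniqueFactorizationMonoid.normalizedFactors I).toFinset) with hE
    have hEp : ∀ P ∈ E, P.IsPrime ∧ P ≠ ⊥ := by
      intro P hP
      rw [hE, Finset.mem_biUnion] at hP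
      obtain ⟨I, _, hPI⟩ := hP
      have hprime := UniqueFactorizationMonoid.prime_of_normalized_factor P (Multiset.mem_toFinset.1 hPI)
      exact ⟨Ideal.isPrime_of_prime hprime, hprime.ne_zero⟩
    refine ⟨E, hEp, ?_⟩
    have h1 := ptzl_euler E J hEp hJ0 (by
      intro I hI P hP
      rw [hE, Finset.mem_biUnion]
      exact ⟨I, hI, Multiset.mem_toFinset.2 hP⟩) hs1
    have hs0 : 0 < s - 1 := by linarith
    have h2 : r / 4 * (1 / (s - 1)) ≤ ∏ P ∈ E, (1 - ((Ideal.absNorm P : ℕ) : ℝ) ^ (-s))⁻¹ := by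
      refine le_trans ?_ (hJ.trans h1)
      rw [mul_one_div, div_le_iff₀ hs0]
      linarith
    have hn2 : ∀ P ∈ E, (2:ℝ) ≤ ((Ideal.absNorm P : ℕ) : ℝ) := by
      intro P hP
      have hn0 : Ideal.absNorm P ≠ 0 := fun h => (hEp P hP).2 (Ideal.absNorm_eq_zero_iff.1 h)
      have hn1 : Ideal.absNorm P ≠ 1 := fun h => (hEp P hP).1.ne_top (Ideal.absNorm_eq_one_iff.1 h)
      have : 2 ≤ Ideal.absNorm P := by omega
      exact_mod_cast this
    have hy : ∀ P ∈ E, ((Ideal.absNorm P : ℕ) : ℝ) ^ (-s) ≤ 1 / 2 := by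
      intro P hP
      have h3 := hn2 P hP
      calc ((Ideal.absNorm P : ℕ) : ℝ) ^ (-s) ≤ ((Ideal.absNorm P : ℕ) : ℝ) ^ (-1 : ℝ) :=
            Real.rpow_le_rpow_of_exponent_le (by linarith) (by linarith)
        _ = (((Ideal.absNorm P : ℕ) : ℝ))⁻¹ := Real.rpow_neg_one _
        _ ≤ (2:ℝ)⁻¹ := inv_anti₀ (by norm_num) h3
        _ = 1 / 2 := by norm_num
    have hy0 : ∀ P ∈ E, (0:ℝ) ≤ ((Ideal.absNorm P : ℕ) : ℝ) ^ (-s) := fun P _ => by positivity
    have h3 : Real.log (r / 4 * (1 / (s - 1))) ≤ ∑ P ∈ E, (((Ideal.absNorm P : ℕ) : ℝ) ^ (-s) +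
        2 * (((Ideal.absNorm P : ℕ) : ℝ) ^ (-s)) ^ 2) := by
      refine (Real.log_le_log (by positivity) h2).trans ?_
      rw [Real.log_prod (fun P hP => by
        have := hy P hP
        have h5 : (0:ℝ) < 1 - ((Ideal.absNorm P : ℕ) : ℝ) ^ (-s) := by linarith
        positivity)]
      exact Finset.sum_le_sum fun P hP => ptzl_log (hy0 P hP) (hy P hP)
    have h4 : ∑ P ∈ E, (((Ideal.absNorm P : ℕ) : ℝ) ^ (-s)) ^ 2 ≤ Z2 := by
      have h5 : ∑ P ∈ E, (((Ideal.absNorm P : ℕ) : ℝ) ^ (-s)) ^ 2 ≤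
          ∑ P ∈ E, ((Ideal.absNorm P : ℕ) : ℝ) ^ (-(2:ℝ)) := by
        refine Finset.sum_le_sum fun P hP => ?_
        rw [← Real.rpow_natCast, ← Real.rpow_mul (Nat.cast_nonneg _)]
        refine Real.rpow_le_rpow_of_exponent_le (by linarith [hn2 P hP]) ?_
        push_cast
        linarith
      refine h5.trans ((ptzl_sum_le_prod E _ (fun P _ => by positivity)).trans ?_)
      exact Pool.Agent.Lib.MP_021685_agT.prod_le_zeta E hEp (by norm_num : (1:ℝ) < 2)
    rw [Finset.sum_add_distrib, ← Finset.mul_sum, Real.log_mul (by positivity) (by positivity)] at h3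
    have h6 := le_max_right (Real.log (1 / δ)) (2 * Z2 - Real.log (r / 4))
    linarith
  · refine ⟨∅, by simp, ?_⟩
    rw [Finset.sum_empty]
    have h1 : Real.log (1 / (s - 1)) ≤ Real.log (1 / δ) := by
      refine Real.log_le_log (by have : 0 < s - 1 := by linarith
                                 positivity) ?_
      exact one_div_le_one_div_of_le hδ (by linarith)
    have h6 := le_max_left (Real.log (1 / δ)) (2 * Z2 - Real.log (r / 4))
    linarith

end PT
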