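import Mathlib
import Pool.Agent.Lib.MP_021685_agT.GC1

/-! JOB PTZetaU.  Upper bound for sums over prime ideals from the pole of the Dedekind zeta function.

`Pool.Agent.Lib.MP_021685_agT.prod_le_zeta` (file `GC1`): `∏_{P ∈ E} (1 + N P ^ (-s)) ≤ (dedekindZeta K s).re` for `s > 1`.
`NumberField.tendsto_sub_one_mul_dedekindZeta_nhdsGT`: `(s - 1) ζ_K(s) → residue` for `s → 1+`.  So there is `δ > 0` with `(ζ_K(s)).re ≤ C0 / (s - 1)` for `1 < s < 1 + δ`; for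
`1 + δ ≤ s ≤ 2` use monotonicity: `∑_{P ∈ E} N P ^ (-s) ≤ ∑_{P ∈ E} N P ^ (-(1 + δ/2)) ≤ log ζ_K(1 + δ/2) + ...` is bounded (or apply the argument with `s' = min s (1 + δ/2)` and note `log (1 / (s - 1)) ≥ 0` for `s ≤ 2`).
For `1 < s < 1 + δ`: take logarithms, `log (1 + y) ≥ y - y ^ 2` for `0 ≤ y ≤ 1`, and `∑_{P ∈ E} N P ^ (-2 s) ≤ ∑_{P ∈ E} N P ^ (-2) ≤ ∏_{P ∈ E} (1 + N P ^ (-2)) ≤ (dedekindZeta K 2).re` (`prod_le_zeta` with `s = 2`;
`Finset.sum_le_prod_one_add`-type inequality, or `1 + ∑ y ≤ ∏ (1 + y)`: `Finset.prod_one_add_le..`/induction).  `N P ≥ 2 ≥ 1` for prime ideals (`Ideal.absNorm` is not `0`, `1`).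
See also `GC2.lean` in the same folder, which contains very similar computations. -/

namespace PT

open NumberField Finset Filter Topology

private lemma ptzetau_sum_le_prod {ι : Type} (E : Finset ι) (y : ι → ℝ) (hy : ∀ i ∈ E, 0 ≤ y i) :
    1 + ∑ i ∈ E, y i ≤ ∏ i ∈ E, (1 + y i) := by
  classical
  induction E using Finset.induction_on with
  | empty => simp
  | insert a E ha ih =>
    rw [Finset.sum_insert ha, Finset.prod_insert ha]
    have h1 := ih (fun i hi => hy i (Finset.mem_insert_of_mem hi))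
    have h2 := hy a (Finset.mem_insert_self a E)
    have h3 : 0 ≤ ∑ i ∈ E, y i := Finset.sum_nonneg fun i hi => hy i (Finset.mem_insert_of_mem hi)
    nlinarith [mul_nonneg h2 h3]

private lemma ptzetau_log {y : ℝ} (hy : 0 ≤ y) : y - y ^ 2 ≤ Real.log (1 + y) := by
  have h1 := Real.one_sub_inv_le_log_of_pos (show 0 < 1 + y by linarith)
  refine le_trans ?_ h1
  have h2 : (1 + y)⁻¹ ≤ 1 - (y - y ^ 2) := by
    rw [inv_le_iff_one_le_mul₀ (by linarith)]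
    have h3 : 0 ≤ y ^ 3 := by positivity
    nlinarith
  linarith

theorem zeta_upper (K : Type) [Field K] [NumberField K] :
    ∃ C : ℝ, ∀ (s : ℝ) (E : Finset (Ideal (𝓞 K))), 1 < s → s ≤ 2 → (∀ P ∈ E, P.IsPrime ∧ P ≠ ⊥) →
      ∑ P ∈ E, ((Ideal.absNorm P : ℕ) : ℝ) ^ (-s) ≤ Real.log (1 / (s - 1)) + C := by
  set ρ := dedekindZeta_residue K with hρ
  have hρ0 : 0 < ρ := dedekindZeta_residue_pos K
  have hre : Tendsto (fun s : ℝ => (s - 1) * (dedekindZeta K s).re) (𝓝[>] 1) (𝓝 ρ) := by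
    have h1 := (Complex.continuous_re.tendsto _).comp (tendsto_sub_one_mul_dedekindZeta_nhdsGT K)
    rw [Complex.ofReal_re] at h1
    refine h1.congr fun s => ?_
    have h2 : ((s : ℂ) - 1) = ((s - 1 : ℝ) : ℂ) := by push_cast; rfl
    rw [Function.comp_apply, h2, Complex.re_ofReal_mul]
  have hev : ∀ᶠ s : ℝ in 𝓝[>] 1, (s - 1) * (dedekindZeta K s).re < ρ + 1 :=
    hre.eventually (eventually_lt_nhds (by linarith))
  obtain ⟨u, hu, hsub⟩ := (mem_nhdsGT_iff_exists_Ioo_subset).1 hev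
  have hu1 : (1 : ℝ) < u := hu
  have hN1 : ∀ (E : Finset (Ideal (𝓞 K))), (∀ P ∈ E, P.IsPrime ∧ P ≠ ⊥) → ∀ P ∈ E,
      (1 : ℝ) ≤ ((Ideal.absNorm P : ℕ) : ℝ) := by
    intro E hE P hP
    have h1 : Ideal.absNorm P ≠ 0 := fun h => (hE P hP).2 (Ideal.absNorm_eq_zero_iff.1 h)
    exact_mod_cast Nat.one_le_iff_ne_zero.2 h1
  have hsum : ∀ (E : Finset (Ideal (𝓞 K))), (∀ P ∈ E, P.IsPrime ∧ P ≠ ⊥) → ∀ s : ℝ, 1 < s →
      1 + ∑ P ∈ E, ((Ideal.absNorm P : ℕ) : ℝ) ^ (-s) ≤ (dedekindZeta K s).re := by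
    intro E hE s hs
    refine (ptzetau_sum_le_prod E (fun P => ((Ideal.absNorm P : ℕ) : ℝ) ^ (-s))
      (fun P _ => by positivity)).trans ?_
    exact Pool.Agent.Lib.MP_021685_agT.prod_le_zeta E hE hs
  have hge : ∀ s : ℝ, 1 < s → 1 ≤ (dedekindZeta K s).re := by
    intro s hs
    have := hsum ∅ (by simp) s hs
    simpa using this
  set s₀ : ℝ := (1 + u) / 2 with hs₀
  have hs₀1 : 1 < s₀ := by rw [hs₀]; linarith
  have hs₀u : s₀ < u := by rw [hs₀]; linarith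
  set B : ℝ := (dedekindZeta K ((2 : ℝ) : ℂ)).re with hB
  set C1 : ℝ := (dedekindZeta K ((s₀ : ℝ) : ℂ)).re with hC1
  have hB0 : 1 ≤ B := hge 2 (by norm_num)
  have hC10 : 1 ≤ C1 := hge s₀ hs₀1
  refine ⟨|Real.log (ρ + 1)| + B + C1, fun s E hs hs2 hE => ?_⟩
  have habs := le_abs_self (Real.log (ρ + 1))
  have habs0 := abs_nonneg (Real.log (ρ + 1))
  have hs10 : 0 < s - 1 := by linarith
  have hlog0 : 0 ≤ Real.log (1 / (s - 1)) :=
    Real.log_nonneg (by rw [le_div_iff₀ hs10]; linarith)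
  by_cases hsu : s < u
  · have h1 : (s - 1) * (dedekindZeta K s).re < ρ + 1 := hsub ⟨hs, hsu⟩
    have h2 := Pool.Agent.Lib.MP_021685_agT.prod_le_zeta E hE hs
    have hpos : ∀ P ∈ E, 0 < 1 + ((Ideal.absNorm P : ℕ) : ℝ) ^ (-s) := by
      intro P _
      have : (0 : ℝ) ≤ ((Ideal.absNorm P : ℕ) : ℝ) ^ (-s) := by positivity
      linarith
    have hprod : 0 < ∏ P ∈ E, (1 + ((Ideal.absNorm P : ℕ) : ℝ) ^ (-s)) := Finset.prod_pos hpos
    have h3 : Real.log (∏ P ∈ E, (1 + ((Ideal.absNorm P : ℕ) : ℝ) ^ (-s)))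
        ≤ Real.log (ρ + 1) + Real.log (1 / (s - 1)) := by
      rw [← Real.log_mul (by linarith) (by positivity)]
      refine Real.log_le_log hprod (h2.trans ?_)
      rw [mul_one_div, le_div_iff₀ hs10, mul_comm]
      exact h1.le
    rw [Real.log_prod (fun P hP => (hpos P hP).ne')] at h3
    have h4 : ∑ P ∈ E, (((Ideal.absNorm P : ℕ) : ℝ) ^ (-s) - (((Ideal.absNorm P : ℕ) : ℝ) ^ (-s)) ^ 2)
        ≤ ∑ P ∈ E, Real.log (1 + ((Ideal.absNorm P : ℕ) : ℝ) ^ (-s)) :=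
      Finset.sum_le_sum fun P _ => ptzetau_log (by positivity)
    rw [Finset.sum_sub_distrib] at h4
    have h5 : ∑ P ∈ E, (((Ideal.absNorm P : ℕ) : ℝ) ^ (-s)) ^ 2
        ≤ ∑ P ∈ E, ((Ideal.absNorm P : ℕ) : ℝ) ^ (-(2 : ℝ)) := by
      refine Finset.sum_le_sum fun P hP => ?_
      have h6 := hN1 E hE P hP
      rw [← Real.rpow_natCast, ← Real.rpow_mul (by linarith)]
      refine Real.rpow_le_rpow_of_exponent_le h6 ?_
      push_cast
      linarith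
    have h7 := hsum E hE 2 (by norm_num)
    rw [← hB] at h7
    linarith
  · push Not at hsu
    have h1 : ∑ P ∈ E, ((Ideal.absNorm P : ℕ) : ℝ) ^ (-s) ≤ ∑ P ∈ E, ((Ideal.absNorm P : ℕ) : ℝ) ^ (-s₀) := by
      refine Finset.sum_le_sum fun P hP => ?_
      exact Real.rpow_le_rpow_of_exponent_le (hN1 E hE P hP) (by linarith)
    have h2 := hsum E hE s₀ hs₀1
    linarith

end PT
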