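import Pool.Agent.Lib.MP_10e784_ag.PT.PTConv
import Pool.Agent.Lib.MP_10e784_ag.PT.PTZetaU
import Pool.Agent.Lib.MP_10e784_ag.PT.PTZetaL
import Pool.Agent.Lib.MP_10e784_ag.PT.PTGal
import Pool.Agent.Lib.MP_10e784_ag.PT.PTAbove

/-! JOB PTSplit.  The set of totally split primes has density `1 / n` (logarithmically, up to `O(1)`).

Take `L, n, B2` from `gal_primes` and `S = {p | p prime, p ∤ B2, some prime ideal of 𝓞 L has norm p}`.
Upper bound: `conv_upper` with `a = ind S`, `M = 1`, `c = 1 / n`: for a finite set `T` of primes, `n ∑_{p ∈ T ∩ S} p ^ (-s)` is the sum of `N P ^ (-s)` over the disjoint union of the sets `E` of `gal_primes` (`n` ideals of norm `p` for each `p ∈ T ∩ S`), at most `log (1 / (s - 1)) + C` by `zeta_upper`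
(a prime ideal of norm `p` is not `⊥`: `absNorm ⊥ = 0`).
Lower bound: `conv_lower`, same `a`, `c`.  Let `E` be as in `zeta_lower`.  Every `P ∈ E` contains a unique prime number `p` (the characteristic of `𝓞 L ⧸ P`; `Ideal.absNorm P` is a power `p ^ f`, `f ≥ 1`; e.g. `Ideal.absNorm_mem`, `Ideal.natAbs_..`, `Nat.minFac`).  Split `E` into
(a) `N P = p` prime, `p ∤ B2`: then `p ∈ S`, at most `n` such `P` for each `p` (`primes_above_le`, `p ∈ P` since `absNorm P ∈ P`): contribution at most `n ∑_{p ∈ T} p ^ (-s)`, `T` the set of these `p`; (b) `N P = p` prime, `p ∣ B2`: at most `n` for each of the at most `B2` primes: contribution `≤ n B2`;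
(c) `N P` not prime: `N P = p ^ f ≥ p ^ 2`, at most `n` for each `p`: contribution `≤ n ∑_p p ^ (-2 s) ≤ n ∑_{k ≥ 1} k ^ (-2)`.  So `log (1 / (s - 1)) - C ≤ n ∑_{p ∈ T} ind S p * p ^ (-s) + C'`; divide by `n`. -/

namespace PT

open NumberField Finset Polynomial

theorem ptsplit_char (L : Type) [Field L] [NumberField L] (P : Ideal (𝓞 L)) (hP : P.IsPrime) (hb : P ≠ ⊥) :
    ∃ p : ℕ, p.Prime ∧ (p : 𝓞 L) ∈ P ∧ (Ideal.absNorm P = p ∨ p ^ 2 ≤ Ideal.absNorm P) := by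
  haveI hmax : P.IsMaximal := hP.isMaximal hb
  letI : Field (𝓞 L ⧸ P) := Ideal.Quotient.field P
  haveI : Finite (𝓞 L ⧸ P) := Ideal.finiteQuotientOfFreeOfNeBot P hb
  letI : Fintype (𝓞 L ⧸ P) := Fintype.ofFinite _
  obtain ⟨p, hp⟩ := CharP.exists (𝓞 L ⧸ P)
  haveI := hp
  obtain ⟨n, hpp, hn⟩ := FiniteField.card (𝓞 L ⧸ P) p
  have hN : Ideal.absNorm P = p ^ (n : ℕ) := by
    rw [← hn, Ideal.absNorm_apply, Submodule.cardQuot_apply, Nat.card_eq_fintype_card]
  refine ⟨p, hpp, ?_, ?_⟩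
  · rw [← Ideal.Quotient.eq_zero_iff_mem, map_natCast]
    exact CharP.cast_eq_zero _ p
  · rcases Nat.lt_or_ge 1 (n : ℕ) with h | h
    · right
      rw [hN]
      exact Nat.pow_le_pow_right hpp.pos h
    · left
      have h1 : (n : ℕ) = 1 := le_antisymm h n.pos
      rw [hN, h1, pow_one]

theorem ptsplit_term (L : Type) [Field L] [NumberField L] (S : Set ℕ) (B2 : ℕ)
    (hS : ∀ p : ℕ, p.Prime → ¬ p ∣ B2 → (∃ P : Ideal (𝓞 L), P.IsPrime ∧ Ideal.absNorm P = p) → p ∈ S)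
    (s : ℝ) (hs : 1 < s) (P : Ideal (𝓞 L)) (hP : P.IsPrime) (p : ℕ) (hp : p.Prime)
    (h : Ideal.absNorm P = p ∨ p ^ 2 ≤ Ideal.absNorm P) :
    ((Ideal.absNorm P : ℕ) : ℝ) ^ (-s) ≤
      ind S p * (p : ℝ) ^ (-s) + (if p ∣ B2 then 1 else 0) + 1 / (p : ℝ) ^ 2 := by
  have hp1 : (1 : ℝ) ≤ p := by exact_mod_cast hp.one_lt.le
  have hp0 : (0 : ℝ) < p := by linarith
  have h0 : 0 ≤ (p : ℝ) ^ (-s) := Real.rpow_nonneg hp0.le _
  have h2 : 0 ≤ 1 / (p : ℝ) ^ 2 := by positivity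
  have hind : 0 ≤ ind S p := by
    unfold ind
    split_ifs <;> norm_num
  rcases h with h | h
  · rw [h]
    by_cases hB : p ∣ B2
    · rw [if_pos hB]
      have h3 : (p : ℝ) ^ (-s) ≤ 1 := Real.rpow_le_one_of_one_le_of_nonpos hp1 (by linarith)
      have h4 : 0 ≤ ind S p * (p : ℝ) ^ (-s) := mul_nonneg hind h0
      linarith
    · have h3 : p ∈ S := hS p hp hB ⟨P, hP, h⟩
      have h4 : ind S p = 1 := by
        unfold ind
        rw [if_pos h3]
      rw [if_neg hB, h4]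
      linarith
  · have hN1 : ((p : ℝ)) ^ 2 ≤ ((Ideal.absNorm P : ℕ) : ℝ) := by exact_mod_cast h
    have hN0 : (0 : ℝ) < ((Ideal.absNorm P : ℕ) : ℝ) := lt_of_lt_of_le (by positivity) hN1
    have hN2 : (1 : ℝ) ≤ ((Ideal.absNorm P : ℕ) : ℝ) := le_trans (one_le_pow₀ hp1) hN1
    have h3 : ((Ideal.absNorm P : ℕ) : ℝ) ^ (-s) ≤ ((Ideal.absNorm P : ℕ) : ℝ) ^ (-1 : ℝ) :=
      Real.rpow_le_rpow_of_exponent_le hN2 (by linarith)
    have h4 : ((Ideal.absNorm P : ℕ) : ℝ) ^ (-1 : ℝ) ≤ 1 / (p : ℝ) ^ 2 := by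
      rw [Real.rpow_neg_one, one_div]
      exact inv_anti₀ (by positivity) hN1
    have h5 : 0 ≤ ind S p * (p : ℝ) ^ (-s) := mul_nonneg hind h0
    have h6 : (0 : ℝ) ≤ if p ∣ B2 then 1 else 0 := by split_ifs <;> norm_num
    linarith

theorem split_set {ι : Type} [Fintype ι] (G : ι → ℤ[X]) (hG : ∀ i, Irreducible ((G i).map (Int.castRingHom ℚ))) :
    ∃ (S : Set ℕ) (n : ℕ), Spl G S n := by
  classical
  obtain ⟨L, iF, iN, n, B2, hn1, hn, hB2, hgal⟩ := gal_primes G hG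
  set S : Set ℕ := {p | p.Prime ∧ ¬ p ∣ B2 ∧ ∃ P : Ideal (𝓞 L), P.IsPrime ∧ Ideal.absNorm P = p} with hS
  have hn0 : (0 : ℝ) < n := by exact_mod_cast hn1
  have hinv : (0 : ℝ) ≤ 1 / n := by positivity
  have hind0 : ∀ p, 0 ≤ ind S p := by
    intro p
    unfold ind
    split_ifs <;> norm_num
  have hind1 : ∀ p, ind S p ≤ 1 := by
    intro p
    unfold ind
    split_ifs <;> norm_num
  have hSmem : ∀ p : ℕ, p.Prime → ¬ p ∣ B2 → (∃ P : Ideal (𝓞 L), P.IsPrime ∧ Ideal.absNorm P = p) → p ∈ S :=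
    fun p h1 h2 h3 => ⟨h1, h2, h3⟩
  refine ⟨S, n, hn1, fun p hp => hp.1, fun p hp i => (hgal p hp.1 hp.2.1 hp.2.2).2 i, ?_, ?_⟩
  · obtain ⟨C, hC⟩ := zeta_upper L
    refine conv_upper (ind S) 1 (1 / n) (C / n) (fun p _ => hind0 p) (fun p _ => hind1 p) hinv ?_
    intro s T hs1 hs2 hT
    have hex : ∀ p : ℕ, ∃ E : Finset (Ideal (𝓞 L)), p ∈ S → E.card = n ∧ ∀ P ∈ E, P.IsPrime ∧ Ideal.absNorm P = p := by
      intro p
      by_cases hp : p ∈ S
      · obtain ⟨E, hE⟩ := (hgal p hp.1 hp.2.1 hp.2.2).1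
        exact ⟨E, fun _ => hE⟩
      · exact ⟨∅, fun h => absurd h hp⟩
    choose E hE using hex
    have hdis : ∀ p ∈ T.filter (· ∈ S), ∀ p' ∈ T.filter (· ∈ S), p ≠ p' → Disjoint (E p) (E p') := by
      intro p hp p' hp' hne
      rw [Finset.mem_filter] at hp hp'
      rw [Finset.disjoint_left]
      intro P h1 h2
      have h3 := ((hE p hp.2).2 P h1).2
      have h4 := ((hE p' hp'.2).2 P h2).2
      exact hne (h3.symm.trans h4)
    have h1 := hC s ((T.filter (· ∈ S)).biUnion E) hs1 hs2 (by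
      intro P hP
      rw [Finset.mem_biUnion] at hP
      obtain ⟨p, hp, hPp⟩ := hP
      rw [Finset.mem_filter] at hp
      have h2 := (hE p hp.2).2 P hPp
      refine ⟨h2.1, ?_⟩
      rintro rfl
      have h3 := h2.2
      rw [Ideal.absNorm_bot] at h3
      exact (hT p hp.1).ne_zero h3.symm)
    rw [Finset.sum_biUnion hdis] at h1
    have h2 : ∑ p ∈ T.filter (· ∈ S), ∑ P ∈ E p, ((Ideal.absNorm P : ℕ) : ℝ) ^ (-s) =
        n * ∑ p ∈ T, ind S p * (p : ℝ) ^ (-s) := by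
      have h3 : ∀ p ∈ T.filter (· ∈ S), ∑ P ∈ E p, ((Ideal.absNorm P : ℕ) : ℝ) ^ (-s) = n * (p : ℝ) ^ (-s) := by
        intro p hp
        rw [Finset.mem_filter] at hp
        rw [Finset.sum_congr rfl (g := fun _ => (p : ℝ) ^ (-s)) (fun P hP => by rw [((hE p hp.2).2 P hP).2]),
          Finset.sum_const, (hE p hp.2).1, nsmul_eq_mul]
      rw [Finset.sum_congr rfl h3, Finset.sum_filter, Finset.mul_sum]
      refine Finset.sum_congr rfl fun p _ => ?_
      unfold ind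
      split_ifs
      · rw [one_mul]
      · rw [zero_mul, mul_zero]
    rw [h2] at h1
    have h4 : ∑ p ∈ T, ind S p * (p : ℝ) ^ (-s) ≤ (Real.log (1 / (s - 1)) + C) / n := by
      rw [le_div_iff₀ hn0]
      linarith
    refine h4.trans (le_of_eq ?_)
    ring
  · obtain ⟨C, hC⟩ := zeta_lower L
    set C2 : ℝ := ∑' k : ℕ, 1 / (k : ℝ) ^ 2 with hC2
    refine conv_lower (ind S) 1 (1 / n) (C / n + B2 + C2) (fun p _ => hind0 p) (fun p _ => hind1 p) hinv ?_
    intro s hs1 hs2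
    obtain ⟨E, hE, hsum⟩ := hC s hs1 hs2
    have hex : ∀ P : Ideal (𝓞 L), ∃ p : ℕ, P ∈ E →
        (p.Prime ∧ (p : 𝓞 L) ∈ P ∧ (Ideal.absNorm P = p ∨ p ^ 2 ≤ Ideal.absNorm P)) := by
      intro P
      by_cases hP : P ∈ E
      · obtain ⟨p, hp⟩ := ptsplit_char L P (hE P hP).1 (hE P hP).2
        exact ⟨p, fun _ => hp⟩
      · exact ⟨0, fun h => absurd h hP⟩
    choose q hq using hex
    refine ⟨E.image q, ?_, ?_⟩
    · intro p hp
      rw [Finset.mem_image] at hp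
      obtain ⟨P, hP, rfl⟩ := hp
      exact (hq P hP).1
    · set g : ℕ → ℝ := fun p => ind S p * (p : ℝ) ^ (-s) + (if p ∣ B2 then 1 else 0) + 1 / (p : ℝ) ^ 2 with hg
      have hg0 : ∀ p, 0 ≤ g p := by
        intro p
        have h6 : (0 : ℝ) ≤ if p ∣ B2 then 1 else 0 := by split_ifs <;> norm_num
        have h7 : 0 ≤ ind S p * (p : ℝ) ^ (-s) := mul_nonneg (hind0 p) (Real.rpow_nonneg (Nat.cast_nonneg _) _)
        have h8 : (0 : ℝ) ≤ 1 / (p : ℝ) ^ 2 := by positivity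
        show 0 ≤ ind S p * (p : ℝ) ^ (-s) + (if p ∣ B2 then 1 else 0) + 1 / (p : ℝ) ^ 2
        linarith
      have h1 : ∑ P ∈ E, ((Ideal.absNorm P : ℕ) : ℝ) ^ (-s) ≤ ∑ P ∈ E, g (q P) :=
        Finset.sum_le_sum fun P hP =>
          ptsplit_term L S B2 hSmem s hs1 P (hE P hP).1 (q P) (hq P hP).1 (hq P hP).2.2
      have h2 : ∑ P ∈ E, g (q P) ≤ n * ∑ p ∈ E.image q, g p := by
        rw [Finset.sum_comp g q, Finset.mul_sum]
        refine Finset.sum_le_sum fun p hp => ?_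
        rw [nsmul_eq_mul]
        refine mul_le_mul_of_nonneg_right ?_ (hg0 p)
        rw [Finset.mem_image] at hp
        obtain ⟨P0, hP0, rfl⟩ := hp
        have h3 := primes_above_le L (q P0) (hq P0 hP0).1 (E.filter (fun P => q P = q P0)) (by
          intro P hP
          rw [Finset.mem_filter] at hP
          refine ⟨(hE P hP.1).1, ?_⟩
          rw [← hP.2]
          exact (hq P hP.1).2.1)
        rw [← hn] at h3
        exact_mod_cast h3
      have h3 : ∑ p ∈ E.image q, g p = ∑ p ∈ E.image q, ind S p * (p : ℝ) ^ (-s)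
          + ∑ p ∈ E.image q, (if p ∣ B2 then 1 else 0) + ∑ p ∈ E.image q, 1 / (p : ℝ) ^ 2 := by
        rw [← Finset.sum_add_distrib, ← Finset.sum_add_distrib]
      have h4 : ∑ p ∈ E.image q, (if p ∣ B2 then (1 : ℝ) else 0) ≤ B2 := by
        rw [← Finset.sum_filter, Finset.sum_const, nsmul_eq_mul, mul_one]
        have h5 : (E.image q).filter (· ∣ B2) ⊆ B2.divisors := by
          intro p hp
          rw [Finset.mem_filter] at hp
          exact Nat.mem_divisors.2 ⟨hp.2, hB2⟩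
        have h6 := (Finset.card_le_card h5).trans (Nat.card_divisors_le_self B2)
        exact_mod_cast h6
      have h5 : ∑ p ∈ E.image q, 1 / (p : ℝ) ^ 2 ≤ C2 :=
        (Real.summable_one_div_nat_pow.2 (by norm_num)).sum_le_tsum _ (fun k _ => by positivity)
      have h6 : Real.log (1 / (s - 1)) - C ≤
          n * (∑ p ∈ E.image q, ind S p * (p : ℝ) ^ (-s) + B2 + C2) := by
        refine (hsum.trans (h1.trans h2)).trans ?_
        refine mul_le_mul_of_nonneg_left ?_ hn0.le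
        rw [h3]
        linarith
      have h7 : (Real.log (1 / (s - 1)) - C) / n ≤
          ∑ p ∈ E.image q, ind S p * (p : ℝ) ^ (-s) + B2 + C2 := by
        rw [div_le_iff₀ hn0]
        linarith
      have h8 : (Real.log (1 / (s - 1)) - C) / n = 1 / n * Real.log (1 / (s - 1)) - C / n := by ring
      rw [h8] at h7
      linarith

end PT
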