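import Mathlib
import Pool.Agent.Lib.MP_10e784_ag.QDefs

/-!
MP_10e784_ag, hand-in PointlessTwists: quadratic twists of hyperelliptic curves without rational Weierstrass points.
Definitions shared by all files.  (Everything analytic about `QT.pf`, `QT.Box`, `QT.Sys` is in the `Q...` files.)
-/

namespace PT

open Polynomial Finset

/-- the number of roots of `G` modulo `p` -/
noncomputable def rt (G : ℤ[X]) (p : ℕ) : ℕ :=
  Nat.card {ρ : ZMod p // (G.map (Int.castRingHom (ZMod p))).eval ρ = 0}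

/-- the homogenised value `b ^ deg G * G (a / b)` -/
noncomputable def hom (G : ℤ[X]) (a b : ℤ) : ℤ :=
  ∑ k ∈ range (G.natDegree + 1), G.coeff k * a ^ k * b ^ (G.natDegree - k)

/-- a family of pairwise coprime integral polynomials of degree at least two, irreducible over `ℚ` -/
structure Fam {ι : Type} (G : ι → ℤ[X]) : Prop where
  irr : ∀ i, Irreducible ((G i).map (Int.castRingHom ℚ))
  cop : ∀ i j, i ≠ j → IsCoprime ((G i).map (Int.castRingHom ℚ)) ((G j).map (Int.castRingHom ℚ))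
  deg : ∀ i, 2 ≤ (G i).natDegree

/-- the primes not dividing `B` are good for the family -/
structure Bad {ι : Type} (G : ι → ℤ[X]) (B : ℕ) : Prop where
  ne : B ≠ 0
  two : 2 ∣ B
  lead : ∀ p : ℕ, p.Prime → ¬ p ∣ B → ∀ i, ¬ (p : ℤ) ∣ (G i).leadingCoeff
  sep : ∀ p : ℕ, p.Prime → ¬ p ∣ B → ∀ i j, i ≠ j → ∀ r : ℤ, (p : ℤ) ∣ (G i).eval r → ¬ (p : ℤ) ∣ (G j).eval r

/-- the local condition at `p` for the index `i`: `y j` plays the role of the Legendre symbol of `e j` modulo `p` -/
def AA {ι : Type} (G : ι → ℤ[X]) (s : ι → ℤ) (B : ℕ) (p : ℕ) (i : ι) (y : ι → ℤ) : Prop :=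
  ¬ p ∣ B ∧ ∃ r t : ℤ, (p : ℤ) ∣ (G i).eval r ∧ (t = 1 ∨ t = -1) ∧
    ∀ j, j ≠ i → jacobiSym (s j) p * y j = t ^ (G j).natDegree * jacobiSym ((G j).eval r) p

/-- the local conditions for a vector `e` -/
def PLoc {ι : Type} (A : ℕ → ι → (ι → ℤ) → Prop) (e : ι → ℕ) : Prop :=
  ∀ i, ∀ p : ℕ, p.Prime → p ∣ e i → A p i (fun j => jacobiSym (e j) p)

open Classical in
/-- the number of sign vectors on `I \ {i}` which, together with the frozen signs `y` outside `I`, satisfy `A p i` -/
noncomputable def sl {ι : Type} (A : ℕ → ι → (ι → ℤ) → Prop) (I : Finset ι) (p : ℕ) (i : ι) (y : ι → ℤ) : ℕ :=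
  ((I.erase i).powerset.filter fun T => A p i fun j => if j ∈ I then (if j ∈ T then -1 else 1) else y j).card

/-- sums over primes -/
noncomputable def PS (a : ℕ → ℝ) (x : ℝ) : ℝ := ∑ p ∈ (Icc 1 ⌊x⌋₊).filter Nat.Prime, a p / p

open Classical in
/-- the factor `κ(I)`: two if there are indices of odd degree and all of them are in `I`, one otherwise -/
noncomputable def kap {ι : Type} (G : ι → ℤ[X]) (I : Finset ι) : ℝ :=
  if (∃ k, Odd (G k).natDegree) ∧ ∀ k, Odd (G k).natDegree → k ∈ I then 2 else 1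

open Classical in
/-- the weight: `9 / 10` on the set `S` of (totally split) primes -/
noncomputable def ww (S : Set ℕ) (p : ℕ) : ℝ := if p ∈ S then 9 / 10 else 1

/-- the majorant for the set `I` of large coordinates -/
noncomputable def FI {ι : Type} (G : ι → ℤ[X]) (S : Set ℕ) (I : Finset ι) (p : ℕ) : ℝ :=
  ww S p * ∑ i ∈ I, min 1 (kap G I * rt (G i) p / 2 ^ (I.card - 1))

open Classical in
/-- the indicator function of `S` -/
noncomputable def ind (S : Set ℕ) (p : ℕ) : ℝ := if p ∈ S then 1 else 0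

/-- a set of primes behaving like the set of primes that split completely in a number field of degree `n` -/
structure Spl {ι : Type} (G : ι → ℤ[X]) (S : Set ℕ) (n : ℕ) : Prop where
  npos : 1 ≤ n
  prime : ∀ p ∈ S, p.Prime
  split : ∀ p ∈ S, ∀ i, rt (G i) p = (G i).natDegree
  upper : ∃ C : ℝ, ∀ x : ℝ, 2 ≤ x → PS (ind S) x ≤ (1 / n : ℝ) * Real.log (Real.log x) + C
  lower : ∃ C : ℝ, ∀ x : ℝ, 2 ≤ x → (1 / n : ℝ) * Real.log (Real.log x) - C ≤ PS (ind S) x

end PT
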