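import Pool.Agent.Lib.MP_10e784_ag.PT.PTDefs

/-! JOB PTRoot.  Roots modulo `p` and prime ideals of norm `p`.

`K = ℚ(θ)`, `θ` a root of the irreducible polynomial `G` (over `ℚ`), e.g. `K = AdjoinRoot (G.map (Int.castRingHom ℚ))` (a field by `Fact (Irreducible _)`, a number field: finite dimensional over `ℚ`, characteristic zero).
Let `c = G.leadingCoeff ≠ 0`, `d = G.natDegree`; `θ' = c θ` is integral over `ℤ` (`IsIntegral` of `leadingCoeff • root`: `RingOfIntegers`; see `Polynomial.scaleRoots`, `integralNormalization`, or `isIntegral_leadingCoeff_smul`), so `θ' ∈ 𝓞 K`.  `K = ℚ(θ')` and `𝓞 K` is a finitely generated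
`ℤ`-module, so there is `m ≠ 0` with `m x ∈ ℤ[θ']` for all `x ∈ 𝓞 K` (compare the first private lemmas in `Pool/Agent/Lib/MP_021685_agT/GB1.lean`).  Put `B1 = |c m|`.
Let `p ∤ B1` and let `ρ` be a root of `G` in `ZMod p`.  Then `c ρ` is a root modulo `p` of the minimal polynomial `g` of `θ'` over `ℤ` (`g = integralNormalization G` up to sign: monic of degree `d`, `g(c X) = c ^ (d-1) G(X)`; it is irreducible over `ℚ` of the right degree, hence
`minpoly ℤ θ'`), so there is a ring homomorphism `φ : ℤ[θ'] → ZMod p`, `θ' ↦ c ρ` (`minpoly.equivAdjoin`, `AdjoinRoot.lift`), and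
`ψ(x) = φ(m x) / m` is a ring homomorphism `𝓞 K → ZMod p` (multiplicative: `φ(m x) φ(m y) = φ(m * (m x y)) = m φ(m x y)`), surjective because the characteristic map `ℤ → ZMod p` is.  Its kernel `P_ρ` is a prime ideal with `𝓞 K ⧸ P_ρ ≃ ZMod p`, so
`Ideal.absNorm P_ρ = p` (`Ideal.absNorm_apply`, `Submodule.cardQuot_apply`, `Nat.card_zmod`), and `ρ ↦ P_ρ` is injective: `θ' - r ∈ P_ρ` for an integer `r ≡ c ρ`, so `P_ρ = P_ρ'` gives `c ρ = c ρ'`, `ρ = ρ'` (`c ≠ 0` modulo `p`).
Alternative: Kummer-Dedekind in Mathlib (`Mathlib/NumberTheory/NumberField/Ideal/KummerDedekind.lean`, `primesOverSpanEquivMonicFactorsMod` and the statement on `inertiaDeg`).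
The finite set of roots: `rt G p` is the `Nat.card` of a finite type (`ZMod p` is finite). -/

namespace PT

open NumberField Finset Polynomial

private lemma ptroot_clear {K : Type*} [Field K] [CharZero K] (S : Set K) (x : K)
    (hx : x ∈ Algebra.adjoin ℚ S) :
    ∃ N : ℕ, N ≠ 0 ∧ (N : K) * x ∈ Algebra.adjoin ℤ S := by
  induction hx using Algebra.adjoin_induction with
  | mem x hx => exact ⟨1, one_ne_zero, by simpa using Algebra.subset_adjoin hx⟩
  | algebraMap q =>
    refine ⟨q.den, q.den_ne_zero, ?_⟩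
    have h : ((q.den : ℕ) : K) * algebraMap ℚ K q = algebraMap ℤ K q.num := by
      have h1 : ((q.den : ℚ)) * q = q.num := by
        rw [mul_comm]; exact Rat.mul_den_eq_num q
      have h2 := congrArg (algebraMap ℚ K) h1
      rw [map_mul, map_natCast, map_intCast] at h2
      rw [h2, eq_intCast]
    rw [h]
    exact Subalgebra.algebraMap_mem _ _
  | add x y _ _ hx hy =>
    obtain ⟨a, ha, hx⟩ := hx
    obtain ⟨b, hb, hy⟩ := hy
    refine ⟨a * b, mul_ne_zero ha hb, ?_⟩
    have : ((a * b : ℕ) : K) * (x + y) = (b : K) * ((a : K) * x) + (a : K) * ((b : K) * y) := by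
      push_cast; ring
    rw [this]
    exact add_mem (mul_mem (natCast_mem _ _) hx) (mul_mem (natCast_mem _ _) hy)
  | mul x y _ _ hx hy =>
    obtain ⟨a, ha, hx⟩ := hx
    obtain ⟨b, hb, hy⟩ := hy
    refine ⟨a * b, mul_ne_zero ha hb, ?_⟩
    have : ((a * b : ℕ) : K) * (x * y) = ((a : K) * x) * ((b : K) * y) := by
      push_cast; ring
    rw [this]
    exact mul_mem hx hy

private lemma ptroot_clearO {K : Type*} [Field K] [NumberField K] (t : 𝓞 K)
    (hgen : Algebra.adjoin ℚ {(t : K)} = ⊤) (x : 𝓞 K) :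
    ∃ N : ℕ, N ≠ 0 ∧ (N : 𝓞 K) * x ∈ Algebra.adjoin ℤ {t} := by
  have h1 : (x : K) ∈ Algebra.adjoin ℚ {(t : K)} := by
    rw [hgen]; trivial
  obtain ⟨N, hN, h⟩ := ptroot_clear _ _ h1
  refine ⟨N, hN, ?_⟩
  have h3 : Algebra.adjoin ℤ {(t : K)}
      = (Algebra.adjoin ℤ {t}).map (IsScalarTower.toAlgHom ℤ (𝓞 K) K) := by
    rw [AlgHom.map_adjoin, Set.image_singleton]
    rfl
  rw [h3, Subalgebra.mem_map] at h
  obtain ⟨y, hy, hy2⟩ := h
  have : y = (N : 𝓞 K) * x := by
    apply RingOfIntegers.coe_injective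
    have h5 : (algebraMap (𝓞 K) K) y = ↑N * ↑x := hy2
    rw [h5, map_mul, map_natCast]
  rwa [← this]

private lemma ptroot_exists {K : Type*} [Field K] [NumberField K] (t : 𝓞 K)
    (hgen : Algebra.adjoin ℚ {(t : K)} = ⊤) :
    ∃ N : ℕ, N ≠ 0 ∧ ∀ x : 𝓞 K, (N : 𝓞 K) * x ∈ Algebra.adjoin ℤ {t} := by
  choose N hN h using ptroot_clearO t hgen
  let b := RingOfIntegers.basis K
  refine ⟨∏ i, N (b i), Finset.prod_ne_zero_iff.mpr (fun i _ => hN _), fun x => ?_⟩
  have h1 : ∀ i, ((∏ i, N (b i) : ℕ) : 𝓞 K) * b i ∈ Algebra.adjoin ℤ {t} := by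
    intro i
    rw [← Finset.prod_erase_mul _ _ (Finset.mem_univ i)]
    push_cast
    rw [mul_assoc]
    exact mul_mem (prod_mem fun j _ => natCast_mem _ _) (h _)
  rw [← b.sum_repr x, Finset.mul_sum]
  refine sum_mem fun i _ => ?_
  rw [mul_smul_comm]
  exact zsmul_mem (h1 i) _

private lemma ptroot_lift {A B F : Type*} [CommRing A] [CommRing B] [Field F] (π : A →+* B) (φ : A →+* F) (m : ℕ)
    (hm : (m : F) ≠ 0) (hk : ∀ a, π a = 0 → φ a = 0) (hs : ∀ x : B, ∃ a, π a = m * x) :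
    ∃ ψ : B →+* F, ∀ a, ψ (π a) = φ a := by
  choose s hs using hs
  have wd : ∀ a x, π a = m * x → φ a = φ (s x) := by
    intro a x h
    have h1 : π (a - s x) = 0 := by rw [map_sub, h, hs, sub_self]
    have h2 := hk _ h1
    rw [map_sub] at h2
    exact sub_eq_zero.1 h2
  refine ⟨{ toFun := fun x => φ (s x) / m, map_one' := ?_, map_mul' := ?_, map_zero' := ?_, map_add' := ?_ }, ?_⟩
  · rw [← wd (m : A) 1 (by simp), map_natCast]
    exact div_self hm
  · intro x y
    have h1 : φ (s x * s y) = φ (m * s (x * y)) := by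
      have h2 : π (s x * s y - m * s (x * y)) = 0 := by
        rw [map_sub, map_mul, map_mul, hs, hs, hs, map_natCast]; ring
      have h3 := hk _ h2
      rw [map_sub] at h3
      exact sub_eq_zero.1 h3
    rw [map_mul, map_mul, map_natCast] at h1
    rw [div_mul_div_comm, h1, mul_div_mul_left _ _ hm]
  · rw [← wd 0 0 (by simp)]; simp
  · intro x y
    rw [← wd (s x + s y) (x + y) (by rw [map_add, hs, hs]; ring), map_add, add_div]
  · intro a
    change φ (s (π a)) / m = φ a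
    rw [← wd (m * a) (π a) (by rw [map_mul, map_natCast]), map_mul, map_natCast]
    field_simp

theorem root_primes (G : ℤ[X]) (hirr : Irreducible (G.map (Int.castRingHom ℚ))) :
    ∃ (K : Type) (_ : Field K) (_ : NumberField K) (B1 : ℕ), B1 ≠ 0 ∧ ∀ p : ℕ, p.Prime → ¬ p ∣ B1 →
      ∃ E : Finset (Ideal (𝓞 K)), E.card = rt G p ∧ ∀ P ∈ E, P.IsPrime ∧ Ideal.absNorm P = p := by
  classical
  haveI hfact : Fact (Irreducible (G.map (Int.castRingHom ℚ))) := ⟨hirr⟩
  have hG0 : G ≠ 0 := by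
    rintro rfl
    exact hirr.ne_zero (by simp)
  set c : ℤ := G.leadingCoeff with hcdef
  have hc : c ≠ 0 := leadingCoeff_ne_zero.2 hG0
  have hmk : ∀ q : ℤ[X], aeval (AdjoinRoot.root (G.map (Int.castRingHom ℚ))) q =
      AdjoinRoot.mk (G.map (Int.castRingHom ℚ)) (q.map (Int.castRingHom ℚ)) := by
    intro q
    rw [← AdjoinRoot.aeval_eq]
    exact (aeval_map_algebraMap ℚ (AdjoinRoot.root (G.map (Int.castRingHom ℚ))) q).symm
  have hroot : aeval (AdjoinRoot.root (G.map (Int.castRingHom ℚ))) G = 0 := by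
    rw [hmk, AdjoinRoot.mk_self]
  have hint : IsIntegral ℤ (c • AdjoinRoot.root (G.map (Int.castRingHom ℚ))) :=
    isIntegral_leadingCoeff_smul _ _ hroot
  obtain ⟨t, ht⟩ : ∃ t : 𝓞 (AdjoinRoot (G.map (Int.castRingHom ℚ))),
      (t : AdjoinRoot (G.map (Int.castRingHom ℚ))) = c • AdjoinRoot.root (G.map (Int.castRingHom ℚ)) :=
    ⟨⟨_, hint⟩, rfl⟩
  have hgen : Algebra.adjoin ℚ {(t : AdjoinRoot (G.map (Int.castRingHom ℚ)))} = ⊤ := by
    have hconst : ∀ a : ℚ, AdjoinRoot.of (G.map (Int.castRingHom ℚ)) a ∈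
        Algebra.adjoin ℚ {(t : AdjoinRoot (G.map (Int.castRingHom ℚ)))} := by
      intro a
      have h1 : AdjoinRoot.of (G.map (Int.castRingHom ℚ)) a =
          algebraMap ℚ (AdjoinRoot (G.map (Int.castRingHom ℚ))) a :=
        (eq_ratCast (AdjoinRoot.of (G.map (Int.castRingHom ℚ))) a).trans
          (eq_ratCast (algebraMap ℚ (AdjoinRoot (G.map (Int.castRingHom ℚ)))) a).symm
      rw [h1]
      exact Subalgebra.algebraMap_mem _ _
    have hrt : AdjoinRoot.root (G.map (Int.castRingHom ℚ)) ∈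
        Algebra.adjoin ℚ {(t : AdjoinRoot (G.map (Int.castRingHom ℚ)))} := by
      have h1 : AdjoinRoot.root (G.map (Int.castRingHom ℚ)) =
          AdjoinRoot.of (G.map (Int.castRingHom ℚ)) ((c : ℚ)⁻¹) *
            (t : AdjoinRoot (G.map (Int.castRingHom ℚ))) := by
        rw [ht, zsmul_eq_mul, ← mul_assoc, map_inv₀, map_intCast, inv_mul_cancel₀, one_mul]
        exact_mod_cast hc
      rw [h1]
      exact mul_mem (hconst _) (Algebra.subset_adjoin rfl)
    rw [eq_top_iff]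
    intro x _
    obtain ⟨q, rfl⟩ := AdjoinRoot.mk_surjective x
    induction q using Polynomial.induction_on with
    | C a => exact hconst a
    | add q₁ q₂ h₁ h₂ => rw [map_add]; exact add_mem (h₁ trivial) (h₂ trivial)
    | monomial n a _ =>
      rw [map_mul, map_pow]
      exact mul_mem (hconst a) (pow_mem hrt _)
  obtain ⟨m, hm0, hm⟩ := ptroot_exists t hgen
  refine ⟨AdjoinRoot (G.map (Int.castRingHom ℚ)), inferInstance, inferInstance, c.natAbs * m,
    mul_ne_zero (Int.natAbs_ne_zero.2 hc) hm0, fun p hp hpB => ?_⟩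
  haveI : Fact p.Prime := ⟨hp⟩
  have hpc : ((c : ℤ) : ZMod p) ≠ 0 := by
    intro h
    rw [ZMod.intCast_zmod_eq_zero_iff_dvd] at h
    exact hpB (dvd_mul_of_dvd_left (Int.natCast_dvd.1 h) _)
  have hpm : ((m : ℕ) : ZMod p) ≠ 0 := by
    intro h
    rw [ZMod.natCast_eq_zero_iff] at h
    exact hpB (dvd_mul_of_dvd_right h _)
  -- the kernel
  have hker : ∀ ρ : ZMod p, (G.map (Int.castRingHom (ZMod p))).eval ρ = 0 → ∀ h : ℤ[X], aeval t h = 0 →
      eval₂RingHom (Int.castRingHom (ZMod p)) ((c : ZMod p) * ρ) h = 0 := by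
    intro ρ hρ h hh
    have h1 : aeval (c • AdjoinRoot.root (G.map (Int.castRingHom ℚ))) h = 0 := by
      rw [← ht, aeval_algebraMap_apply, hh, map_zero]
    have h2 : aeval (AdjoinRoot.root (G.map (Int.castRingHom ℚ))) (h.comp (C c * X)) = 0 := by
      rw [aeval_comp]
      have : aeval (AdjoinRoot.root (G.map (Int.castRingHom ℚ))) (C c * X) =
          c • AdjoinRoot.root (G.map (Int.castRingHom ℚ)) := by
        rw [map_mul, aeval_C, aeval_X, zsmul_eq_mul]
        rfl
      rw [this, h1]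
    rw [hmk, AdjoinRoot.mk_eq_zero] at h2
    have h3 : G.primPart ∣ h.comp (C c * X) := by
      rw [IsPrimitive.Int.dvd_iff_map_cast_dvd_map_cast _ _ G.isPrimitive_primPart]
      refine dvd_trans ?_ h2
      conv_rhs => rw [G.eq_C_content_mul_primPart]
      rw [Polynomial.map_mul]
      exact dvd_mul_left _ _
    have h4 : (G.primPart.map (Int.castRingHom (ZMod p))).eval ρ = 0 := by
      have h5 : ((G.content : ℤ) : ZMod p) ≠ 0 := by
        intro h6
        apply hpc
        obtain ⟨b, hb⟩ := G.content_dvd_coeff G.natDegree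
        have : c = G.content * b := hb
        rw [this, Int.cast_mul, h6, zero_mul]
      rw [G.eq_C_content_mul_primPart, Polynomial.map_mul, eval_mul, Polynomial.map_C, eval_C] at hρ
      exact (mul_eq_zero.1 hρ).resolve_left h5
    obtain ⟨q, hq⟩ := h3
    have h7 : (h.comp (C c * X)).eval₂ (Int.castRingHom (ZMod p)) ρ = 0 := by
      rw [hq, eval₂_mul, ← eval_map, h4, zero_mul]
    have h8 : (h.comp (C c * X)).eval₂ (Int.castRingHom (ZMod p)) ρ =
        h.eval₂ (Int.castRingHom (ZMod p)) ((c : ZMod p) * ρ) := by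
      rw [eval₂_comp, eval₂_mul, eval₂_C, eval₂_X]
      rfl
    rw [coe_eval₂RingHom, ← h8, h7]
  -- the homomorphisms
  have hex : ∀ ρ : {ρ : ZMod p // (G.map (Int.castRingHom (ZMod p))).eval ρ = 0},
      ∃ ψ : 𝓞 (AdjoinRoot (G.map (Int.castRingHom ℚ))) →+* ZMod p, ψ t = (c : ZMod p) * ρ.1 := by
    rintro ⟨ρ, hρ⟩
    obtain ⟨ψ, hψ⟩ := ptroot_lift (aeval t : ℤ[X] →ₐ[ℤ] 𝓞 (AdjoinRoot (G.map (Int.castRingHom ℚ)))).toRingHom
      (eval₂RingHom (Int.castRingHom (ZMod p)) ((c : ZMod p) * ρ)) m hpm (hker ρ hρ) (fun x => by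
        have := hm x
        rw [Algebra.adjoin_singleton_eq_range_aeval] at this
        exact this)
    refine ⟨ψ, ?_⟩
    have h1 := hψ X
    simpa using h1
  choose ψ hψ using hex
  have hsurj : ∀ ρ, Function.Surjective (ψ ρ) := fun ρ => ZMod.ringHom_surjective _
  haveI : Finite {ρ : ZMod p // (G.map (Int.castRingHom (ZMod p))).eval ρ = 0} := inferInstance
  haveI := Fintype.ofFinite {ρ : ZMod p // (G.map (Int.castRingHom (ZMod p))).eval ρ = 0}
  refine ⟨Finset.univ.image (fun ρ => RingHom.ker (ψ ρ)), ?_, ?_⟩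
  · rw [Finset.card_image_of_injective, Finset.card_univ, rt, Nat.card_eq_fintype_card]
    intro ρ ρ' h
    obtain ⟨r, hr⟩ := ZMod.intCast_surjective ((c : ZMod p) * ρ.1)
    have h1 : t - (r : 𝓞 (AdjoinRoot (G.map (Int.castRingHom ℚ)))) ∈ RingHom.ker (ψ ρ) := by
      rw [RingHom.mem_ker, map_sub, hψ, map_intCast, hr, sub_self]
    have h2 : t - (r : 𝓞 (AdjoinRoot (G.map (Int.castRingHom ℚ)))) ∈ RingHom.ker (ψ ρ') := by
      have h' : RingHom.ker (ψ ρ) = RingHom.ker (ψ ρ') := h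
      rw [← h']
      exact h1
    rw [RingHom.mem_ker, map_sub, hψ, map_intCast, hr] at h2
    have h3 : (c : ZMod p) * ρ'.1 = (c : ZMod p) * ρ.1 := sub_eq_zero.1 h2
    exact Subtype.ext (mul_left_cancel₀ hpc h3).symm
  · intro P hP
    obtain ⟨ρ, -, rfl⟩ := Finset.mem_image.1 hP
    refine ⟨RingHom.ker_isPrime (ψ ρ), ?_⟩
    rw [Ideal.absNorm_apply, Submodule.cardQuot_apply,
      Nat.card_congr (RingHom.quotientKerEquivOfSurjective (hsurj ρ)).toEquiv, Nat.card_zmod]

end PT
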