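import Pool.Agent.Lib.MP_10e784_ag.PT.PTConv
import Pool.Agent.Lib.MP_10e784_ag.PT.PTZetaU
import Pool.Agent.Lib.MP_10e784_ag.PT.PTRoot

/-! JOB PTRtSum.  The number of roots modulo `p` is at most one on average.

`rt_le`: for `p` prime not dividing the leading coefficient (`G ≠ 0` modulo `p`) there are at most `natDegree` roots (`Polynomial.card_roots'`); for `p ∣ leadingCoeff` there are at most `p` roots.  So `rt G p ≤ M := max natDegree |leadingCoeff|`... for all primes `p`.
`rt_sum`: apply `conv_upper` to `a p = rt G p`, `c = 1`.  For a finite set `T` of primes and `1 < s ≤ 2`: the primes `p ∣ B1` contribute at most `M B1` (`∑_{p ∣ B1} M p ^ (-s) ≤ M * B1`), and for `p ∤ B1` the term `rt G p * p ^ (-s)` is the sum of `N P ^ (-s)` over the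
`rt G p` prime ideals of norm `p` given by `root_primes`; these are different for different `p`, so `zeta_upper` bounds the whole sum by `log (1 / (s - 1)) + C`. -/

namespace PT

open NumberField Finset Polynomial

theorem rt_le (G : ℤ[X]) (hG : G ≠ 0) : ∃ M : ℕ, ∀ p : ℕ, p.Prime → rt G p ≤ M := by
  refine ⟨G.natDegree + G.leadingCoeff.natAbs, fun p hp => ?_⟩
  have : Fact p.Prime := ⟨hp⟩
  unfold rt
  by_cases hd : (p : ℤ) ∣ G.leadingCoeff
  · have h1 : Nat.card {ρ : ZMod p // (G.map (Int.castRingHom (ZMod p))).eval ρ = 0}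
        ≤ Nat.card (ZMod p) := Nat.card_le_card_of_injective _ Subtype.val_injective
    rw [Nat.card_zmod] at h1
    have h2 : p ≤ G.leadingCoeff.natAbs :=
      Nat.le_of_dvd (Int.natAbs_pos.mpr (leadingCoeff_ne_zero.mpr hG)) (Int.natCast_dvd.mp hd)
    omega
  · have hne : G.map (Int.castRingHom (ZMod p)) ≠ 0 := by
      intro h0
      apply hd
      have h3 := congrArg (fun q : (ZMod p)[X] => q.coeff G.natDegree) h0
      simp only [coeff_map, coeff_zero] at h3
      exact (ZMod.intCast_zmod_eq_zero_iff_dvd _ _).mp h3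
    classical
    have h1 : Nat.card {ρ : ZMod p // (G.map (Int.castRingHom (ZMod p))).eval ρ = 0}
        ≤ Nat.card {ρ : ZMod p // ρ ∈ (G.map (Int.castRingHom (ZMod p))).roots.toFinset} := by
      refine Nat.card_le_card_of_injective
        (fun ρ => ⟨ρ.1, ?_⟩) ?_
      · rw [Multiset.mem_toFinset, mem_roots hne]
        exact ρ.2
      · intro a b hab
        simp only [Subtype.mk.injEq] at hab
        exact Subtype.ext hab
    have h2 : Nat.card {ρ : ZMod p // ρ ∈ (G.map (Int.castRingHom (ZMod p))).roots.toFinset}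
        = (G.map (Int.castRingHom (ZMod p))).roots.toFinset.card := by
      rw [Nat.card_eq_fintype_card, Fintype.card_coe]
    have h4 : (G.map (Int.castRingHom (ZMod p))).roots.toFinset.card ≤ G.natDegree :=
      (Multiset.toFinset_card_le _).trans ((card_roots' _).trans natDegree_map_le)
    omega

theorem rt_sum (G : ℤ[X]) (hirr : Irreducible (G.map (Int.castRingHom ℚ))) :
    ∃ C : ℝ, ∀ x : ℝ, 2 ≤ x → PS (fun p => (rt G p : ℝ)) x ≤ Real.log (Real.log x) + C := by
  classical
  have hG : G ≠ 0 := by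
    intro h0
    rw [h0, Polynomial.map_zero] at hirr
    exact not_irreducible_zero hirr
  obtain ⟨M, hM⟩ := rt_le G hG
  obtain ⟨K, iF, iN, B1, hB1, hK⟩ := root_primes G hirr
  obtain ⟨C, hC⟩ := zeta_upper K
  have hex : ∀ p : ℕ, ∃ E : Finset (Ideal (𝓞 K)), p.Prime → ¬ p ∣ B1 →
      E.card = rt G p ∧ ∀ P ∈ E, P.IsPrime ∧ Ideal.absNorm P = p := by
    intro p
    by_cases h1 : p.Prime ∧ ¬ p ∣ B1
    · obtain ⟨E, hE⟩ := hK p h1.1 h1.2
      exact ⟨E, fun _ _ => hE⟩
    · exact ⟨∅, fun h2 h3 => absurd ⟨h2, h3⟩ h1⟩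
  choose E hE using hex
  have hmain : ∀ (s : ℝ) (T : Finset ℕ), 1 < s → s ≤ 2 → (∀ p ∈ T, p.Prime) →
      ∑ p ∈ T, (rt G p : ℝ) * (p : ℝ) ^ (-s)
        ≤ 1 * Real.log (1 / (s - 1)) + (C + (M : ℝ) * B1) := by
    intro s T hs1 hs2 hT
    rw [← Finset.sum_filter_add_sum_filter_not T (fun p => p ∣ B1)]
    have hA : ∑ p ∈ T.filter (fun p => p ∣ B1), (rt G p : ℝ) * (p : ℝ) ^ (-s)
        ≤ (M : ℝ) * B1 := by
      have h1 : ∀ p ∈ T.filter (fun p => p ∣ B1), (rt G p : ℝ) * (p : ℝ) ^ (-s) ≤ (M : ℝ) := by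
        intro p hp
        have hpp := hT p (Finset.mem_filter.mp hp).1
        have h2 : (rt G p : ℝ) ≤ M := by exact_mod_cast hM p hpp
        have h3 : (p : ℝ) ^ (-s) ≤ 1 :=
          Real.rpow_le_one_of_one_le_of_nonpos (by exact_mod_cast hpp.one_lt.le) (by linarith)
        have h4 : 0 ≤ (p : ℝ) ^ (-s) := Real.rpow_nonneg (by positivity) _
        calc (rt G p : ℝ) * (p : ℝ) ^ (-s) ≤ M * 1 :=
              mul_le_mul h2 h3 h4 (by positivity)
          _ = M := mul_one _
      have h5 : (T.filter (fun p => p ∣ B1)).card ≤ B1 := by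
        have h6 : T.filter (fun p => p ∣ B1) ⊆ Finset.Icc 1 B1 := by
          intro p hp
          rw [Finset.mem_filter] at hp
          rw [Finset.mem_Icc]
          exact ⟨(hT p hp.1).one_lt.le, Nat.le_of_dvd (Nat.pos_of_ne_zero hB1) hp.2⟩
        have h7 := Finset.card_le_card h6
        rwa [Nat.card_Icc, Nat.add_sub_cancel] at h7
      have h8 := Finset.sum_le_card_nsmul _ _ _ h1
      rw [nsmul_eq_mul] at h8
      have h9 : ((T.filter (fun p => p ∣ B1)).card : ℝ) ≤ B1 := by exact_mod_cast h5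
      calc ∑ p ∈ T.filter (fun p => p ∣ B1), (rt G p : ℝ) * (p : ℝ) ^ (-s)
          ≤ ((T.filter (fun p => p ∣ B1)).card : ℝ) * M := h8
        _ ≤ (B1 : ℝ) * M := mul_le_mul_of_nonneg_right h9 (by positivity)
        _ = (M : ℝ) * B1 := mul_comm _ _
    have hB : ∑ p ∈ T.filter (fun p => ¬ p ∣ B1), (rt G p : ℝ) * (p : ℝ) ^ (-s)
        ≤ Real.log (1 / (s - 1)) + C := by
      have hmem : ∀ p ∈ T.filter (fun p => ¬ p ∣ B1),
          (E p).card = rt G p ∧ ∀ P ∈ E p, P.IsPrime ∧ Ideal.absNorm P = p := by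
        intro p hp
        rw [Finset.mem_filter] at hp
        exact hE p (hT p hp.1) hp.2
      have h1 : ∑ p ∈ T.filter (fun p => ¬ p ∣ B1), (rt G p : ℝ) * (p : ℝ) ^ (-s)
          = ∑ P ∈ (T.filter (fun p => ¬ p ∣ B1)).biUnion E,
              ((Ideal.absNorm P : ℕ) : ℝ) ^ (-s) := by
        rw [Finset.sum_biUnion]
        · refine Finset.sum_congr rfl (fun p hp => ?_)
          obtain ⟨hc, hP⟩ := hmem p hp
          have h2 : ∀ P ∈ E p, ((Ideal.absNorm P : ℕ) : ℝ) ^ (-s) = (p : ℝ) ^ (-s) := by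
            intro P hPE
            rw [(hP P hPE).2]
          rw [Finset.sum_congr rfl h2, Finset.sum_const, hc, nsmul_eq_mul]
        · intro p hp q hq hpq
          rw [Function.onFun, Finset.disjoint_left]
          intro P hP1 hP2
          apply hpq
          rw [← ((hmem p hp).2 P hP1).2, ← ((hmem q hq).2 P hP2).2]
      rw [h1]
      refine hC s _ hs1 hs2 ?_
      intro P hP
      rw [Finset.mem_biUnion] at hP
      obtain ⟨p, hp, hPE⟩ := hP
      have h3 := (hmem p hp).2 P hPE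
      refine ⟨h3.1, ?_⟩
      intro h4
      have h5 := h3.2
      rw [h4, Ideal.absNorm_bot] at h5
      exact (hT p (Finset.mem_filter.mp hp).1).ne_zero h5.symm
    linarith
  obtain ⟨C', hC'⟩ := conv_upper (fun p => (rt G p : ℝ)) M 1 (C + (M : ℝ) * B1)
    (fun p _ => by positivity) (fun p hp => by exact_mod_cast hM p hp) zero_le_one hmain
  refine ⟨C', fun x hx => ?_⟩
  have h1 := hC' x hx
  rwa [one_mul] at h1

end PT
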