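import Pool.Agent.Lib.MP_10e784_ag.PT.PTDefs

/-! JOB PTBad.  Existence of a bad number, and facts about `hom`.

`bad_exists`: for `i ≠ j` there are `U, V ∈ ℤ[X]` and an integer `R i j ≠ 0` with `U * G i + V * G j = C (R i j)` (Bezout over `ℚ`: `Fam.cop`; clear denominators: `IsLocalization.integerNormalization` or multiply `U, V ∈ ℚ[X]` by a common denominator,
`IsLocalization.exist_integer_multiples`), so `p ∣ (G i).eval r`, `p ∣ (G j).eval r` imply `p ∣ R i j`.  Take `B = 2 * m * ∏ i, |leadingCoeff| * ∏_{i ≠ j} |R i j|` (`G i ≠ 0` since it is irreducible over `ℚ`).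
`bad_mono`: clear.
`hom_mod`: modulo `p` with `r b ≡ a`: `a ^ k b ^ (d - k) ≡ r ^ k b ^ d`, so `hom G a b ≡ b ^ d * G.eval r` (`Polynomial.eval_eq_sum_range`).
`hom_unit`: if `p ∣ b` then `p ∤ a` (coprime) and `hom G a b ≡ leadingCoeff * a ^ d` modulo `p` (all the terms with `k < d` are divisible by `b`), not divisible by `p` if `p ∤ leadingCoeff`. -/

namespace PT

open Finset Polynomial

theorem ptbad_bezout (P Q : ℤ[X])
    (h : IsCoprime (P.map (Int.castRingHom ℚ)) (Q.map (Int.castRingHom ℚ))) :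
    ∃ (U V : ℤ[X]) (R : ℤ), R ≠ 0 ∧ U * P + V * Q = C R := by
  obtain ⟨u, v, huv⟩ := h
  obtain ⟨bu, hbu', hu⟩ := IsLocalization.integerNormalization_spec (nonZeroDivisors ℤ) u
  obtain ⟨bv, hbv', hv⟩ := IsLocalization.integerNormalization_spec (nonZeroDivisors ℤ) v
  set Nu := IsLocalization.integerNormalization (nonZeroDivisors ℤ) u with hNu
  set Nv := IsLocalization.integerNormalization (nonZeroDivisors ℤ) v with hNv
  have hbu : (bu : ℤ) ≠ 0 := nonZeroDivisors.ne_zero hbu'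
  have hbv : (bv : ℤ) ≠ 0 := nonZeroDivisors.ne_zero hbv'
  have hu' : Nu.map (Int.castRingHom ℚ) = C ((bu : ℤ) : ℚ) * u := by
    rw [← Polynomial.smul_eq_C_mul]
    have : Int.castRingHom ℚ = algebraMap ℤ ℚ := rfl
    rw [this, hu]
    ext n
    simp
  have hv' : Nv.map (Int.castRingHom ℚ) = C ((bv : ℤ) : ℚ) * v := by
    rw [← Polynomial.smul_eq_C_mul]
    have : Int.castRingHom ℚ = algebraMap ℤ ℚ := rfl
    rw [this, hv]
    ext n
    simp
  refine ⟨C (bv : ℤ) * Nu, C (bu : ℤ) * Nv, (bu : ℤ) * bv, mul_ne_zero hbu hbv, ?_⟩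
  apply Polynomial.map_injective (Int.castRingHom ℚ) Int.cast_injective
  rw [Polynomial.map_add, Polynomial.map_mul, Polynomial.map_mul, Polynomial.map_mul,
    Polynomial.map_mul, hu', hv', Polynomial.map_C, Polynomial.map_C, Polynomial.map_C]
  simp only [eq_intCast, Int.cast_mul, C_mul]
  linear_combination (C ((bu : ℤ) : ℚ) * C ((bv : ℤ) : ℚ)) * huv

theorem bad_exists {ι : Type} [Fintype ι] [DecidableEq ι] (G : ι → ℤ[X]) (hG : Fam G) (m : ℕ) (hm : m ≠ 0) :
    ∃ B : ℕ, Bad G B ∧ m ∣ B := by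
  have hR : ∀ i j, ∃ R : ℤ, R ≠ 0 ∧ (i ≠ j → ∃ U V : ℤ[X], U * G i + V * G j = C R) := by
    intro i j
    by_cases hij : i = j
    · exact ⟨1, one_ne_zero, fun h => absurd hij h⟩
    · obtain ⟨U, V, R, h0, h⟩ := ptbad_bezout (G i) (G j) (hG.cop i j hij)
      exact ⟨R, h0, fun _ => ⟨U, V, h⟩⟩
  choose R hR0 hR using hR
  have hG0 : ∀ i, (G i).leadingCoeff ≠ 0 := by
    intro i h
    rw [Polynomial.leadingCoeff_eq_zero] at h
    have := (hG.irr i).ne_zero
    rw [h] at this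
    simp at this
  refine ⟨2 * m * (∏ i, (G i).leadingCoeff.natAbs) * ∏ i, ∏ j, (R i j).natAbs, ⟨?_, ?_, ?_, ?_⟩,
    ?_⟩
  · refine mul_ne_zero (mul_ne_zero (mul_ne_zero two_ne_zero hm) ?_) ?_
    · exact Finset.prod_ne_zero_iff.mpr fun i _ => Int.natAbs_ne_zero.mpr (hG0 i)
    · exact Finset.prod_ne_zero_iff.mpr fun i _ => Finset.prod_ne_zero_iff.mpr fun j _ =>
        Int.natAbs_ne_zero.mpr (hR0 i j)
  · rw [mul_assoc, mul_assoc]
    exact dvd_mul_right _ _
  · intro p hp hB i hi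
    apply hB
    have h1 : p ∣ (G i).leadingCoeff.natAbs := Int.natCast_dvd.mp hi
    have h2 : (G i).leadingCoeff.natAbs ∣ ∏ i, (G i).leadingCoeff.natAbs :=
      Finset.dvd_prod_of_mem _ (Finset.mem_univ i)
    exact Dvd.dvd.mul_right (Dvd.dvd.mul_left (h1.trans h2) _) _
  · intro p hp hB i j hij r hi hj
    apply hB
    obtain ⟨U, V, h⟩ := hR i j hij
    have h3 := congrArg (Polynomial.eval r) h
    rw [Polynomial.eval_add, Polynomial.eval_mul, Polynomial.eval_mul, Polynomial.eval_C] at h3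
    have h4 : (p : ℤ) ∣ R i j := by
      rw [← h3]
      exact dvd_add (Dvd.dvd.mul_left hi _) (Dvd.dvd.mul_left hj _)
    have h1 : p ∣ (R i j).natAbs := Int.natCast_dvd.mp h4
    have h2 : (R i j).natAbs ∣ ∏ i, ∏ j, (R i j).natAbs :=
      (Finset.dvd_prod_of_mem (fun j => (R i j).natAbs) (Finset.mem_univ j)).trans
        (Finset.dvd_prod_of_mem (fun i => ∏ j, (R i j).natAbs) (Finset.mem_univ i))
    exact Dvd.dvd.mul_left (h1.trans h2) _
  · exact Dvd.dvd.mul_right (Dvd.dvd.mul_right (dvd_mul_left _ _) _) _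

theorem hom_mod (G : ℤ[X]) (p : ℕ) (a b r : ℤ) (h : (p : ℤ) ∣ r * b - a) :
    (p : ℤ) ∣ hom G a b - b ^ G.natDegree * G.eval r := by
  unfold hom
  rw [Polynomial.eval_eq_sum_range, Finset.mul_sum, ← Finset.sum_sub_distrib]
  refine Finset.dvd_sum fun k hk => ?_
  have hk' : k ≤ G.natDegree := Nat.lt_succ_iff.mp (Finset.mem_range.mp hk)
  have e : G.coeff k * a ^ k * b ^ (G.natDegree - k) - b ^ G.natDegree * (G.coeff k * r ^ k) =
      (-(G.coeff k * b ^ (G.natDegree - k))) * ((r * b) ^ k - a ^ k) := by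
    have : b ^ G.natDegree = b ^ (G.natDegree - k) * b ^ k := by
      rw [← pow_add, Nat.sub_add_cancel hk']
    rw [this, mul_pow]
    ring
  rw [e]
  exact Dvd.dvd.mul_left (h.trans (sub_dvd_pow_sub_pow _ _ k)) _

theorem hom_unit (G : ℤ[X]) (p : ℕ) (hp : p.Prime) (a b : ℤ) (hab : IsCoprime a b) (hl : ¬ (p : ℤ) ∣ G.leadingCoeff)
    (hb : (p : ℤ) ∣ b) : ¬ (p : ℤ) ∣ hom G a b := by
  intro h
  unfold hom at h
  rw [Finset.sum_range_succ, Nat.sub_self, pow_zero, mul_one] at h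
  have h1 : (p : ℤ) ∣ ∑ k ∈ range G.natDegree, G.coeff k * a ^ k * b ^ (G.natDegree - k) := by
    refine Finset.dvd_sum fun k hk => ?_
    have hk' : G.natDegree - k ≠ 0 := Nat.sub_ne_zero_of_lt (Finset.mem_range.mp hk)
    exact Dvd.dvd.mul_left (dvd_pow hb hk') _
  have h2 := (dvd_add_right h1).mp h
  have hpz : Prime (p : ℤ) := Nat.prime_iff_prime_int.mp hp
  rcases hpz.dvd_or_dvd h2 with h3 | h3
  · exact hl h3
  · have h4 := hpz.dvd_of_dvd_pow h3
    exact hpz.not_isUnit (hab.isUnit_of_dvd' h4 hb)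

end PT
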