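import Mathlib
import Pool.Agent.Lib.MP_10e784_ag.QDefs

/-! JOB PTDec.  Pure arithmetic: splitting off the bad primes.

`D` squarefree, `H i ≠ 0` integers (`i : ι`), `c ≠ 0`, `D * c * ∏ H i` a square; for every prime `p ∤ B` at most one of the `H i` is divisible by `p`; `c.natAbs ∣ B`.
For every `i` write `(H i).natAbs = m i * w i ^ 2` with `m i` squarefree (`Nat.sq_mul_squarefree`), and put
`e i = ∏ p ∈ (m i).primeFactors with ¬ p ∣ B, p`, `s i = sign (H i) * ∏ p ∈ (m i).primeFactors with p ∣ B, p`.  Then `m i = (s i).natAbs * e i` (squarefree number = product of its prime factors, `Nat.prod_primeFactors_of_squarefree`), `(s i).natAbs ∣ B`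
(squarefree and all its prime factors divide `B`: `Finset.prod_primes_dvd`), `H i = s i * e i * (w i) ^ 2`, `w i ≠ 0`.
The `e i` are squarefree and pairwise coprime (a common prime factor `p ∤ B` would divide `H i` and `H j`), so `∏ e i` is squarefree (`Finset.squarefree_prod_of_pairwise_isCoprime` or by induction), and its prime factors do not divide `B`.
For a prime `p ∤ B`: `p ∣ D ↔ p ∣ ∏ e i`: `D * c * ∏ s i * ∏ e i` is a square up to the square `∏ w i ^ 2` (cancel it: `IsSquare (x * y ^ 2)`, `y ≠ 0` implies `IsSquare x` for integers), `p ∤ c`, `p ∤ s i`, `D` and `∏ e i` are squarefree, so the parity of the `p`-adic valuation of the square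
`D * c * ∏ s i * ∏ e i` shows that `p` divides both or none of `D`, `∏ e i`.  Hence `∏ e i ∣ D` (`Finset.prod_primes_dvd`-type; squarefree) and `g0 = D / ∏ e i` has only prime factors dividing `B` and is squarefree, so `g0.natAbs ∣ B`. -/

namespace PT

open Finset

theorem ptdec_dvd {a n : ℕ} (ha : Squarefree a) (h : ∀ p : ℕ, p.Prime → p ∣ a → p ∣ n) : a ∣ n := by
  rw [← Nat.prod_primeFactors_of_squarefree ha]
  refine Finset.prod_primes_dvd n (fun p hp => ?_) (fun p hp => ?_)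
  · exact (Nat.prime_of_mem_primeFactors hp).prime
  · exact h p (Nat.prime_of_mem_primeFactors hp) (Nat.dvd_of_mem_primeFactors hp)

/-- the decomposition of one integer -/
theorem ptdec_one (B : ℕ) (h : ℤ) (hh : h ≠ 0) : ∃ (s : ℤ) (e : ℕ) (w : ℤ), s.natAbs ∣ B ∧ Squarefree e ∧
    (∀ p : ℕ, p.Prime → p ∣ e → ¬ p ∣ B) ∧ h = s * e * w ^ 2 ∧ s ≠ 0 ∧ w ≠ 0 := by
  obtain ⟨m, w, hmw, hm⟩ := Nat.sq_mul_squarefree h.natAbs
  have hh' : h.natAbs ≠ 0 := Int.natAbs_ne_zero.2 hh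
  have hw0 : w ≠ 0 := by
    rintro rfl
    apply hh'
    rw [← hmw]
    ring
  have hm0 : m ≠ 0 := hm.ne_zero
  have hg : m.gcd B ∣ m := Nat.gcd_dvd_left m B
  have hgm : m.gcd B * (m / m.gcd B) = m := Nat.mul_div_cancel' hg
  have hs1 : (Int.sign h).natAbs = 1 := Int.natAbs_sign_of_ne_zero hh
  refine ⟨Int.sign h * (m.gcd B : ℕ), m / m.gcd B, w, ?_, ?_, ?_, ?_, ?_, ?_⟩
  · rw [Int.natAbs_mul, hs1, one_mul, Int.natAbs_natCast]
    exact Nat.gcd_dvd_right m B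
  · exact hm.squarefree_of_dvd (Nat.div_dvd_of_dvd hg)
  · intro p hp hpe hpB
    have h1 : p ∣ m := hpe.trans (Nat.div_dvd_of_dvd hg)
    have h2 : p ∣ m.gcd B := Nat.dvd_gcd h1 hpB
    have h3 : p * p ∣ m := by
      rw [← hgm]
      exact mul_dvd_mul h2 hpe
    exact hp.one_lt.ne' (Nat.isUnit_iff.1 (hm p h3))
  · have h1 : ((h.natAbs : ℕ) : ℤ) = ((w ^ 2 * (m.gcd B * (m / m.gcd B)) : ℕ) : ℤ) := by
      rw [hgm, hmw]
    have h2 : h = Int.sign h * ((h.natAbs : ℕ) : ℤ) := (Int.sign_mul_natAbs h).symm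
    calc h = Int.sign h * ((h.natAbs : ℕ) : ℤ) := h2
      _ = Int.sign h * ((w ^ 2 * (m.gcd B * (m / m.gcd B)) : ℕ) : ℤ) := by rw [h1]
      _ = _ := by
        push_cast
        ring
  · intro h0
    rcases mul_eq_zero.1 h0 with h1 | h1
    · rw [h1] at hs1
      exact absurd hs1 (by simp)
    · have h2 : m.gcd B = 0 := by exact_mod_cast h1
      exact hm0 (Nat.gcd_eq_zero_iff.1 h2).1
  · exact_mod_cast hw0

theorem ptdec_parity {ι : Type} [Fintype ι] [DecidableEq ι] (B : ℕ) (D c : ℤ) (H : ι → ℤ)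
    (hD : Squarefree D) (hc : c ≠ 0) (hcB : c.natAbs ∣ B) (hsq : IsSquare (D * c * ∏ i, H i))
    (s : ι → ℤ) (e : ι → ℕ) (w : ι → ℤ) (hs : ∀ i, (s i).natAbs ∣ B) (hE : Squarefree (∏ i, e i))
    (hH : ∀ i, H i = s i * e i * w i ^ 2) (hs0 : ∀ i, s i ≠ 0) (hw0 : ∀ i, w i ≠ 0)
    (p : ℕ) (hp : p.Prime) (hpB : ¬ p ∣ B) : p ∣ D.natAbs ↔ p ∣ ∏ i, e i := by
  have hD0 : D.natAbs ≠ 0 := Int.natAbs_ne_zero.2 hD.ne_zero
  have hc0 : c.natAbs ≠ 0 := Int.natAbs_ne_zero.2 hc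
  have hE0 : ∏ i, e i ≠ 0 := hE.ne_zero
  have he0 : ∀ i, e i ≠ 0 := fun i h => hE0 (Finset.prod_eq_zero (Finset.mem_univ i) h)
  have hs0' : ∀ i, (s i).natAbs ≠ 0 := fun i => Int.natAbs_ne_zero.2 (hs0 i)
  have hw0' : ∀ i, (w i).natAbs ≠ 0 := fun i => Int.natAbs_ne_zero.2 (hw0 i)
  obtain ⟨r, hr⟩ := hsq
  have hprod : ∏ i, H i = (∏ i, s i) * (∏ i, (e i : ℤ)) * (∏ i, w i) ^ 2 := by
    rw [← Finset.prod_pow, ← Finset.prod_mul_distrib, ← Finset.prod_mul_distrib]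
    exact Finset.prod_congr rfl fun i _ => hH i
  have h1 : D.natAbs * c.natAbs * ((∏ i, s i).natAbs * (∏ i, e i) * (∏ i, w i).natAbs ^ 2) =
      r.natAbs ^ 2 := by
    have h2 := congrArg Int.natAbs hr
    rw [hprod, Int.natAbs_mul, Int.natAbs_mul, Int.natAbs_mul, Int.natAbs_mul, Int.natAbs_pow,
      Int.natAbs_mul] at h2
    have h3 : (∏ i, (e i : ℤ)).natAbs = ∏ i, e i := by
      rw [← Nat.cast_prod, Int.natAbs_natCast]
    rw [h3] at h2
    rw [h2, sq]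
  have hS0 : (∏ i, s i).natAbs ≠ 0 :=
    Int.natAbs_ne_zero.2 (Finset.prod_ne_zero_iff.2 fun i _ => hs0 i)
  have hW0 : (∏ i, w i).natAbs ≠ 0 :=
    Int.natAbs_ne_zero.2 (Finset.prod_ne_zero_iff.2 fun i _ => hw0 i)
  have hpc : ¬ p ∣ c.natAbs := fun h => hpB (h.trans hcB)
  have hpS : ¬ p ∣ (∏ i, s i).natAbs := by
    intro h
    have h2 : (p : ℤ) ∣ ∏ i, s i := Int.natCast_dvd.2 h
    obtain ⟨i, -, hi⟩ := (Nat.prime_iff_prime_int.1 hp).exists_mem_finset_dvd h2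
    exact hpB ((Int.natCast_dvd.1 hi).trans (hs i))
  have h2 := congrArg (fun n : ℕ => n.factorization p) h1
  rw [Nat.factorization_mul (mul_ne_zero hD0 hc0)
      (mul_ne_zero (mul_ne_zero hS0 hE0) (pow_ne_zero 2 hW0)),
    Nat.factorization_mul hD0 hc0, Nat.factorization_mul (mul_ne_zero hS0 hE0) (pow_ne_zero 2 hW0),
    Nat.factorization_mul hS0 hE0, Nat.factorization_pow, Nat.factorization_pow] at h2
  simp only [Finsupp.add_apply, Finsupp.smul_apply, smul_eq_mul,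
    Nat.factorization_eq_zero_of_not_dvd hpc, Nat.factorization_eq_zero_of_not_dvd hpS] at h2
  have hD1 : D.natAbs.factorization p ≤ 1 :=
    (Int.squarefree_natAbs.2 hD).natFactorization_le_one p
  have hE1 : (∏ i, e i).factorization p ≤ 1 := hE.natFactorization_le_one p
  rw [hp.dvd_iff_one_le_factorization hD0, hp.dvd_iff_one_le_factorization hE0]
  omega

theorem dec_PT {ι : Type} [Fintype ι] [DecidableEq ι] (B : ℕ) (hB : B ≠ 0) (D c : ℤ) (H : ι → ℤ) (hD : Squarefree D) (hc : c ≠ 0)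
    (hcB : c.natAbs ∣ B) (hH : ∀ i, H i ≠ 0) (hsq : IsSquare (D * c * ∏ i, H i))
    (hsep : ∀ p : ℕ, p.Prime → ¬ p ∣ B → ∀ i j, i ≠ j → (p : ℤ) ∣ H i → ¬ (p : ℤ) ∣ H j) :
    ∃ (g0 : ℤ) (s : ι → ℤ) (e : ι → ℕ) (w : ι → ℤ), g0.natAbs ∣ B ∧ (∀ i, (s i).natAbs ∣ B) ∧ D = g0 * ∏ i, (e i : ℤ) ∧
      Squarefree (∏ i, e i) ∧ (∀ p : ℕ, p.Prime → p ∣ ∏ i, e i → ¬ p ∣ B) ∧ (∀ i, H i = s i * e i * w i ^ 2) := by
  choose s e w hs he hpe hHi hs0 hw0 using fun i => ptdec_one B (H i) (hH i)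
  have hdvd : ∀ i (p : ℕ), p ∣ e i → (p : ℤ) ∣ H i := by
    intro i p hp
    rw [hHi i]
    have h1 : (p : ℤ) ∣ (e i : ℤ) := by exact_mod_cast hp
    exact Dvd.dvd.mul_right (Dvd.dvd.mul_left h1 _) _
  have hcop : ∀ i j, i ≠ j → Nat.Coprime (e i) (e j) := by
    intro i j hij
    by_contra hne
    obtain ⟨p, hp, hpi, hpj⟩ := Nat.Prime.not_coprime_iff_dvd.1 hne
    exact hsep p hp (hpe i p hp hpi) i j hij (hdvd i p hpi) (hdvd j p hpj)
  have hEp : ∀ p : ℕ, p.Prime → p ∣ ∏ i, e i → ¬ p ∣ B := by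
    intro p hp hpE
    obtain ⟨i, -, hi⟩ := hp.prime.exists_mem_finset_dvd hpE
    exact hpe i p hp hi
  have hE : Squarefree (∏ i, e i) := by
    refine Finset.squarefree_prod_of_pairwise_isCoprime ?_ fun i _ => he i
    intro i _ j _ hij
    exact (Nat.coprime_iff_isRelPrime.1 (hcop i j hij))
  have hpar := ptdec_parity B D c H hD hc hcB hsq s e w hs hE hHi hs0 hw0
  have hED : (∏ i, e i) ∣ D.natAbs :=
    ptdec_dvd hE fun p hp hpE => (hpar p hp (hEp p hp hpE)).2 hpE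
  have hED' : (∏ i, (e i : ℤ)) ∣ D := by
    rw [← Nat.cast_prod]
    exact Int.natCast_dvd.2 hED
  obtain ⟨g0, hg0⟩ := hED'
  have hDabs : D.natAbs = (∏ i, e i) * g0.natAbs := by
    have h1 := congrArg Int.natAbs hg0
    rw [Int.natAbs_mul, ← Nat.cast_prod, Int.natAbs_natCast] at h1
    exact h1
  have hDsq : Squarefree D.natAbs := Int.squarefree_natAbs.2 hD
  have hg : g0.natAbs ∣ B := by
    refine ptdec_dvd (hDsq.squarefree_of_dvd ⟨∏ i, e i, by rw [hDabs, mul_comm]⟩) fun p hp hpg => ?_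
    by_contra hpB
    have h1 : p ∣ D.natAbs := hpg.trans ⟨∏ i, e i, by rw [hDabs, mul_comm]⟩
    have h2 : p ∣ ∏ i, e i := (hpar p hp hpB).1 h1
    have h3 : p * p ∣ D.natAbs := by
      rw [hDabs]
      exact mul_dvd_mul h2 hpg
    exact hp.one_lt.ne' (Nat.isUnit_iff.1 (hDsq p h3))
  exact ⟨g0, s, e, w, hg, hs, by rw [hg0, mul_comm], hE, hEp, hHi⟩

end PT
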