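import Pool.Agent.Lib.MP_10e784_ag.PT.PTBad
import Pool.Agent.Lib.MP_10e784_ag.PT.PTDec

/-! JOB PTLocal.  The vector attached to a twist with a rational point satisfies the local conditions.

`H i = hom (G i) a b`.  For a prime `p ∤ B`: if `p ∣ H i` then `p ∤ b` (`hom_unit`), there is `r` with `p ∣ r b - a` (`b` is invertible modulo `p`: `Int.gcd_eq_one_iff`/Bezout), and by `hom_mod` `p ∣ (G i).eval r`; if also `p ∣ H j`, then `p ∣ (G j).eval r`, contradicting `Bad.sep`.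
So `dec_PT` applies.  Let `p ∣ e i`, `p` prime; then `p ∤ B` (`p ∣ ∏ e`), `p ∣ H i`; take this `r` and `t = jacobiSym b p = ± 1`.  For `j ≠ i`: `p ∤ H j = s j * e j * w j ^ 2`, `jacobiSym (H j) p = jacobiSym (s j) p * jacobiSym (e j) p` (`jacobiSym (w ^ 2) p = 1` as `p ∤ w`: `jacobiSym.sq_one'`) and
`jacobiSym (H j) p = jacobiSym (b ^ d * (G j).eval r) p = t ^ d * jacobiSym ((G j).eval r) p` (`jacobiSym.mod_left`: congruent integers; `jacobiSym.pow_left`, `jacobiSym.mul_left`). -/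

namespace PT

open Finset Polynomial

theorem ptlocal_inv (p : ℕ) (hp : p.Prime) (a b : ℤ) (hb : ¬ (p : ℤ) ∣ b) :
    ∃ r : ℤ, (p : ℤ) ∣ r * b - a := by
  have hpz : Prime (p : ℤ) := Nat.prime_iff_prime_int.mp hp
  have hc : IsCoprime (p : ℤ) b := (hpz.coprime_iff_not_dvd).mpr hb
  obtain ⟨u, v, huv⟩ := hc
  refine ⟨a * v, -(a * u), ?_⟩
  linear_combination a * huv

theorem ptlocal_not_dvd (p : ℕ) (hp : p.Prime) (x : ℤ) (h : ¬ (p : ℤ) ∣ x) : Int.gcd x p = 1 := by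
  have hpz : Prime (p : ℤ) := Nat.prime_iff_prime_int.mp hp
  have hc : IsCoprime (p : ℤ) x := (hpz.coprime_iff_not_dvd).mpr h
  exact Int.isCoprime_iff_gcd_eq_one.mp hc.symm

theorem local_PT {ι : Type} [Fintype ι] [DecidableEq ι] (G : ι → ℤ[X]) (B : ℕ) (hB : Bad G B) (D c : ℤ)
    (hD : Squarefree D) (hc : c ≠ 0) (hcB : c.natAbs ∣ B) (a b : ℤ) (hab : IsCoprime a b) (hne : ∀ i, hom (G i) a b ≠ 0)
    (hsq : IsSquare (D * c * ∏ i, hom (G i) a b)) :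
    ∃ (g0 : ℤ) (s : ι → ℤ) (e : ι → ℕ), g0.natAbs ∣ B ∧ (∀ i, (s i).natAbs ∣ B) ∧ D = g0 * ∏ i, (e i : ℤ) ∧
      Squarefree (∏ i, e i) ∧ PLoc (AA G s B) e := by
  have hbp : ∀ p : ℕ, p.Prime → ¬ p ∣ B → ∀ i, (p : ℤ) ∣ hom (G i) a b → ¬ (p : ℤ) ∣ b :=
    fun p hp hpB i h hb => hom_unit (G i) p hp a b hab (hB.lead p hp hpB i) hb h
  have hroot : ∀ p : ℕ, p.Prime → ∀ r : ℤ, ¬ (p : ℤ) ∣ b → (p : ℤ) ∣ r * b - a →
      ∀ i, (p : ℤ) ∣ hom (G i) a b → (p : ℤ) ∣ (G i).eval r := by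
    intro p hp r hb hr i hi
    have hpz : Prime (p : ℤ) := Nat.prime_iff_prime_int.mp hp
    have h1 := hom_mod (G i) p a b r hr
    have h2 : (p : ℤ) ∣ b ^ (G i).natDegree * (G i).eval r := by
      have h3 := dvd_sub hi h1
      rwa [sub_sub_cancel] at h3
    rcases hpz.dvd_or_dvd h2 with h3 | h3
    · exact absurd (hpz.dvd_of_dvd_pow h3) hb
    · exact h3
  have hsep : ∀ p : ℕ, p.Prime → ¬ p ∣ B → ∀ i j, i ≠ j → (p : ℤ) ∣ hom (G i) a b →
      ¬ (p : ℤ) ∣ hom (G j) a b := by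
    intro p hp hpB i j hij hi hj
    have hb := hbp p hp hpB i hi
    obtain ⟨r, hr⟩ := ptlocal_inv p hp a b hb
    exact hB.sep p hp hpB i j hij r (hroot p hp r hb hr i hi) (hroot p hp r hb hr j hj)
  obtain ⟨g0, s, e, w, hg0, hs, hDe, hsf, hpe, hH⟩ :=
    dec_PT B hB.ne D c (fun i => hom (G i) a b) hD hc hcB hne hsq hsep
  refine ⟨g0, s, e, hg0, hs, hDe, hsf, ?_⟩
  intro i p hp hpi
  have hpB : ¬ p ∣ B := hpe p hp (hpi.trans (Finset.dvd_prod_of_mem e (Finset.mem_univ i)))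
  have hiH : (p : ℤ) ∣ hom (G i) a b := by
    have h1 := hH i
    rw [h1]
    exact Dvd.dvd.mul_right (Dvd.dvd.mul_left (Int.natCast_dvd_natCast.mpr hpi) _) _
  have hb := hbp p hp hpB i hiH
  obtain ⟨r, hr⟩ := ptlocal_inv p hp a b hb
  have : Fact p.Prime := ⟨hp⟩
  have htb : jacobiSym b p = 1 ∨ jacobiSym b p = -1 :=
    jacobiSym.eq_one_or_neg_one (ptlocal_not_dvd p hp b hb)
  refine ⟨hpB, r, jacobiSym b p, hroot p hp r hb hr i hiH, htb, ?_⟩
  intro j hj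
  have hjH : ¬ (p : ℤ) ∣ hom (G j) a b := hsep p hp hpB i j (Ne.symm hj) hiH
  have h1 := hH j
  have hw : ¬ (p : ℤ) ∣ w j := by
    intro hw
    apply hjH
    rw [h1]
    exact Dvd.dvd.mul_left (dvd_pow hw two_ne_zero) _
  have e1 : jacobiSym (hom (G j) a b) p = jacobiSym (s j) p * jacobiSym (e j) p := by
    rw [h1, jacobiSym.mul_left, jacobiSym.mul_left, jacobiSym.sq_one' (ptlocal_not_dvd p hp _ hw),
      mul_one]
  have e2 : jacobiSym (hom (G j) a b) p =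
      jacobiSym b p ^ (G j).natDegree * jacobiSym ((G j).eval r) p := by
    rw [← jacobiSym.pow_left, ← jacobiSym.mul_left]
    rw [jacobiSym.mod_left (hom (G j) a b), jacobiSym.mod_left (b ^ _ * _)]
    rw [Int.emod_eq_emod_iff_emod_sub_eq_zero.mpr (Int.emod_eq_zero_of_dvd
      (hom_mod (G j) p a b r hr))]
  rw [← e1, e2]

end PT
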