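import Pool.Agent.Lib.MP_10e784_ag.PT.PTDefs

/-! JOB PTRedA.  From a rational polynomial to a family of integral polynomials.

Let `s` be the finite set of the monic irreducible factors of `f` (`UniqueFactorizationMonoid.normalizedFactors f` has no duplicates because `f` is squarefree: `UniqueFactorizationMonoid.squarefree_iff_nodup_normalizedFactors`; or `Polynomial`-specific lemmas), `f = C (leadingCoeff f) * ∏ q ∈ s, q`
(`prod_normalizedFactors`, associated, leading coefficients).  `n = s.card`, enumerate `s` by `Fin n` (`Finset.equivFin`), `q : Fin n → ℚ[X]` injective.  For every `i` there are a nonzero integer `m i` and `G i ∈ ℤ[X]` with `(G i).map = C (m i) * q i` (clear denominators: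
`IsLocalization.integerNormalization`, `exists integer multiple`).  `natDegree (G i) = natDegree (q i)` (the map is injective).  Irreducible: associated to `q i`.  Coprime: different monic irreducible polynomials are coprime (`Irreducible.coprime_iff_not_dvd`, `IsCoprime`), multiplied by units.
Degree `≥ 2`: a factor of degree one would give a root of `f` (`hroot`), degree zero is impossible (`Irreducible.natDegree_pos`).  `c`: `f = C λ * ∏ (G i).map` with `λ = leadingCoeff f / ∏ m i ∈ ℚ`, `λ ≠ 0`, `λ = u / v`, take `c = u * v` and `μ = 1 / v`: `f = C (c * μ ^ 2) * ∏ (G i).map`.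
Parity: `f.natDegree = ∑ natDegree (G i)` is even, so the number of `i` with odd degree is even (`Finset.odd_sum_iff_odd_card_odd` or similar); it is the `ncard` of the set in `hodd` (the bijection `i ↦ q i`; a monic irreducible divisor of `f` is one of the `q i`), so it is not `2`; hence it is `0` (all
degrees even) or at least `4`. -/

namespace PT

open Finset Polynomial

theorem ptreda_clear (q : ℚ[X]) : ∃ (m : ℤ) (G : ℤ[X]), m ≠ 0 ∧
    G.map (Int.castRingHom ℚ) = C (m : ℚ) * q := by
  obtain ⟨b, hb⟩ := IsLocalization.integerNormalization_map_to_map (nonZeroDivisors ℤ) q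
  refine ⟨(b : ℤ), IsLocalization.integerNormalization (nonZeroDivisors ℤ) q,
    nonZeroDivisors.coe_ne_zero b, ?_⟩
  rw [algebraMap_int_eq] at hb
  rw [hb]
  rw [← Int.cast_smul_eq_zsmul ℚ, Polynomial.smul_eq_C_mul]

theorem ptreda_factors (f : ℚ[X]) (hf : Squarefree f) :
    ∃ (n : ℕ) (q : Fin n → ℚ[X]) (a : ℚ), a ≠ 0 ∧ Function.Injective q ∧ (∀ i, (q i).Monic) ∧
      (∀ i, Irreducible (q i)) ∧ (∀ i, q i ∣ f) ∧ f = C a * ∏ i, q i ∧
      (∀ r : ℚ[X], r.Monic → Irreducible r → r ∣ f → ∃ i, q i = r) := by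
  classical
  have hf0 : f ≠ 0 := hf.ne_zero
  set m := UniqueFactorizationMonoid.normalizedFactors f with hm
  have hnd : m.Nodup := (UniqueFactorizationMonoid.squarefree_iff_nodup_normalizedFactors hf0).1 hf
  set s : Finset ℚ[X] := ⟨m, hnd⟩ with hs
  have hmem : ∀ q, q ∈ s ↔ q ∈ m := fun q => Iff.rfl
  have hirr : ∀ q ∈ s, Irreducible q := fun q hq =>
    UniqueFactorizationMonoid.irreducible_of_normalized_factor q ((hmem q).1 hq)
  have hmon : ∀ q ∈ s, q.Monic := by
    intro q hq
    have h1 := UniqueFactorizationMonoid.normalize_normalized_factor q ((hmem q).1 hq)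
    rw [← h1]
    exact Polynomial.monic_normalize (hirr q hq).ne_zero
  have hdvd : ∀ q ∈ s, q ∣ f := fun q hq =>
    UniqueFactorizationMonoid.dvd_of_mem_normalizedFactors ((hmem q).1 hq)
  let e := s.equivFin
  have hprod : ∏ i, ((e.symm i : s) : ℚ[X]) = m.prod := by
    have h1 : ∏ i, ((e.symm i : s) : ℚ[X]) = ∏ x : s, (x : ℚ[X]) :=
      Equiv.prod_comp e.symm (fun x : s => (x : ℚ[X]))
    rw [h1, Finset.prod_coe_sort s (fun x => x)]
    have h2 : s.val.prod = s.prod (fun x => x) := by
      rw [Finset.prod, Multiset.map_id']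
    rw [← h2]
  obtain ⟨u, hu⟩ := UniqueFactorizationMonoid.prod_normalizedFactors hf0
  obtain ⟨a, ha, hau⟩ := Polynomial.isUnit_iff.1 u.isUnit
  refine ⟨s.card, fun i => ((e.symm i : s) : ℚ[X]), a, ha.ne_zero, ?_, ?_, ?_, ?_, ?_, ?_⟩
  · intro i j h
    exact e.symm.injective (Subtype.ext h)
  · exact fun i => hmon _ (e.symm i).2
  · exact fun i => hirr _ (e.symm i).2
  · exact fun i => hdvd _ (e.symm i).2
  · rw [hprod, hau, mul_comm]
    exact hu.symm
  · intro r hr hri hrd
    obtain ⟨q, hq, hqr⟩ := UniqueFactorizationMonoid.exists_mem_normalizedFactors_of_dvd hf0 hri hrd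
    have hqs : q ∈ s := (hmem q).2 hq
    have : q = r := Polynomial.eq_of_monic_of_associated (hmon q hqs) hr hqr.symm
    refine ⟨e ⟨q, hqs⟩, ?_⟩
    simp only [Equiv.symm_apply_apply]
    exact this

theorem red_A (f : ℚ[X]) (hf : Squarefree f) (hdeg : Even f.natDegree) (hroot : ∀ x : ℚ, f.eval x ≠ 0)
    (hodd : {q : ℚ[X] | q.Monic ∧ Irreducible q ∧ q ∣ f ∧ Odd q.natDegree}.ncard ≠ 2) :
    ∃ (n : ℕ) (G : Fin n → ℤ[X]) (c : ℤ) (μ : ℚ), Fam G ∧ c ≠ 0 ∧ μ ≠ 0 ∧ Even (∑ i, (G i).natDegree) ∧
      ((∀ i, Even (G i).natDegree) ∨ 4 ≤ (univ.filter fun i => Odd (G i).natDegree).card) ∧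
      f = C ((c : ℚ) * μ ^ 2) * ∏ i, (G i).map (Int.castRingHom ℚ) := by
  classical
  obtain ⟨n, q, a, ha, hinj, hmon, hirr, hdvd, hfe, hex⟩ := ptreda_factors f hf
  choose m G hm hG using fun i => ptreda_clear (q i)
  have hmQ : ∀ i, (m i : ℚ) ≠ 0 := fun i => by exact_mod_cast hm i
  have hunit : ∀ i, IsUnit (C (m i : ℚ) : ℚ[X]) := fun i =>
    Polynomial.isUnit_C.2 (isUnit_iff_ne_zero.2 (hmQ i))
  have hnd : ∀ i, (G i).natDegree = (q i).natDegree := by
    intro i
    have h1 : ((G i).map (Int.castRingHom ℚ)).natDegree = (G i).natDegree :=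
      Polynomial.natDegree_map_eq_of_injective (RingHom.injective_int _) _
    rw [← h1, hG i, Polynomial.natDegree_C_mul (hmQ i)]
  have hsum : ∑ i, (G i).natDegree = f.natDegree := by
    rw [hfe, Polynomial.natDegree_C_mul ha, Polynomial.natDegree_prod_of_monic _ _ (fun i _ => hmon i)]
    exact sum_congr rfl fun i _ => hnd i
  set L : ℚ := a / ∏ i, (m i : ℚ) with hL
  have hpm : (∏ i, (m i : ℚ)) ≠ 0 := Finset.prod_ne_zero_iff.2 fun i _ => hmQ i
  have hL0 : L ≠ 0 := div_ne_zero ha hpm
  have hden : ((L.den : ℤ) : ℚ) ≠ 0 := by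
    have := L.den_ne_zero
    exact_mod_cast this
  refine ⟨n, G, L.num * L.den, 1 / (L.den : ℚ), ⟨?_, ?_, ?_⟩, ?_, ?_, ?_, ?_, ?_⟩
  · intro i
    rw [hG i]
    exact (irreducible_isUnit_mul (hunit i)).2 (hirr i)
  · intro i j hij
    rw [hG i, hG j]
    have h1 : IsCoprime (q i) (q j) := by
      rw [(hirr i).coprime_iff_not_dvd]
      intro h
      have h2 := (hirr i).associated_of_dvd (hirr j) h
      exact hij (hinj (Polynomial.eq_of_monic_of_associated (hmon i) (hmon j) h2))
    exact (isCoprime_mul_unit_left_left (hunit i) _ _).2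
      ((isCoprime_mul_unit_left_right (hunit j) _ _).2 h1)
  · intro i
    rw [hnd i]
    have h1 := (hirr i).natDegree_pos
    by_contra h2
    have h3 : (q i).natDegree = 1 := by omega
    have h4 : (q i).degree = 1 := by
      rw [Polynomial.degree_eq_natDegree (hirr i).ne_zero, h3]; rfl
    obtain ⟨x, hx⟩ := Polynomial.exists_root_of_degree_eq_one h4
    exact hroot x (hx.dvd (hdvd i))
  · refine mul_ne_zero ?_ ?_
    · exact Rat.num_ne_zero.2 hL0
    · exact_mod_cast L.den_ne_zero
  · exact one_div_ne_zero (by exact_mod_cast L.den_ne_zero)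
  · rw [hsum]; exact hdeg
  · have hcard : (univ.filter fun i => Odd (G i).natDegree).card =
        {q : ℚ[X] | q.Monic ∧ Irreducible q ∧ q ∣ f ∧ Odd q.natDegree}.ncard := by
      have h1 : {q : ℚ[X] | q.Monic ∧ Irreducible q ∧ q ∣ f ∧ Odd q.natDegree} =
          q '' (↑(univ.filter fun i => Odd (G i).natDegree) : Set (Fin n)) := by
        ext r
        simp only [Set.mem_setOf_eq, Set.mem_image, Finset.mem_coe, mem_filter, mem_univ, true_and]
        constructor
        · rintro ⟨h1, h2, h3, h4⟩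
          obtain ⟨i, hi⟩ := hex r h1 h2 h3
          refine ⟨i, ?_, hi⟩
          rw [hnd i, hi]
          exact h4
        · rintro ⟨i, hi, rfl⟩
          exact ⟨hmon i, hirr i, hdvd i, by rw [← hnd i]; exact hi⟩
      rw [h1, Set.ncard_image_of_injective _ hinj, Set.ncard_coe_finset]
    have heven : Even (univ.filter fun i => Odd (G i).natDegree).card := by
      rw [← Finset.even_sum_iff_even_card_odd, hsum]
      exact hdeg
    rw [← hcard] at hodd
    rcases Nat.eq_zero_or_pos (univ.filter fun i => Odd (G i).natDegree).card with h0 | h0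
    · left
      intro i
      rw [card_eq_zero] at h0
      by_contra h
      have : i ∈ (univ.filter fun i => Odd (G i).natDegree) :=
        mem_filter.2 ⟨mem_univ _, Nat.not_even_iff_odd.1 h⟩
      rw [h0] at this
      exact absurd this (notMem_empty _)
    · right
      obtain ⟨r, hr⟩ := heven
      omega
  · have h1 : ∏ i, (G i).map (Int.castRingHom ℚ) = C (∏ i, (m i : ℚ)) * ∏ i, q i := by
      rw [map_prod, ← prod_mul_distrib]
      exact prod_congr rfl fun i _ => hG i
    have h2 : (((L.num * L.den : ℤ) : ℚ)) * (1 / (L.den : ℚ)) ^ 2 = L := by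
      have h3 : (L.num : ℚ) / (L.den : ℚ) = L := Rat.num_div_den L
      have h4 : (L.den : ℚ) ≠ 0 := by exact_mod_cast L.den_ne_zero
      push_cast
      calc (L.num : ℚ) * L.den * (1 / (L.den : ℚ)) ^ 2 = L.num / L.den := by field_simp
        _ = L := h3
    rw [h2, h1, ← mul_assoc, ← C_mul]
    have h5 : L * ∏ i, (m i : ℚ) = a := by
      rw [hL]; field_simp
    rw [h5]
    exact hfe

end PT
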