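import Pool.Agent.Lib.MP_10e784_ag.PT.PTDefs
import Pool.Agent.Lib.MP_2c5684_nt.Mertens

/-! JOB PTConv.  From Dirichlet series to sums over primes `≤ x`.

Tools: `Pool.Agent.Lib.MP_2c5684_nt.sum_log_div_le` (`∑_{p ∈ P} log p / p ≤ b - a + 8` for primes with `a < log p ≤ b`) and
`Pool.Agent.Lib.MP_2c5684_nt.sum_inv_le` (`∑_{p ∈ P} 1 / p ≤ (b - a + 8) / a`).

`conv_upper`.  `x ≥ 3`: `s = 1 + 1 / log x ≤ 2` (`log 3 > 1`), `1 / (s - 1) = log x`.  For a prime `p ≤ x`:
`a p / p - a p * p ^ (-s) = (a p / p) (1 - exp (- log p / log x)) ≤ (M / p) (log p / log x)`, and `∑_{p ≤ x} log p / p ≤ log x + 8`, so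
`PS a x ≤ ∑_{p ≤ x} a p * p ^ (-s) + M (1 + 8 / log x) ≤ c log log x + C + 9 M` (`M ≥ 0` because `a 2 ≤ M`).
`2 ≤ x < 3`: `PS a x = a 2 / 2 ≤ M` and `c log log x ≥ - c` (`c ≥ 0`, `log log x ≥ log log 2 ≥ -1`).  Take `C' = |C| + 9 M + c + M`.

`conv_lower`.  `x ≥ 3`: same `s`, `T` from the hypothesis.  The primes `p ∈ T`, `p ≤ x` contribute at most `PS a x` (`p ^ (-s) ≤ 1 / p`).  The primes
`p ∈ T`, `p > x`: sort them by the natural number `k ≥ 1` with `k log x < log p ≤ (k + 1) log x` (`k = ⌈log p / log x⌉₊ - 1`); for given `k`, `p ^ (-s) = (1 / p) exp (- log p / log x) ≤ exp (-k) / p` and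
`∑ 1 / p ≤ (log x + 8) / (k log x) ≤ 9`; the sum over `k` of `9 M exp (-k)` is at most `9 M` (e.g. `exp (-k) ≤ 2 ^ (-k)`).  So `c log log x - C ≤ PS a x + 9 M`.
`2 ≤ x < 3`: `PS a x ≥ 0` and `c log log x ≤ c` . -/

namespace PT

open Finset

private lemma ptconv_loglog {x : ℝ} (hx : 2 ≤ x) (hx3 : x < 3) : |Real.log (Real.log x)| ≤ 1 := by
  have hx0 : 0 < x := by linarith
  have hL : 0 < Real.log x := Real.log_pos (by linarith)
  rw [abs_le]
  have he2 : (2 : ℝ) ≤ Real.exp 1 := by
    have := Real.add_one_le_exp (1 : ℝ)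
    linarith
  constructor
  · rw [Real.le_log_iff_exp_le hL]
    have h1 : Real.log 2 ≤ Real.log x := Real.log_le_log (by norm_num) hx
    have h2 := Real.log_two_gt_d9
    have h3 : Real.exp (-1) ≤ 1 / 2 := by
      rw [Real.exp_neg, one_div]
      exact inv_anti₀ (by norm_num) he2
    linarith
  · rw [Real.log_le_iff_le_exp hL]
    have := Real.log_le_sub_one_of_pos hx0
    linarith

private lemma ptconv_PS_nonneg (a : ℕ → ℝ) (ha0 : ∀ p, p.Prime → 0 ≤ a p) (x : ℝ) : 0 ≤ PS a x :=
  Finset.sum_nonneg fun p hp => div_nonneg (ha0 p (Finset.mem_filter.1 hp).2) (Nat.cast_nonneg p)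

private lemma ptconv_L {x : ℝ} (hx3 : 3 ≤ x) : 1 ≤ Real.log x := by
  rw [Real.le_log_iff_exp_le (by linarith)]
  have := Real.exp_one_lt_d9
  linarith

private lemma ptconv_rpow {L : ℝ} {p : ℕ} (hp : p.Prime) :
    (p : ℝ) ^ (-(1 + 1 / L)) = 1 / p * Real.exp (-(Real.log p / L)) := by
  have hp0 : (0 : ℝ) < p := by exact_mod_cast hp.pos
  have h1 : -(1 + 1 / L) = -1 + -(1 / L) := by ring
  have h2 : Real.log p * -(1 / L) = -(Real.log p / L) := by ring
  rw [h1, Real.rpow_add hp0, Real.rpow_neg_one, Real.rpow_def_of_pos hp0, h2, one_div]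

private lemma ptconv_small (a : ℕ → ℝ) (M : ℝ) (ha0 : ∀ p, p.Prime → 0 ≤ a p) (haM : ∀ p, p.Prime → a p ≤ M)
    {x : ℝ} (hx : 2 ≤ x) (hx3 : x < 3) : PS a x ≤ M := by
  have hx0 : 0 < x := by linarith
  have hfl : ⌊x⌋₊ = 2 := by
    rw [Nat.floor_eq_iff hx0.le]
    constructor
    · exact_mod_cast hx
    · norm_num
      exact hx3
  have hset : (Icc 1 2 : Finset ℕ).filter Nat.Prime = {2} := by
    ext n
    simp only [mem_filter, mem_Icc, mem_singleton]
    constructor
    · rintro ⟨⟨h1, h2⟩, h3⟩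
      have := h3.two_le
      omega
    · rintro rfl
      exact ⟨by omega, Nat.prime_two⟩
  rw [PS, hfl, hset, Finset.sum_singleton]
  have h1 := haM 2 Nat.prime_two
  have h2 := ha0 2 Nat.prime_two
  push_cast
  linarith

theorem conv_upper (a : ℕ → ℝ) (M c C : ℝ) (ha0 : ∀ p, p.Prime → 0 ≤ a p) (haM : ∀ p, p.Prime → a p ≤ M) (hc : 0 ≤ c)
    (h : ∀ (s : ℝ) (T : Finset ℕ), 1 < s → s ≤ 2 → (∀ p ∈ T, p.Prime) →
      ∑ p ∈ T, a p * (p : ℝ) ^ (-s) ≤ c * Real.log (1 / (s - 1)) + C) :
    ∃ C' : ℝ, ∀ x : ℝ, 2 ≤ x → PS a x ≤ c * Real.log (Real.log x) + C' := by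
  have hM : 0 ≤ M := (ha0 2 Nat.prime_two).trans (haM 2 Nat.prime_two)
  refine ⟨|C| + 9 * M + c + M, fun x hx => ?_⟩
  have habs := le_abs_self C
  have habs0 := abs_nonneg C
  by_cases hx3 : 3 ≤ x
  · have hx0 : 0 < x := by linarith
    have hL1 := ptconv_L hx3
    set L := Real.log x with hLdef
    have hL : 0 < L := by linarith
    have hi : 0 < 1 / L := one_div_pos.2 hL
    have hi1 : 1 / L ≤ 1 := by rw [div_le_one hL]; exact hL1
    set T := (Icc 1 ⌊x⌋₊).filter Nat.Prime with hT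
    have hTp : ∀ p ∈ T, p.Prime := fun p hp => (Finset.mem_filter.1 hp).2
    have h1 := h (1 + 1 / L) T (by linarith) (by linarith) hTp
    have e1 : 1 + 1 / L - 1 = 1 / L := by ring
    rw [e1, one_div_one_div] at h1
    have h2 : ∀ p ∈ T, a p / p - a p * (p : ℝ) ^ (-(1 + 1 / L)) ≤ M / L * (Real.log p / p) := by
      intro p hp
      have hpp := hTp p hp
      have hp0 : (0 : ℝ) < p := by exact_mod_cast hpp.pos
      have hlogp : 0 ≤ Real.log p := Real.log_nonneg (by exact_mod_cast hpp.one_lt.le)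
      rw [ptconv_rpow hpp]
      have h3 : 1 - Real.exp (-(Real.log p / L)) ≤ Real.log p / L := by
        have := Real.add_one_le_exp (-(Real.log p / L))
        linarith
      have h4 : a p / p - a p * (1 / p * Real.exp (-(Real.log p / L)))
          = a p / p * (1 - Real.exp (-(Real.log p / L))) := by ring
      rw [h4]
      have h5 : 0 ≤ a p / p := div_nonneg (ha0 p hpp) hp0.le
      have h6 : a p / p * (1 - Real.exp (-(Real.log p / L))) ≤ a p / p * (Real.log p / L) :=
        mul_le_mul_of_nonneg_left h3 h5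
      have h7 : a p / p * (Real.log p / L) ≤ M / p * (Real.log p / L) :=
        mul_le_mul_of_nonneg_right (div_le_div_of_nonneg_right (haM p hpp) hp0.le)
          (div_nonneg hlogp hL.le)
      refine h6.trans (h7.trans (le_of_eq ?_))
      ring
    have h3 : ∑ p ∈ T, Real.log p / p ≤ L - 0 + 8 := by
      refine Pool.Agent.Lib.MP_2c5684_nt.sum_log_div_le T 0 L le_rfl hL.le ?_
      intro p hp
      have hpp := hTp p hp
      have hp0 : (0 : ℝ) < p := by exact_mod_cast hpp.pos
      refine ⟨hpp, Real.log_pos (by exact_mod_cast hpp.one_lt), ?_⟩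
      refine Real.log_le_log hp0 ?_
      rw [hT, Finset.mem_filter, Finset.mem_Icc] at hp
      exact (Nat.le_floor_iff hx0.le).1 hp.1.2
    have h4 : PS a x - ∑ p ∈ T, a p * (p : ℝ) ^ (-(1 + 1 / L)) ≤ M / L * (L + 8) := by
      rw [PS, ← hT, ← Finset.sum_sub_distrib]
      refine (Finset.sum_le_sum h2).trans ?_
      rw [← Finset.mul_sum]
      refine mul_le_mul_of_nonneg_left ?_ (div_nonneg hM hL.le)
      linarith
    have h5 : M / L * (L + 8) ≤ 9 * M := by
      have h6 : M / L * (L + 8) = M + 8 * M * (1 / L) := by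
        field_simp
      rw [h6]
      have h7 : 8 * M * (1 / L) ≤ 8 * M * 1 := mul_le_mul_of_nonneg_left hi1 (by linarith)
      linarith
    linarith
  · push Not at hx3
    have h1 := ptconv_small a M ha0 haM hx hx3
    have h2 := ptconv_loglog hx hx3
    have h3 : -c ≤ c * Real.log (Real.log x) := by
      have h4 := (abs_le.1 h2).1
      have h5 := mul_le_mul_of_nonneg_left h4 hc
      linarith
    linarith

theorem conv_lower (a : ℕ → ℝ) (M c C : ℝ) (ha0 : ∀ p, p.Prime → 0 ≤ a p) (haM : ∀ p, p.Prime → a p ≤ M) (hc : 0 ≤ c)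
    (h : ∀ s : ℝ, 1 < s → s ≤ 2 → ∃ T : Finset ℕ, (∀ p ∈ T, p.Prime) ∧
      c * Real.log (1 / (s - 1)) - C ≤ ∑ p ∈ T, a p * (p : ℝ) ^ (-s)) :
    ∃ C' : ℝ, ∀ x : ℝ, 2 ≤ x → c * Real.log (Real.log x) - C' ≤ PS a x := by
  classical
  have hM : 0 ≤ M := (ha0 2 Nat.prime_two).trans (haM 2 Nat.prime_two)
  refine ⟨|C| + 18 * M + c, fun x hx => ?_⟩
  have habs := le_abs_self C
  have habs0 := abs_nonneg C
  by_cases hx3 : 3 ≤ x
  · have hx0 : 0 < x := by linarith
    have hL1 := ptconv_L hx3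
    set L := Real.log x with hLdef
    have hL : 0 < L := by linarith
    have hi : 0 < 1 / L := one_div_pos.2 hL
    have hi1 : 1 / L ≤ 1 := by rw [div_le_one hL]; exact hL1
    obtain ⟨T, hTp, h1⟩ := h (1 + 1 / L) (by linarith) (by linarith)
    have e1 : 1 + 1 / L - 1 = 1 / L := by ring
    rw [e1, one_div_one_div] at h1
    rw [← Finset.sum_filter_add_sum_filter_not T (fun p : ℕ => (p : ℝ) ≤ x)] at h1
    -- small primes
    have h2 : ∑ p ∈ T.filter (fun p : ℕ => (p : ℝ) ≤ x), a p * (p : ℝ) ^ (-(1 + 1 / L)) ≤ PS a x := by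
      have h3 : ∑ p ∈ T.filter (fun p : ℕ => (p : ℝ) ≤ x), a p * (p : ℝ) ^ (-(1 + 1 / L)) ≤
          ∑ p ∈ T.filter (fun p : ℕ => (p : ℝ) ≤ x), a p / p := by
        refine Finset.sum_le_sum fun p hp => ?_
        have hpp := hTp p (Finset.mem_filter.1 hp).1
        have hp0 : (0 : ℝ) < p := by exact_mod_cast hpp.pos
        have hlogp : 0 ≤ Real.log p := Real.log_nonneg (by exact_mod_cast hpp.one_lt.le)
        rw [ptconv_rpow hpp]
        have h4 : Real.exp (-(Real.log p / L)) ≤ 1 := by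
          rw [Real.exp_le_one_iff]
          have := div_nonneg hlogp hL.le
          linarith
        have h5 : 0 ≤ a p / p := div_nonneg (ha0 p hpp) hp0.le
        have h6 : a p * (1 / p * Real.exp (-(Real.log p / L))) = a p / p * Real.exp (-(Real.log p / L)) := by
          ring
        rw [h6]
        exact mul_le_of_le_one_right h5 h4
      refine h3.trans ?_
      refine Finset.sum_le_sum_of_subset_of_nonneg ?_ ?_
      · intro p hp
        rw [Finset.mem_filter] at hp
        rw [Finset.mem_filter, Finset.mem_Icc]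
        exact ⟨⟨(hTp p hp.1).one_lt.le, Nat.le_floor hp.2⟩, hTp p hp.1⟩
      · intro p hp _
        exact div_nonneg (ha0 p (Finset.mem_filter.1 hp).2) (Nat.cast_nonneg p)
    -- large primes
    set T2 := T.filter (fun p : ℕ => ¬ (p : ℝ) ≤ x) with hT2
    set f : ℕ → ℕ := fun p => ⌈Real.log p / L⌉₊ - 1 with hf
    have hfp : ∀ p ∈ T2, 1 ≤ f p ∧ (f p : ℝ) * L < Real.log p ∧ Real.log p ≤ ((f p : ℝ) + 1) * L := by
      intro p hp
      rw [hT2, Finset.mem_filter, not_le] at hp
      have h3 : L < Real.log p := Real.log_lt_log hx0 hp.2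
      have h4 : 1 < Real.log p / L := by rw [lt_div_iff₀ hL]; linarith
      have h5 : 1 < ⌈Real.log p / L⌉₊ := by
        rw [Nat.lt_ceil]
        exact_mod_cast h4
      have h6 : f p + 1 = ⌈Real.log p / L⌉₊ := by
        simp only [hf]
        omega
      have h7 : ((f p : ℝ) + 1) = (⌈Real.log p / L⌉₊ : ℝ) := by
        exact_mod_cast h6
      have h8 : Real.log p / L ≤ (f p : ℝ) + 1 := by
        rw [h7]
        exact Nat.le_ceil _
      have h9 : (f p : ℝ) < Real.log p / L := by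
        have h10 : f p < ⌈Real.log p / L⌉₊ := by omega
        exact Nat.lt_ceil.1 h10
      refine ⟨by omega, ?_, ?_⟩
      · rwa [lt_div_iff₀ hL] at h9
      · rwa [div_le_iff₀ hL] at h8
    have h3 : ∑ p ∈ T2, a p * (p : ℝ) ^ (-(1 + 1 / L)) ≤ ∑ k ∈ T2.image f, 9 * M * (1 / 2) ^ k := by
      rw [← Finset.sum_fiberwise_of_maps_to (s := T2) (t := T2.image f) (g := f)
        (fun p hp => Finset.mem_image_of_mem _ hp)]
      refine Finset.sum_le_sum fun k hk => ?_
      have hk1 : 1 ≤ k := by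
        obtain ⟨p, hp, rfl⟩ := Finset.mem_image.1 hk
        exact (hfp p hp).1
      have hk1' : (1 : ℝ) ≤ k := by exact_mod_cast hk1
      have hexp : Real.exp (-(k : ℝ)) ≤ (1 / 2) ^ k := by
        have h4 : Real.exp (-(k : ℝ)) = (Real.exp (-1)) ^ k := by
          rw [← Real.exp_nat_mul]
          congr 1
          ring
        rw [h4]
        refine pow_le_pow_left₀ (Real.exp_pos _).le ?_ k
        have he2 : (2 : ℝ) ≤ Real.exp 1 := by
          have := Real.add_one_le_exp (1 : ℝ)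
          linarith
        rw [Real.exp_neg, one_div]
        exact inv_anti₀ (by norm_num) he2
      have h4 : ∀ p ∈ T2.filter (fun p => f p = k),
          a p * (p : ℝ) ^ (-(1 + 1 / L)) ≤ M * (1 / 2) ^ k * (1 / p) := by
        intro p hp
        rw [Finset.mem_filter] at hp
        have hpT : p ∈ T := (Finset.mem_filter.1 hp.1).1
        have hpp := hTp p hpT
        have hp0 : (0 : ℝ) < p := by exact_mod_cast hpp.pos
        obtain ⟨_, h5, _⟩ := hfp p hp.1
        rw [hp.2] at h5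
        rw [ptconv_rpow hpp]
        have h6 : Real.exp (-(Real.log p / L)) ≤ (1 / 2) ^ k := by
          refine le_trans (Real.exp_le_exp.2 ?_) hexp
          have : (k : ℝ) ≤ Real.log p / L := by
            rw [le_div_iff₀ hL]
            exact h5.le
          linarith
        have h7 : a p * (1 / p * Real.exp (-(Real.log p / L))) ≤ M * (1 / p * (1 / 2) ^ k) := by
          refine mul_le_mul (haM p hpp) (mul_le_mul_of_nonneg_left h6 (by positivity)) (by positivity) hM
        refine h7.trans (le_of_eq ?_)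
        ring
      refine (Finset.sum_le_sum h4).trans ?_
      rw [← Finset.mul_sum]
      have h5 : ∑ p ∈ T2.filter (fun p => f p = k), (1 : ℝ) / p
          ≤ (((k : ℝ) + 1) * L - k * L + 8) / (k * L) := by
        refine Pool.Agent.Lib.MP_2c5684_nt.sum_inv_le _ (k * L) (((k : ℝ) + 1) * L) (by positivity)
          (by nlinarith) ?_
        intro p hp
        rw [Finset.mem_filter] at hp
        have hpT : p ∈ T := (Finset.mem_filter.1 hp.1).1
        obtain ⟨_, h5, h6⟩ := hfp p hp.1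
        rw [hp.2] at h5 h6
        exact ⟨hTp p hpT, h5, h6⟩
      have h6 : (((k : ℝ) + 1) * L - k * L + 8) / (k * L) ≤ 9 := by
        rw [div_le_iff₀ (by positivity)]
        nlinarith
      have h7 : M * (1 / 2) ^ k * ∑ p ∈ T2.filter (fun p => f p = k), (1 : ℝ) / p
          ≤ M * (1 / 2) ^ k * 9 :=
        mul_le_mul_of_nonneg_left (h5.trans h6) (by positivity)
      refine h7.trans (le_of_eq ?_)
      ring
    have h4 : ∑ k ∈ T2.image f, 9 * M * (1 / 2 : ℝ) ^ k ≤ 18 * M := by
      rw [← Finset.mul_sum]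
      have h5 : ∑ k ∈ T2.image f, (1 / 2 : ℝ) ^ k ≤ 2 := by
        exact (summable_geometric_two.sum_le_tsum _ (fun k _ => by positivity)).trans
          (le_of_eq tsum_geometric_two)
      have h6 := mul_le_mul_of_nonneg_left h5 (show 0 ≤ 9 * M by linarith)
      linarith
    linarith
  · push Not at hx3
    have h1 := ptconv_PS_nonneg a ha0 x
    have h2 := ptconv_loglog hx hx3
    have h3 : c * Real.log (Real.log x) ≤ c := by
      have h4 := (abs_le.1 h2).2
      have h5 := mul_le_mul_of_nonneg_left h4 hc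
      linarith
    linarith

end PT
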