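import Pool.Agent.Lib.MP_10e784_ag.PT.PTCase
import Pool.Agent.Lib.MP_10e784_ag.QChooseV

/-! JOB PTCount.  The counting theorem: all vectors satisfying the local conditions, with weights.

Model: `GTCount.lean` (`gtcount_split`, `gtcount_ana`, `countV`) in `Pool/Agent/Lib/MP_1ad228_nt`.  Split the vectors `e` according to `I = {i | τ < e i}`.
`I` nonempty: `case_PT` (constants `C_I, K_I`; `hη0 : 0 < η`).  `I = ∅`: all `e i ≤ τ`, so there are at most `τ ^ |ι|` vectors, each of weight at most `1`, total at most `τ ^ |ι| ≤ √N` if `τ ^ (2 |ι|) ≤ N`, and `√N ≤ C N (log N) ^ (-η1)` for `N ≥ 2`.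
(If `ι` is empty the only vector is the empty one, `I = ∅`, total `≤ 1`.)
Choice of the parameters for `N ≥ N0`: let `ε = min (η - η1) (1 / 4 - η1) > 0` (if `η1 < 0` replace it by `0`: `(log N) ^ (-0) ≤ ...` is not needed, simply assume w.l.o.g. `η1 ≥ 0` by monotonicity of `(log N) ^ (-η1)` for `log N ≥ 1`), `K` larger than all `K_I`, `2 |ι|` and `4`, and
`QT.chooseV (1 / 4 - ε) _ K` gives `V` with `(V ^ K) ^ K ≤ N`, `(1 + log N) ^ K V ^ (-1/16) (1 + log τ) ^ K ≤ C (log N) ^ (-(1/4 - ε)) ≤ C (log N) ^ (-η1)` and `(1 + log τ) ^ K ≤ C (log N) ^ ε` where `τ = V ^ K` (multiply the second inequality of `chooseV` by `(log N) ^ (1/4)`), so that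
`B (log N) ^ (-η) (1 + log τ) ^ K ≤ B C (log N) ^ (-η + ε) ≤ B C (log N) ^ (-η1)`.  For `N < N0` the sum is at most the number of vectors in the box (`≤ N ^ |ι| ≤ N0 ^ |ι|`; or `≤ (N0 ^ |ι|)`), and `N (log N) ^ (-η1) ≥ c > 0` for `2 ≤ N < N0`. -/

namespace PT

open Finset

/-- the choice of the parameters -/
private theorem ptcount_ana {κ : Type} [Fintype κ] (Cf : κ → ℝ) (Kf : κ → ℕ) (hCf : ∀ I, 0 < Cf I)
    (B η η1 : ℝ) (hB : 0 ≤ B) (hη0 : 0 < η) (h1 : η1 < η) (h2 : η1 < 1 / 4) (m : ℕ) :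
    ∃ C : ℝ, 0 < C ∧ ∀ (N : ℕ) (a : ℝ), 2 ≤ N → a ≤ (N : ℝ) ^ m →
      (∀ V τ : ℝ, 65536 ≤ N → 1 ≤ V → 1 ≤ τ → (∀ I, V ^ Kf I ≤ τ) → (∀ I, τ ^ Kf I ≤ N) →
        a ≤ τ ^ m +
          ∑ I, Cf I * N * ((1 + Real.log N) ^ Kf I * V ^ (-(1 / 16) : ℝ) + B * Real.log N ^ (-η)) *
            (1 + Real.log τ) ^ Kf I) →
      a ≤ C * N * Real.log N ^ (-η1) := by
  obtain ⟨K, hK4, hKm, hKf⟩ : ∃ K : ℕ, 4 ≤ K ∧ 2 * m ≤ K ∧ ∀ I, Kf I ≤ K :=
    ⟨(∑ I, Kf I) + (4 + 2 * m), by omega, by omega, fun I =>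
      (Finset.single_le_sum (f := Kf) (fun _ _ => Nat.zero_le _) (Finset.mem_univ I)).trans (Nat.le_add_right _ _)⟩
  obtain ⟨C0, hC0⟩ : ∃ C0 : ℝ, C0 = ∑ I, Cf I := ⟨_, rfl⟩
  have hC0pos : 0 ≤ C0 := by
    rw [hC0]
    exact Finset.sum_nonneg (fun I _ => (hCf I).le)
  obtain ⟨ε, hε, hε1, hε2⟩ : ∃ ε : ℝ, 0 < ε ∧ ε ≤ η - η1 ∧ ε ≤ 1 / 4 - η1 :=
    ⟨min (η - η1) (1 / 4 - η1), lt_min (by linarith) (by linarith), min_le_left _ _, min_le_right _ _⟩
  obtain ⟨C1, N0, hC1, hch⟩ := QT.chooseV (1 / 4 - ε) (by linarith) K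
  obtain ⟨N1, hN1⟩ : ∃ N1 : ℕ, N1 = N0 + 65536 := ⟨_, rfl⟩
  obtain ⟨c, hc⟩ : ∃ c : ℝ, c = ∑ n ∈ Finset.Ico 2 N1, (Real.log n ^ (-η1))⁻¹ := ⟨_, rfl⟩
  have hlogpos : ∀ n : ℕ, 2 ≤ n → 0 < Real.log n := by
    intro n hn
    apply Real.log_pos
    have : 1 < n := by omega
    exact_mod_cast this
  have hcpos : 0 ≤ c := by
    rw [hc]
    refine Finset.sum_nonneg fun n hn => ?_
    have := hlogpos n (Finset.mem_Ico.1 hn).1
    positivity
  refine ⟨2 + C0 * (C1 * (1 + B)) + (N1 : ℝ) ^ m * c, by positivity, ?_⟩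
  intro N a hN2 haN hmain
  have hNr : (1 : ℝ) < N := by
    have : 1 < N := by omega
    exact_mod_cast this
  have hlogN : 0 < Real.log N := Real.log_pos hNr
  have hq8 : 0 < Real.log N ^ (-η1) := Real.rpow_pos_of_pos hlogN _
  by_cases hNN : N < N1
  · -- small `N`
    have hcard : a ≤ (N1 : ℝ) ^ m := by
      refine haN.trans (pow_le_pow_left₀ (by positivity) ?_ m)
      exact_mod_cast hNN.le
    have hmono : (Real.log N ^ (-η1))⁻¹ ≤ c := by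
      rw [hc]
      refine Finset.single_le_sum (f := fun n : ℕ => (Real.log n ^ (-η1))⁻¹) (fun n hn => ?_)
        (Finset.mem_Ico.2 ⟨hN2, hNN⟩)
      have := hlogpos n (Finset.mem_Ico.1 hn).1
      positivity
    have h3 : 1 ≤ c * Real.log N ^ (-η1) := by
      calc (1 : ℝ) = (Real.log N ^ (-η1))⁻¹ * Real.log N ^ (-η1) := (inv_mul_cancel₀ hq8.ne').symm
        _ ≤ c * Real.log N ^ (-η1) := mul_le_mul_of_nonneg_right hmono hq8.le
    have h4 : (1 : ℝ) ≤ N * (c * Real.log N ^ (-η1)) := by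
      calc (1 : ℝ) = 1 * 1 := by ring
        _ ≤ N * (c * Real.log N ^ (-η1)) := mul_le_mul hNr.le h3 (by norm_num) (by linarith)
    have h5 : (N1 : ℝ) ^ m ≤ (N1 : ℝ) ^ m * (N * (c * Real.log N ^ (-η1))) :=
      le_mul_of_one_le_right (by positivity) h4
    have h6 : 0 ≤ (2 + C0 * (C1 * (1 + B))) * N * Real.log N ^ (-η1) := by positivity
    have e3 : (2 + C0 * (C1 * (1 + B)) + (N1 : ℝ) ^ m * c) * N * Real.log N ^ (-η1) =
        (2 + C0 * (C1 * (1 + B))) * N * Real.log N ^ (-η1) +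
          (N1 : ℝ) ^ m * (N * (c * Real.log N ^ (-η1))) := by
      ring
    rw [e3]
    linarith
  · push Not at hNN
    have hN65 : 65536 ≤ N := by omega
    have hNr' : (65536 : ℝ) ≤ N := by exact_mod_cast hN65
    have hlog1 : 1 ≤ Real.log N := by
      have h1 : Real.log 65536 ≤ Real.log N := Real.log_le_log (by norm_num) hNr'
      have h2 : Real.log 65536 = 16 * Real.log 2 := by
        rw [show (65536 : ℝ) = 2 ^ 16 by norm_num, Real.log_pow]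
        norm_num
      have h3 := Real.log_two_gt_d9
      linarith
    obtain ⟨V, hV, hVN, hb1, hb2⟩ := hch N (by omega)
    obtain ⟨τ, hτ⟩ : ∃ τ : ℝ, τ = V ^ K := ⟨_, rfl⟩
    rw [← hτ] at hVN hb1 hb2
    have hτ1 : 1 ≤ τ := by rw [hτ]; exact one_le_pow₀ hV
    have hlogτ : 0 ≤ Real.log τ := Real.log_nonneg hτ1
    obtain ⟨L, hL⟩ : ∃ L : ℝ, L = Real.log N := ⟨_, rfl⟩
    rw [← hL] at hlogN hlog1 hb1 hb2 hq8
    -- comparison of powers of `L`
    have hmonoL : ∀ a : ℝ, a ≤ -η1 → L ^ a ≤ L ^ (-η1) := fun a ha =>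
      Real.rpow_le_rpow_of_exponent_le hlog1 ha
    have hPK : (1 + Real.log τ) ^ K ≤ C1 * L ^ ε := by
      have h1 : L ^ (1 / 4 : ℝ) * (L ^ (-(1 / 4) : ℝ) * (1 + Real.log τ) ^ K) ≤
          L ^ (1 / 4 : ℝ) * (C1 * L ^ (-(1 / 4 - ε))) :=
        mul_le_mul_of_nonneg_left hb2 (Real.rpow_nonneg hlogN.le _)
      have h2 : L ^ (1 / 4 : ℝ) * L ^ (-(1 / 4) : ℝ) = 1 := by
        rw [← Real.rpow_add hlogN]
        norm_num
      have h3 : L ^ (1 / 4 : ℝ) * L ^ (-(1 / 4 - ε)) = L ^ ε := by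
        rw [← Real.rpow_add hlogN]
        congr 1
        ring
      calc (1 + Real.log τ) ^ K = L ^ (1 / 4 : ℝ) * L ^ (-(1 / 4) : ℝ) * (1 + Real.log τ) ^ K := by
            rw [h2, one_mul]
        _ = L ^ (1 / 4 : ℝ) * (L ^ (-(1 / 4) : ℝ) * (1 + Real.log τ) ^ K) := by ring
        _ ≤ _ := h1
        _ = C1 * (L ^ (1 / 4 : ℝ) * L ^ (-(1 / 4 - ε))) := by ring
        _ = C1 * L ^ ε := by rw [h3]
    have hm := hmain V τ hN65 hV hτ1 (fun I => by rw [hτ]; exact pow_le_pow_right₀ hV (hKf I))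
      (fun I => (pow_le_pow_right₀ hτ1 (hKf I)).trans hVN)
    rw [← hL] at hm ⊢
    -- first part
    have hp1 : τ ^ m ≤ 2 * N * L ^ (-η1) := by
      have a1 : (τ ^ m) ^ 2 ≤ N := by
        rw [← pow_mul]
        exact (pow_le_pow_right₀ hτ1 (by omega)).trans hVN
      have a2 : τ ^ m ≤ Real.sqrt N := Real.le_sqrt_of_sq_le a1
      have hs0 : 0 < Real.sqrt N := Real.sqrt_pos.2 (by linarith)
      have a3 : L ≤ 2 * Real.sqrt N := by
        have b1 : Real.log (Real.sqrt N) ≤ Real.sqrt N - 1 := Real.log_le_sub_one_of_pos hs0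
        rw [Real.log_sqrt (by linarith), ← hL] at b1
        linarith
      have a4 : L ^ (-1 : ℝ) ≤ L ^ (-η1) := hmonoL _ (by linarith)
      rw [Real.rpow_neg_one] at a4
      have a5 : Real.sqrt N * Real.sqrt N = N := Real.mul_self_sqrt (by linarith)
      have a6 : Real.sqrt N * L ≤ 2 * N := by
        calc Real.sqrt N * L ≤ Real.sqrt N * (2 * Real.sqrt N) := mul_le_mul_of_nonneg_left a3 hs0.le
          _ = 2 * N := by linarith
      calc τ ^ m ≤ Real.sqrt N := a2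
        _ = Real.sqrt N * L * L⁻¹ := by rw [mul_assoc, mul_inv_cancel₀ hlogN.ne', mul_one]
        _ ≤ 2 * N * L⁻¹ := mul_le_mul_of_nonneg_right a6 (by positivity)
        _ ≤ 2 * N * L ^ (-η1) := mul_le_mul_of_nonneg_left a4 (by positivity)
    -- second part
    have hp3 : (∑ I, Cf I * N * ((1 + L) ^ Kf I * V ^ (-(1 / 16) : ℝ) + B * L ^ (-η)) *
            (1 + Real.log τ) ^ Kf I) ≤ C0 * (C1 * (1 + B)) * N * L ^ (-η1) := by
      have hterm : ∀ I, Cf I * N * ((1 + L) ^ Kf I * V ^ (-(1 / 16) : ℝ) + B * L ^ (-η)) *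
            (1 + Real.log τ) ^ Kf I ≤ Cf I * ((C1 * (1 + B)) * N * L ^ (-η1)) := by
        intro I
        have hCI := hCf I
        have a1 : (1 + L) ^ Kf I ≤ (1 + L) ^ K := pow_le_pow_right₀ (by linarith) (hKf I)
        have a2 : (1 + Real.log τ) ^ Kf I ≤ (1 + Real.log τ) ^ K :=
          pow_le_pow_right₀ (by linarith) (hKf I)
        have a3 : 0 ≤ V ^ (-(1 / 16) : ℝ) := Real.rpow_nonneg (by linarith) _
        have a4 : 0 ≤ (1 + Real.log τ) ^ Kf I := by positivity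
        have g1 : (1 + L) ^ Kf I * V ^ (-(1 / 16) : ℝ) * (1 + Real.log τ) ^ Kf I ≤
            C1 * L ^ (-η1) := by
          calc (1 + L) ^ Kf I * V ^ (-(1 / 16) : ℝ) * (1 + Real.log τ) ^ Kf I ≤
              (1 + L) ^ K * V ^ (-(1 / 16) : ℝ) * (1 + Real.log τ) ^ K :=
                mul_le_mul (mul_le_mul_of_nonneg_right a1 a3) a2 a4 (by positivity)
            _ ≤ C1 * L ^ (-(1 / 4 - ε)) := hb1
            _ ≤ C1 * L ^ (-η1) := mul_le_mul_of_nonneg_left (hmonoL _ (by linarith)) hC1.le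
        have g2 : L ^ (-η) * (1 + Real.log τ) ^ Kf I ≤ C1 * L ^ (-η1) := by
          calc L ^ (-η) * (1 + Real.log τ) ^ Kf I ≤
              L ^ (-η) * (C1 * L ^ ε) :=
                mul_le_mul_of_nonneg_left (a2.trans hPK) (Real.rpow_nonneg hlogN.le _)
            _ = C1 * (L ^ (-η) * L ^ ε) := by ring
            _ = C1 * L ^ (-η + ε) := by rw [← Real.rpow_add hlogN]
            _ ≤ C1 * L ^ (-η1) := mul_le_mul_of_nonneg_left (hmonoL _ (by linarith)) hC1.le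
        have e1 : Cf I * N * ((1 + L) ^ Kf I * V ^ (-(1 / 16) : ℝ) + B * L ^ (-η)) *
            (1 + Real.log τ) ^ Kf I = Cf I * (N * ((1 + L) ^ Kf I * V ^ (-(1 / 16) : ℝ) *
              (1 + Real.log τ) ^ Kf I + B * (L ^ (-η) * (1 + Real.log τ) ^ Kf I))) := by ring
        have e2 : Cf I * ((C1 * (1 + B)) * N * L ^ (-η1)) =
            Cf I * (N * (C1 * L ^ (-η1) + B * (C1 * L ^ (-η1)))) := by ring
        rw [e1, e2]
        gcongr
      calc _ ≤ ∑ I, Cf I * ((C1 * (1 + B)) * N * L ^ (-η1)) :=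
            Finset.sum_le_sum fun I _ => hterm I
        _ = C0 * (C1 * (1 + B)) * N * L ^ (-η1) := by
          rw [← Finset.sum_mul, ← hC0]
          ring
    have hlast : 0 ≤ (N1 : ℝ) ^ m * c * N * L ^ (-η1) := by positivity
    have e : (2 + C0 * (C1 * (1 + B)) + (N1 : ℝ) ^ m * c) * N * L ^ (-η1) =
            2 * N * L ^ (-η1) + C0 * (C1 * (1 + B)) * N * L ^ (-η1) +
              (N1 : ℝ) ^ m * c * N * L ^ (-η1) := by ring
    rw [e]
    linarith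

/-- the weights are at most one -/
private theorem ptcount_pf {w : ℕ → ℝ} (hw0 : ∀ p, 0 ≤ w p) (hw1 : ∀ p, w p ≤ 1) (n : ℕ) :
    0 ≤ QT.pf w n ∧ QT.pf w n ≤ 1 :=
  ⟨Finset.prod_nonneg fun p _ => hw0 p, Finset.prod_le_one (fun p _ => hw0 p) fun p _ => hw1 p⟩

/-- sums of weights over a set of vectors with entries at most `M` -/
private theorem ptcount_box {ι : Type} [Fintype ι] [DecidableEq ι] {w : ℕ → ℝ} (hw0 : ∀ p, 0 ≤ w p)
    (hw1 : ∀ p, w p ≤ 1) (T : Finset (ι → ℕ)) (M : ℕ) (hT : ∀ e ∈ T, ∀ i, 1 ≤ e i ∧ e i ≤ M) :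
    ∑ e ∈ T, QT.pf w (∏ i, e i) ≤ (M : ℝ) ^ Fintype.card ι := by
  have h1 : T ⊆ Fintype.piFinset fun _ : ι => Icc 1 M := by
    intro e he
    rw [Fintype.mem_piFinset]
    intro i
    exact Finset.mem_Icc.2 (hT e he i)
  calc ∑ e ∈ T, QT.pf w (∏ i, e i) ≤ ∑ e ∈ T, (1 : ℝ) :=
        Finset.sum_le_sum fun e _ => (ptcount_pf hw0 hw1 _).2
    _ = (T.card : ℝ) := by rw [Finset.sum_const, nsmul_eq_mul, mul_one]
    _ ≤ ((Fintype.piFinset fun _ : ι => Icc 1 M).card : ℝ) := by exact_mod_cast Finset.card_le_card h1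
    _ = (M : ℝ) ^ Fintype.card ι := by
        rw [Fintype.card_piFinset, Finset.prod_const, Nat.card_Icc, Nat.add_sub_cancel, Finset.card_univ]
        push_cast
        rfl

open Classical in
private theorem ptcount_part {ι : Type} [Fintype ι] [DecidableEq ι] (I : Finset ι) :
    ∃ (C : ℝ) (K : ℕ), 0 < C ∧ (I.Nonempty → ∀ (A : ℕ → ι → (ι → ℤ) → Prop) (w F : ℕ → ℝ) (B η : ℝ),
    (∀ i y, ¬ A 2 i y) →
    (∀ p i (y y' : ι → ℤ), (∀ j, j ≠ i → y j = y' j) → A p i y → A p i y') →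
    (∀ p, 0 ≤ w p) → (∀ p, w p ≤ 1) →
    (∀ p, p.Prime → ∀ y : ι → ℤ, (∀ j, y j = 1 ∨ y j = -1) →
      w p * ∑ i ∈ I, (sl A I p i y : ℝ) / 2 ^ (I.card - 1) ≤ F p) →
    0 ≤ B → 0 ≤ η → η ≤ 1 →
    (∀ x : ℝ, 2 ≤ x → ∑ n ∈ (Icc 1 ⌊x⌋₊).filter Squarefree, QT.pf F n ≤ B * x * Real.log x ^ (-η)) →
    ∀ (N : ℕ) (V τ : ℝ), 65536 ≤ N → 1 ≤ V → V ^ K ≤ τ → τ ^ K ≤ N →
    ∑ e ∈ (QT.Box ι N).filter (fun e => (∀ i, τ < e i ↔ i ∈ I) ∧ PLoc A e), QT.pf w (∏ i, e i) ≤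
      C * N * ((1 + Real.log N) ^ K * V ^ (-(1 / 16) : ℝ) + B * Real.log N ^ (-η)) * (1 + Real.log τ) ^ K) := by
  by_cases hI : I.Nonempty
  · obtain ⟨C, K, hC, h⟩ := case_PT I hI
    exact ⟨C, K, hC, fun _ => h⟩
  · exact ⟨1, 0, one_pos, fun h => absurd h hI⟩

open Classical in
/-- splitting of the sum -/
private theorem ptcount_split {ι : Type} [Fintype ι] [DecidableEq ι] (A : ℕ → ι → (ι → ℤ) → Prop) (N : ℕ) (τ : ℝ)
    (W : (ι → ℕ) → ℝ) (hW : ∀ e, 0 ≤ W e) :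
    ∑ e ∈ (QT.Box ι N).filter (fun e => PLoc A e), W e ≤
      ∑ I : Finset ι, ∑ e ∈ (QT.Box ι N).filter (fun e => (∀ i, τ < e i ↔ i ∈ I) ∧ PLoc A e), W e := by
  rw [← Finset.sum_fiberwise _ (fun e : ι → ℕ => Finset.univ.filter fun i => τ < (e i : ℝ)) W]
  apply Finset.sum_le_sum
  intro I _
  apply Finset.sum_le_sum_of_subset_of_nonneg
  · intro e he
    rw [Finset.mem_filter, Finset.mem_filter] at he
    obtain ⟨⟨h1, h2⟩, h4⟩ := he
    rw [Finset.mem_filter]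
    refine ⟨h1, fun i => ?_, h2⟩
    rw [← h4, Finset.mem_filter]
    exact ⟨fun h => ⟨Finset.mem_univ _, h⟩, fun h => h.2⟩
  · intro e _ _
    exact hW e

open Classical in
theorem count_PT {ι : Type} [Fintype ι] [DecidableEq ι] (A : ℕ → ι → (ι → ℤ) → Prop)
    (hA2 : ∀ i y, ¬ A 2 i y)
    (hdep : ∀ p i (y y' : ι → ℤ), (∀ j, j ≠ i → y j = y' j) → A p i y → A p i y')
    (w : ℕ → ℝ) (hw0 : ∀ p, 0 ≤ w p) (hw1 : ∀ p, w p ≤ 1) (F : Finset ι → ℕ → ℝ)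
    (hslice : ∀ I : Finset ι, I.Nonempty → ∀ p, p.Prime → ∀ y : ι → ℤ, (∀ j, y j = 1 ∨ y j = -1) →
      w p * ∑ i ∈ I, (sl A I p i y : ℝ) / 2 ^ (I.card - 1) ≤ F I p)
    (B η η1 : ℝ) (hB : 0 ≤ B) (hη0 : 0 < η) (hη1 : η ≤ 1) (h1 : η1 < η) (h2 : η1 < 1 / 4)
    (hF : ∀ I : Finset ι, I.Nonempty → ∀ x : ℝ, 2 ≤ x →
      ∑ n ∈ (Icc 1 ⌊x⌋₊).filter Squarefree, QT.pf (F I) n ≤ B * x * Real.log x ^ (-η)) :
    ∃ C : ℝ, 0 < C ∧ ∀ N : ℕ, 2 ≤ N →
      ∑ e ∈ (QT.Box ι N).filter (fun e => PLoc A e), QT.pf w (∏ i, e i) ≤ C * N * Real.log N ^ (-η1) := by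
  choose Cf Kf hCf hbf using ptcount_part (ι := ι)
  obtain ⟨C, hCpos, hCb⟩ := ptcount_ana Cf Kf hCf B η η1 hB hη0 h1 h2 (Fintype.card ι)
  refine ⟨C, hCpos, ?_⟩
  intro N hN2
  have hmem : ∀ e ∈ QT.Box ι N, ∀ i, 1 ≤ e i ∧ e i ≤ N := by
    intro e he i
    unfold QT.Box at he
    exact Finset.mem_Icc.1 (Fintype.mem_piFinset.1 (Finset.mem_filter.1 he).1 i)
  apply hCb N _ hN2
  · exact ptcount_box hw0 hw1 _ N fun e he i => hmem e (Finset.mem_filter.1 he).1 i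
  · intro V τ hN65 hV1 hτ1 hVτ hτN
    refine (ptcount_split A N τ (fun e => QT.pf w (∏ i, e i)) fun e => (ptcount_pf hw0 hw1 _).1).trans ?_
    have hlogτ : 0 ≤ Real.log τ := Real.log_nonneg hτ1
    have hlogN : 0 ≤ Real.log N := Real.log_natCast_nonneg _
    have hVp : 0 ≤ V ^ (-(1 / 16) : ℝ) := Real.rpow_nonneg (by linarith) _
    have hLp : 0 ≤ Real.log N ^ (-η) := Real.rpow_nonneg hlogN _
    have hterm : ∀ I : Finset ι,
        ∑ e ∈ (QT.Box ι N).filter (fun e => (∀ i, τ < e i ↔ i ∈ I) ∧ PLoc A e), QT.pf w (∏ i, e i) ≤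
        (if I = ∅ then τ ^ Fintype.card ι else 0) +
          Cf I * N * ((1 + Real.log N) ^ Kf I * V ^ (-(1 / 16) : ℝ) + B * Real.log N ^ (-η)) *
            (1 + Real.log τ) ^ Kf I := by
      intro I
      by_cases hI : I = ∅
      · rw [if_pos hI]
        have hCI := hCf I
        have h3 : 0 ≤ Cf I * N * ((1 + Real.log N) ^ Kf I * V ^ (-(1 / 16) : ℝ) + B * Real.log N ^ (-η)) *
            (1 + Real.log τ) ^ Kf I := by positivity
        have h4 : ∑ e ∈ (QT.Box ι N).filter (fun e => (∀ i, τ < e i ↔ i ∈ I) ∧ PLoc A e), QT.pf w (∏ i, e i) ≤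
            (⌊τ⌋₊ : ℝ) ^ Fintype.card ι := by
          refine ptcount_box hw0 hw1 _ ⌊τ⌋₊ fun e he i => ?_
          obtain ⟨h5, h6, -⟩ := Finset.mem_filter.1 he
          refine ⟨(hmem e h5 i).1, Nat.le_floor ?_⟩
          by_contra h7
          have h8 := (h6 i).1 (not_le.1 h7)
          rw [hI] at h8
          exact absurd h8 (Finset.notMem_empty i)
        have h5 : (⌊τ⌋₊ : ℝ) ^ Fintype.card ι ≤ τ ^ Fintype.card ι :=
          pow_le_pow_left₀ (by positivity) (Nat.floor_le (by linarith)) _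
        linarith
      · rw [if_neg hI, zero_add]
        have hne : I.Nonempty := Finset.nonempty_iff_ne_empty.2 hI
        exact hbf I hne A w (F I) B η hA2 hdep hw0 hw1 (hslice I hne) hB hη0.le hη1 (hF I hne) N V τ hN65 hV1
          (hVτ I) (hτN I)
    refine (Finset.sum_le_sum fun I _ => hterm I).trans ?_
    rw [Finset.sum_add_distrib, Finset.sum_ite_eq' Finset.univ (∅ : Finset ι) (fun _ => τ ^ Fintype.card ι),
      if_pos (Finset.mem_univ _)]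

end PT
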