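import Pool.Agent.Lib.MP_10e784_ag.PT.PTRtSum

/-! JOB PTFSum.  The mean value of the majorant `FI G S I` over the primes is at most `1 - 1 / (5 n)`.

Write `d i = (G i).natDegree ≥ 2`, `k = I.card ≥ 1`, `κ = kap G I`, `c = κ / 2 ^ (k - 1)`.  Pointwise, for a prime `p` (`min 1 z ≤ z`, `ww ≤ 1`):
`FI G S I p ≤ ∑_{i ∈ I} c * rt (G i) p - g * ind S p`, where `g ≥ 0` is a constant:
* `κ = 1`, `k = 1`, `I = {i}`: `g = 1`: for `p ∈ S` the left side is `(9/10) min 1 (d i) = 9/10 ≤ d i - 1`; (`p ∉ S`: clear).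
* `κ = 1`, `k = 2`: `g = 1/5`: for `p ∈ S` the left side is `(9/10) * 2 = 9/5` (`min 1 (d i / 2) = 1`), and `∑ d i / 2 - 1/5 ≥ 2 - 1/5`.
* `κ = 1`, `k ≥ 3`: `g = 0`.
* `κ = 2`: then all indices of odd degree are in `I`, there is one, hence (`par`: not all degrees are even) at least four: `k ≥ 4`.  If `k = 4`: `I` is exactly the set of the indices of odd degree, so `d i ≥ 3` for `i ∈ I`; `c = 1/4`, `g = 3/10`: for `p ∈ S` the left side is
  `(9/10) ∑ min 1 (d i / 4) ≤ (9/10) ∑ d i / 4 = ∑ d i / 4 - (1/10) ∑ d i / 4 ≤ ∑ d i / 4 - 3/10`.  If `k ≥ 5`: `g = 0`.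
By `rt_sum` (for every `i`) and `Spl.lower`, with `L = log log x`: `PS (FI G S I) x ≤ c k L + C - g L / n` (`PS` is linear), and in all cases `c k - g / n ≤ 1 - 1 / (5 n)`: `(1, g = 1)`: `1 - 1/n`; `(2, 1/5)`: `1 - 1/(5n)`; `k ≥ 3, κ = 1`: `k / 2 ^ (k-1) ≤ 3/4 ≤ 1 - 1/(5 n)`;
`k = 4, κ = 2`: `1 - 3/(10 n)`; `k ≥ 5, κ = 2`: `2 k / 2 ^ (k-1) ≤ 5/8`.  Since `L ≥ log log 2 ≥ -1` for `x ≥ 2`, `(1 - 1/(5n) - (c k - g/n)) L ≥ -1` and the constant can absorb the difference. -/

namespace PT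

open Finset Polynomial

theorem FI_nonneg {ι : Type} [Fintype ι] [DecidableEq ι] (G : ι → ℤ[X]) (S : Set ℕ) (I : Finset ι) (p : ℕ) :
    0 ≤ FI G S I p := by
  classical
  unfold FI
  have hk : 0 ≤ kap G I := by
    unfold kap; split_ifs <;> norm_num
  have hw : 0 ≤ ww S p := by
    unfold ww; split_ifs <;> norm_num
  refine mul_nonneg hw (sum_nonneg fun i _ => le_min (by norm_num) ?_)
  positivity

theorem FI_le {ι : Type} [Fintype ι] [DecidableEq ι] (G : ι → ℤ[X]) (S : Set ℕ) (I : Finset ι) (p : ℕ) :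
    FI G S I p ≤ I.card := by
  classical
  unfold FI
  have hk : 0 ≤ kap G I := by
    unfold kap; split_ifs <;> norm_num
  have hw : 0 ≤ ww S p := by
    unfold ww; split_ifs <;> norm_num
  have hw1 : ww S p ≤ 1 := by
    unfold ww; split_ifs <;> norm_num
  have h1 : ∑ i ∈ I, min 1 (kap G I * rt (G i) p / 2 ^ (I.card - 1)) ≤ ∑ i ∈ I, (1 : ℝ) :=
    sum_le_sum fun i _ => min_le_left _ _
  have h0 : 0 ≤ ∑ i ∈ I, min 1 (kap G I * rt (G i) p / 2 ^ (I.card - 1)) :=
    sum_nonneg fun i _ => le_min (by norm_num) (by positivity)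
  have h2 : ∑ i ∈ I, (1 : ℝ) = I.card := by simp
  calc ww S p * ∑ i ∈ I, min 1 (kap G I * rt (G i) p / 2 ^ (I.card - 1))
      ≤ 1 * ∑ i ∈ I, min 1 (kap G I * rt (G i) p / 2 ^ (I.card - 1)) :=
        mul_le_mul_of_nonneg_right hw1 h0
    _ ≤ I.card := by rw [one_mul]; rw [← h2]; exact h1

theorem ptfsum_L {x : ℝ} (hx : 2 ≤ x) : -1 ≤ Real.log (Real.log x) := by
  have h2 : (0.6931471803 : ℝ) < Real.log 2 := Real.log_two_gt_d9
  have hlx : Real.log 2 ≤ Real.log x := Real.log_le_log (by norm_num) hx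
  have he : Real.exp (-1) < 0.3678794412 := Real.exp_neg_one_lt_d9
  rw [Real.le_log_iff_exp_le (by linarith)]
  linarith

theorem ptfsum_gen {ι : Type} [Fintype ι] [DecidableEq ι] (G : ι → ℤ[X]) (hG : Fam G)
    (S : Set ℕ) (n : ℕ) (hS : Spl G S n) (I : Finset ι) (g : ℝ) (hg : 0 ≤ g)
    (h1 : ∀ i ∈ I, 9 / 10 * min 1 (kap G I * (G i).natDegree / 2 ^ (I.card - 1)) ≤
      kap G I * (G i).natDegree / 2 ^ (I.card - 1) - g)
    (h2 : (kap G I / 2 ^ (I.card - 1) - g / n) * I.card ≤ 1 - 1 / (5 * n)) :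
    ∃ C : ℝ, ∀ x : ℝ, 2 ≤ x → PS (FI G S I) x ≤ (1 - 1 / (5 * n) : ℝ) * Real.log (Real.log x) + C := by
  classical
  have hk : 0 ≤ kap G I := by
    unfold kap; split_ifs <;> norm_num
  set c : ℝ := kap G I / 2 ^ (I.card - 1) with hc
  have hc0 : 0 ≤ c := by positivity
  have hrt : ∀ i, ∃ C : ℝ, ∀ x : ℝ, 2 ≤ x → PS (fun p => (rt (G i) p : ℝ)) x ≤ Real.log (Real.log x) + C :=
    fun i => rt_sum (G i) (hG.irr i)
  choose Ci hCi using hrt
  obtain ⟨Cs, hCs⟩ := hS.lower
  have hpt : ∀ p, FI G S I p ≤ ∑ i ∈ I, (c * (rt (G i) p : ℝ) - g * ind S p) := by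
    intro p
    unfold FI
    rw [mul_sum]
    refine sum_le_sum fun i hi => ?_
    by_cases hp : p ∈ S
    · have e1 : ww S p = 9 / 10 := by simp [ww, hp]
      have e2 : ind S p = 1 := by simp [ind, hp]
      rw [e1, e2, hS.split p hp i]
      have := h1 i hi
      have e3 : kap G I * ((G i).natDegree : ℝ) / 2 ^ (I.card - 1) = c * (G i).natDegree := by
        rw [hc]; ring
      rw [e3] at this ⊢
      linarith
    · have e1 : ww S p = 1 := by simp [ww, hp]
      have e2 : ind S p = 0 := by simp [ind, hp]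
      rw [e1, e2]
      have e3 : kap G I * (rt (G i) p : ℝ) / 2 ^ (I.card - 1) = c * rt (G i) p := by
        rw [hc]; ring
      rw [e3]
      have := min_le_right (1 : ℝ) (c * (rt (G i) p : ℝ))
      linarith
  have hPS : ∀ x, PS (FI G S I) x ≤
      ∑ i ∈ I, (c * PS (fun p => (rt (G i) p : ℝ)) x - g * PS (ind S) x) := by
    intro x
    unfold PS
    calc ∑ p ∈ (Icc 1 ⌊x⌋₊).filter Nat.Prime, FI G S I p / p
        ≤ ∑ p ∈ (Icc 1 ⌊x⌋₊).filter Nat.Prime, ∑ i ∈ I,
            (c * ((rt (G i) p : ℝ) / p) - g * (ind S p / p)) := by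
          refine sum_le_sum fun p hp => ?_
          calc FI G S I p / p ≤ (∑ i ∈ I, (c * (rt (G i) p : ℝ) - g * ind S p)) / p :=
                div_le_div_of_nonneg_right (hpt p) (Nat.cast_nonneg p)
            _ = _ := by
                rw [sum_div]
                refine sum_congr rfl fun i _ => ?_
                ring
      _ = _ := by
          rw [sum_comm]
          refine sum_congr rfl fun i _ => ?_
          rw [sum_sub_distrib, mul_sum, mul_sum]
  set e : ℝ := (1 - 1 / (5 * n)) - (c - g / n) * I.card with he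
  have he0 : 0 ≤ e := by rw [he]; linarith
  refine ⟨(∑ i ∈ I, (c * Ci i + g * Cs)) + e, fun x hx => ?_⟩
  have hL := ptfsum_L hx
  set L := Real.log (Real.log x) with hLdef
  have hs := hCs x hx
  have h3 : ∑ i ∈ I, (c * PS (fun p => (rt (G i) p : ℝ)) x - g * PS (ind S) x) ≤
      ∑ i ∈ I, ((c - g / n) * L + (c * Ci i + g * Cs)) := by
    refine sum_le_sum fun i _ => ?_
    have a1 := mul_le_mul_of_nonneg_left (hCi i x hx) hc0
    have a2 := mul_le_mul_of_nonneg_left hs hg
    have a3 : g * (1 / n * L - Cs) = g / n * L - g * Cs := by ring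
    rw [a3] at a2
    have a4 : c * (L + Ci i) = c * L + c * Ci i := by ring
    rw [a4] at a1
    have a5 : (c - g / n) * L = c * L - g / n * L := by ring
    rw [a5]
    linarith
  have h4 : ∑ i ∈ I, ((c - g / n) * L + (c * Ci i + g * Cs)) =
      (c - g / n) * I.card * L + ∑ i ∈ I, (c * Ci i + g * Cs) := by
    rw [sum_add_distrib, sum_const, nsmul_eq_mul]
    ring
  have h5 : (c - g / n) * I.card * L ≤ (1 - 1 / (5 * n)) * L + e := by
    have : (c - g / n) * I.card = (1 - 1 / (5 * n)) - e := by rw [he]; ring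
    rw [this]
    nlinarith
  have := hPS x
  linarith

theorem ptfsum_pow (k : ℕ) (hk : 3 ≤ k) : (k : ℝ) / 2 ^ (k - 1) ≤ 3 / 4 := by
  obtain ⟨m, rfl⟩ := Nat.exists_eq_add_of_le hk
  have e : 3 + m - 1 = m + 2 := by omega
  rw [e, div_le_iff₀ (by positivity)]
  have h : ((m : ℝ) + 1) ≤ 2 ^ m := by
    have := one_add_mul_le_pow (show (-2 : ℝ) ≤ 1 by norm_num) m
    have e2 : (1 : ℝ) + 1 = 2 := by norm_num
    rw [e2] at this
    linarith
  rw [pow_add]
  push_cast
  nlinarith

theorem ptfsum_pow5 (k : ℕ) (hk : 5 ≤ k) : (k : ℝ) / 2 ^ (k - 1) ≤ 5 / 16 := by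
  obtain ⟨m, rfl⟩ := Nat.exists_eq_add_of_le hk
  have e : 5 + m - 1 = m + 4 := by omega
  rw [e, div_le_iff₀ (by positivity)]
  have h : ((m : ℝ) + 1) ≤ 2 ^ m := by
    have := one_add_mul_le_pow (show (-2 : ℝ) ≤ 1 by norm_num) m
    have e2 : (1 : ℝ) + 1 = 2 := by norm_num
    rw [e2] at this
    linarith
  rw [pow_add]
  push_cast
  nlinarith

theorem ptfsum_n (n : ℕ) (hn : 1 ≤ n) : (4 / 5 : ℝ) ≤ 1 - 1 / (5 * n) := by
  have h : (1 : ℝ) ≤ n := by exact_mod_cast hn
  have : 1 / (5 * (n : ℝ)) ≤ 1 / 5 := by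
    apply one_div_le_one_div_of_le (by norm_num)
    linarith
  linarith

theorem FI_sum {ι : Type} [Fintype ι] [DecidableEq ι] (G : ι → ℤ[X]) (hG : Fam G)
    (par : (∀ i, Even (G i).natDegree) ∨ 4 ≤ (univ.filter fun i => Odd (G i).natDegree).card)
    (S : Set ℕ) (n : ℕ) (hS : Spl G S n) (I : Finset ι) (hI : I.Nonempty) :
    ∃ C : ℝ, ∀ x : ℝ, 2 ≤ x → PS (FI G S I) x ≤ (1 - 1 / (5 * n) : ℝ) * Real.log (Real.log x) + C := by
  classical
  have hn1 := hS.npos
  have hnR : (1 : ℝ) ≤ n := by exact_mod_cast hn1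
  have hn := ptfsum_n n hn1
  have hcard : 1 ≤ I.card := hI.card_pos
  have hdeg : ∀ i, (2 : ℝ) ≤ (G i).natDegree := fun i => by exact_mod_cast hG.deg i
  by_cases hc : (∃ k, Odd (G k).natDegree) ∧ ∀ k, Odd (G k).natDegree → k ∈ I
  · have hkap : kap G I = 2 := by
      unfold kap
      exact if_pos hc
    have h4 : 4 ≤ (univ.filter fun i => Odd (G i).natDegree).card := by
      rcases par with h | h
      · obtain ⟨k, hk⟩ := hc.1
        exact absurd (h k) (Nat.not_even_iff_odd.2 hk)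
      · exact h
    have hsub : (univ.filter fun i => Odd (G i).natDegree) ⊆ I := by
      intro i hi
      exact hc.2 i (mem_filter.1 hi).2
    have h4' := card_le_card hsub
    rcases Nat.lt_or_ge I.card 5 with h5 | h5
    · have hk4 : I.card = 4 := by omega
      have heq : (univ.filter fun i => Odd (G i).natDegree) = I :=
        eq_of_subset_of_card_le hsub (by omega)
      refine ptfsum_gen G hG S n hS I (3 / 40) (by norm_num) ?_ ?_
      · intro i hi
        have hodd : Odd (G i).natDegree := by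
          rw [← heq] at hi
          exact (mem_filter.1 hi).2
        have h3 : 3 ≤ (G i).natDegree := by
          have := hG.deg i
          obtain ⟨r, hr⟩ := hodd
          omega
        have h3R : (3 : ℝ) ≤ (G i).natDegree := by exact_mod_cast h3
        rw [hkap, hk4]
        have e : (2 : ℝ) ^ (4 - 1) = 8 := by norm_num
        rw [e]
        have := min_le_right (1 : ℝ) (2 * ((G i).natDegree : ℝ) / 8)
        linarith
      · rw [hkap, hk4]
        have : (2 / 2 ^ (4 - 1) - 3 / 40 / (n : ℝ)) * ((4 : ℕ) : ℝ) = 1 - (3 / 2) * (1 / (5 * n)) := by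
          field_simp
          norm_num
          ring
        rw [this]
        have : 0 ≤ 1 / (5 * (n : ℝ)) := by positivity
        linarith
    · refine ptfsum_gen G hG S n hS I 0 le_rfl ?_ ?_
      · intro i hi
        rw [hkap]
        have h0 : (0 : ℝ) ≤ 2 * ((G i).natDegree : ℝ) / 2 ^ (I.card - 1) := by positivity
        have := min_le_right (1 : ℝ) (2 * ((G i).natDegree : ℝ) / 2 ^ (I.card - 1))
        linarith
      · rw [hkap]
        have := ptfsum_pow5 I.card h5
        have e : (2 / 2 ^ (I.card - 1) - 0 / (n : ℝ)) * (I.card : ℝ) = 2 * ((I.card : ℝ) / 2 ^ (I.card - 1)) := by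
          ring
        rw [e]
        linarith
  · have hkap : kap G I = 1 := by
      unfold kap
      exact if_neg hc
    rcases Nat.lt_or_ge I.card 3 with h3 | h3
    · have h12 : I.card = 1 ∨ I.card = 2 := by omega
      rcases h12 with h | h
      · refine ptfsum_gen G hG S n hS I 1 (by norm_num) ?_ ?_
        · intro i hi
          rw [hkap, h]
          have h2 := hdeg i
          have e : (2 : ℝ) ^ (1 - 1) = 1 := by norm_num
          rw [e]
          have := min_le_left (1 : ℝ) (1 * ((G i).natDegree : ℝ) / 1)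
          linarith
        · rw [hkap, h]
          have : (1 / 2 ^ (1 - 1) - 1 / (n : ℝ)) * ((1 : ℕ) : ℝ) = 1 - 5 * (1 / (5 * n)) := by
            field_simp
            norm_num
          rw [this]
          have : 0 ≤ 1 / (5 * (n : ℝ)) := by positivity
          linarith
      · refine ptfsum_gen G hG S n hS I (1 / 10) (by norm_num) ?_ ?_
        · intro i hi
          rw [hkap, h]
          have h2 := hdeg i
          have e : (2 : ℝ) ^ (2 - 1) = 2 := by norm_num
          rw [e]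
          have := min_le_left (1 : ℝ) (1 * ((G i).natDegree : ℝ) / 2)
          linarith
        · rw [hkap, h]
          have : (1 / 2 ^ (2 - 1) - 1 / 10 / (n : ℝ)) * ((2 : ℕ) : ℝ) = 1 - (1 / (5 * n)) := by
            field_simp
            norm_num
            ring
          rw [this]
    · refine ptfsum_gen G hG S n hS I 0 le_rfl ?_ ?_
      · intro i hi
        rw [hkap]
        have h0 : (0 : ℝ) ≤ 1 * ((G i).natDegree : ℝ) / 2 ^ (I.card - 1) := by positivity
        have := min_le_right (1 : ℝ) (1 * ((G i).natDegree : ℝ) / 2 ^ (I.card - 1))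
        linarith
      · rw [hkap]
        have := ptfsum_pow I.card h3
        have e : (1 / 2 ^ (I.card - 1) - 0 / (n : ℝ)) * (I.card : ℝ) = ((I.card : ℝ) / 2 ^ (I.card - 1)) := by
          ring
        rw [e]
        linarith

end PT
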