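import Pool.Agent.Lib.MP_10e784_ag.PT.PTDefs

/-! JOB PTRedB.  From a rational point to coprime integers.

`x = a / b` in lowest terms (`a = x.num`, `b = x.den`, coprime, `b ≠ 0`).  `(b : ℚ) ^ d * ((G i).map _).eval x = hom (G i) a b` for `d = natDegree (G i)` (`Polynomial.eval_map`, `eval_eq_sum_range`, `b ^ d * coeff * (a / b) ^ k = coeff * a ^ k * b ^ (d - k)`).  `hom (G i) a b ≠ 0` because `f.eval x ≠ 0`.
With `2 k = ∑ natDegree (G i)`: `D * w ^ 2 * b ^ (2 k) = c * μ ^ 2 * ∏ hom (G i) a b`, so `D * c * ∏ hom (G i) a b = (D * w * b ^ k / μ) ^ 2` is an integer which is the square of a rational number, hence the square of an integer (`Rat.isSquare_intCast_iff` or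
`IsIntegrallyClosed`, `Rat.sqrt`). -/

namespace PT

open Finset Polynomial

theorem ptredb_hom (G : ℤ[X]) (a b : ℤ) (hb : (b : ℚ) ≠ 0) :
    ((hom G a b : ℤ) : ℚ) = (b : ℚ) ^ G.natDegree * (G.map (Int.castRingHom ℚ)).eval ((a : ℚ) / b) := by
  rw [Polynomial.eval_map, Polynomial.eval₂_eq_sum_range, Finset.mul_sum]
  unfold hom
  rw [Int.cast_sum]
  refine Finset.sum_congr rfl fun k hk => ?_
  have hk' : k ≤ G.natDegree := Nat.lt_succ_iff.1 (Finset.mem_range.1 hk)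
  obtain ⟨m, hm⟩ := Nat.exists_eq_add_of_le hk'
  have h1 : G.natDegree - k = m := by omega
  rw [h1, hm, pow_add, div_pow, Int.cast_mul, Int.cast_mul, Int.cast_pow, Int.cast_pow]
  have h2 : (b : ℚ) ^ k ≠ 0 := pow_ne_zero _ hb
  rw [eq_intCast]
  field_simp

theorem red_B {n : ℕ} (G : Fin n → ℤ[X]) (f : ℚ[X]) (c : ℤ) (μ : ℚ) (hμ : μ ≠ 0) (hev : Even (∑ i, (G i).natDegree))
    (hf : f = C ((c : ℚ) * μ ^ 2) * ∏ i, (G i).map (Int.castRingHom ℚ)) (D : ℤ) (x w : ℚ) (hx : f.eval x ≠ 0)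
    (h : (D : ℚ) * w ^ 2 = f.eval x) :
    ∃ a b : ℤ, IsCoprime a b ∧ (∀ i, hom (G i) a b ≠ 0) ∧ IsSquare (D * c * ∏ i, hom (G i) a b) := by
  have hb : (((x.den : ℕ) : ℤ) : ℚ) ≠ 0 := by
    rw [Int.cast_natCast]
    exact_mod_cast x.den_ne_zero
  have hxe : (x.num : ℚ) / ((x.den : ℕ) : ℤ) = x := by
    rw [Int.cast_natCast]
    exact Rat.num_div_den x
  have hhom : ∀ i, ((hom (G i) x.num ((x.den : ℕ) : ℤ) : ℤ) : ℚ) =
      (((x.den : ℕ) : ℤ) : ℚ) ^ (G i).natDegree * ((G i).map (Int.castRingHom ℚ)).eval x := by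
    intro i
    rw [ptredb_hom _ _ _ hb, hxe]
  have hev' : f.eval x = (c : ℚ) * μ ^ 2 * ∏ i, ((G i).map (Int.castRingHom ℚ)).eval x := by
    rw [hf, Polynomial.eval_mul, Polynomial.eval_C, Polynomial.eval_prod]
  have hne : ∀ i, ((G i).map (Int.castRingHom ℚ)).eval x ≠ 0 := by
    intro i h0
    apply hx
    rw [hev', Finset.prod_eq_zero (Finset.mem_univ i) h0, mul_zero]
  refine ⟨x.num, ((x.den : ℕ) : ℤ), ?_, ?_, ?_⟩
  · rw [Int.isCoprime_iff_gcd_eq_one]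
    exact x.reduced
  · intro i h0
    have h1 := hhom i
    rw [h0, Int.cast_zero] at h1
    exact mul_ne_zero (pow_ne_zero _ hb) (hne i) h1.symm
  · obtain ⟨r, hr⟩ := hev
    rw [← Rat.isSquare_intCast_iff]
    refine ⟨(D : ℚ) * w * (((x.den : ℕ) : ℤ) : ℚ) ^ r / μ, ?_⟩
    have h1 : ((∏ i, hom (G i) x.num ((x.den : ℕ) : ℤ) : ℤ) : ℚ) =
        (((x.den : ℕ) : ℤ) : ℚ) ^ (r + r) * ∏ i, ((G i).map (Int.castRingHom ℚ)).eval x := by
      rw [Int.cast_prod, Finset.prod_congr rfl fun i _ => hhom i, Finset.prod_mul_distrib,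
        Finset.prod_pow_eq_pow_sum, hr]
    rw [Int.cast_mul, Int.cast_mul, h1]
    rw [hev'] at h
    generalize (((x.den : ℕ) : ℤ) : ℚ) = B at *
    generalize ∏ i, ((G i).map (Int.castRingHom ℚ)).eval x = P at *
    have h2 : (c : ℚ) * P = D * w ^ 2 / μ ^ 2 := by
      rw [h]
      field_simp
    calc (D : ℚ) * c * (B ^ (r + r) * P) = D * B ^ (r + r) * (c * P) := by ring
      _ = D * B ^ (r + r) * (D * w ^ 2 / μ ^ 2) := by rw [h2]
      _ = D * w * B ^ r / μ * (D * w * B ^ r / μ) := by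
        rw [pow_add]
        field_simp

end PT
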