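import Pool.Agent.Lib.MP_10e784_ag.PT.PTMain
import Pool.Agent.Lib.MP_10e784_ag.PT.PTRedA
import Pool.Agent.Lib.MP_10e784_ag.PT.PTRedB

/-! The final theorem. -/

namespace PT

open Finset Polynomial

theorem final (f : ℚ[X]) (hf : Squarefree f) (hdeg : Even f.natDegree) (hroot : ∀ x : ℚ, f.eval x ≠ 0)
    (hodd : {q : ℚ[X] | q.Monic ∧ Irreducible q ∧ q ∣ f ∧ Odd q.natDegree}.ncard ≠ 2) :
    ∃ C δ : ℝ, 0 < δ ∧ ∀ N : ℕ, 2 ≤ N →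
      (Nat.card {D : ℤ // Squarefree D ∧ |D| ≤ (N : ℤ) ∧ ∃ x w : ℚ, (D : ℚ) * w ^ 2 = f.eval x} : ℝ) ≤
        C * N / Real.log N ^ δ := by
  obtain ⟨n, G, c, μ, hG, hc, hμ, hev, par, hfG⟩ := red_A f hf hdeg hroot hodd
  obtain ⟨C, δ, hδ, h⟩ := main_PT G hG c hc par
  refine ⟨C, δ, hδ, fun N hN => le_trans ?_ (h N hN)⟩
  have hfin : Finite {D : ℤ // Squarefree D ∧ |D| ≤ (N : ℤ) ∧ ∃ a b : ℤ, IsCoprime a b ∧ (∀ i, hom (G i) a b ≠ 0) ∧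
        IsSquare (D * c * ∏ i, hom (G i) a b)} := by
    apply Set.Finite.to_subtype
    apply (Set.finite_Icc (-(N : ℤ)) N).subset
    rintro D ⟨-, h2, -⟩
    exact abs_le.1 h2
  have h1 := Nat.card_le_card_of_injective
    (fun z : {D : ℤ // Squarefree D ∧ |D| ≤ (N : ℤ) ∧ ∃ x w : ℚ, (D : ℚ) * w ^ 2 = f.eval x} =>
      (⟨z.1, z.2.1, z.2.2.1, by
        obtain ⟨x, w, hxw⟩ := z.2.2.2
        exact red_B G f c μ hμ hev hfG z.1 x w (hroot x) hxw⟩ :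
        {D : ℤ // Squarefree D ∧ |D| ≤ (N : ℤ) ∧ ∃ a b : ℤ, IsCoprime a b ∧ (∀ i, hom (G i) a b ≠ 0) ∧
        IsSquare (D * c * ∏ i, hom (G i) a b)}))
    (fun x y hxy => by
      have h2 := congrArg Subtype.val hxy
      exact Subtype.ext h2)
  exact_mod_cast h1

end PT
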