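import Pool.Agent.Lib.MP_10e784_ag.PT.PTDefs
import Pool.Agent.Lib.MP_1ad228_nt.GTEng

/-! JOB PTInner.  The inner sum: all coordinates in `I` are large, the others are `1`.

Model: `innerG` in `Pool/Agent/Lib/MP_1ad228_nt/GTInner.lean` (here it is easier; copy the private lemmas you need, renamed).
Apply `ZG.engine_G` (file `GTEng`) to the label system `s : QT.Sys ι L` with `L = {ℓ : ι × Finset ι // ℓ.1 ∈ I ∧ ℓ.2 ⊆ I.erase ℓ.1}`, `idx ℓ = ℓ.1.1`, `St ℓ = ℓ.1.2`, `s.I = I`.  With `m = I.card - 1 = (I.erase i).card` and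
`u (i, T) p = if p.Prime then w p * 2 ^ (-m) * ∑_{T' ⊆ I.erase i, R p i T'} (-1) ^ |T ∩ T'| else 0`, `h i p = if i ∈ I ∧ p.Prime then w p * #{T' ⊆ I.erase i | R p i T'} / 2 ^ m else 0` (anything `≥ 0` for `i ∉ I`):
`|u ℓ p| ≤ h (idx ℓ) p ≤ 1` (there are `2 ^ m` subsets, `w ≤ 1`), `u ℓ 2 = 0` (`hR2`), `∑_{i ∈ I} h i p ≤ F p` (`hslice`).
For `e` in the box with `p ∣ e i`, `i ∈ I`, the numbers `e j`, `j ≠ i`, are prime to `p` (the product is squarefree), so `jacobiSym (e j) p = ± 1` and with `T0 = {j ∈ I.erase i | jacobiSym (e j) p = -1}`: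
`∑_{ℓ, idx ℓ = i} u ℓ p * ∏_{j ∈ St ℓ} jacobiSym (e j) p = w p * 2 ^ (-m) * ∑_{R p i T'} ∑_{T ⊆ I.erase i} (-1) ^ (|T ∩ T'| + |T ∩ T0|) = w p * [R p i T0]`
(the inner sum is `∏_{j ∈ I.erase i} (1 + σ_j)`, `σ_j = 1` iff `j ∈ T' ↔ j ∈ T0`, so it is `2 ^ m` if `T' = T0` and `0` otherwise: `Finset.prod_one_add`, `Finset.prod_add`).
It is `≥ 0`.  For `i ∉ I` there are no labels, the inner sum is `0`, and `∏_{p ∣ e i} 0` is `0` unless `e i = 1`: so all terms on the engine side are `≥ 0` and the terms with `e i = 1` (`i ∉ I`) are at least the terms of the left side here (`QT.pf w (∏ e i) = ∏_i ∏_{p ∣ e i} w p`: `gtInner_pf_prod`, private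
there, copy). -/

namespace PT

open Finset

section aux

variable {ι : Type} [Fintype ι] [DecidableEq ι]

/-- the labels -/
private abbrev ptinner_Lab (I : Finset ι) :=
  {ℓ : ι × Finset ι // ℓ.1 ∈ I ∧ ℓ.2 ⊆ I.erase ℓ.1}

/-- the label system -/
private def ptinner_sys (I : Finset ι) : QT.Sys ι (ptinner_Lab I) where
  idx ℓ := ℓ.1.1
  St ℓ := ℓ.1.2
  I := I
  idx_mem ℓ := ℓ.2.1
  St_sub ℓ := ℓ.2.2.trans (Finset.erase_subset _ _)
  not_mem ℓ h := (Finset.mem_erase.1 (ℓ.2.2 h)).1 rfl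
  inj _ _ h1 h2 := Subtype.ext (Prod.ext h1 h2)

omit [Fintype ι] in
private theorem ptinner_label_sum (I : Finset ι) (i : ι) (hi : i ∈ I)
    [Fintype (ptinner_Lab I)] (G : Finset ι → ℝ) :
    ∑ ℓ : ptinner_Lab I with (ptinner_sys I).idx ℓ = i, G ((ptinner_sys I).St ℓ) =
    ∑ T ∈ (I.erase i).powerset, G T := by
  refine Finset.sum_bij (fun ℓ _ => (ptinner_sys I).St ℓ) ?_ ?_ ?_ ?_
  · intro ℓ hℓ
    have h1 : (ptinner_sys I).idx ℓ = i := (Finset.mem_filter.1 hℓ).2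
    rw [Finset.mem_powerset, ← h1]
    exact ℓ.2.2
  · intro ℓ hℓ ℓ' hℓ' h
    exact (ptinner_sys I).inj ℓ ℓ'
      (by rw [(Finset.mem_filter.1 hℓ).2, (Finset.mem_filter.1 hℓ').2]) h
  · intro T hT
    exact ⟨⟨(i, T), hi, Finset.mem_powerset.1 hT⟩,
      Finset.mem_filter.2 ⟨Finset.mem_univ _, rfl⟩, rfl⟩
  · intro ℓ _
    rfl

/-- the sign of `j` for the set `T` -/
private def ptinner_sg (T : Finset ι) (j : ι) : ℝ := if j ∈ T then -1 else 1

omit [Fintype ι] in
private theorem ptinner_sg_abs (T : Finset ι) (j : ι) : |ptinner_sg T j| = 1 := by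
  unfold ptinner_sg
  split_ifs <;> simp

omit [Fintype ι] in
private theorem ptinner_orth (J T' T0 : Finset ι) (hT' : T' ⊆ J) (hT0 : T0 ⊆ J) :
    ∑ T ∈ J.powerset, (∏ j ∈ T, ptinner_sg T' j) * ∏ j ∈ T, ptinner_sg T0 j =
      if T' = T0 then (2 : ℝ) ^ J.card else 0 := by
  have h1 : ∑ T ∈ J.powerset, (∏ j ∈ T, ptinner_sg T' j) * ∏ j ∈ T, ptinner_sg T0 j =
      ∏ j ∈ J, (1 + ptinner_sg T' j * ptinner_sg T0 j) := by
    rw [Finset.prod_one_add]
    refine Finset.sum_congr rfl fun T _ => ?_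
    rw [Finset.prod_mul_distrib]
  rw [h1]
  split_ifs with h
  · subst h
    have h2 : ∀ j ∈ J, 1 + ptinner_sg T' j * ptinner_sg T' j = 2 := by
      intro j _
      unfold ptinner_sg
      split_ifs <;> norm_num
    rw [Finset.prod_congr rfl h2, Finset.prod_const]
  · have h3 : ∃ j ∈ J, ¬ (j ∈ T' ↔ j ∈ T0) := by
      by_contra h4
      push Not at h4
      apply h
      ext j
      by_cases hj : j ∈ J
      · exact h4 j hj
      · exact ⟨fun h5 => absurd (hT' h5) hj, fun h5 => absurd (hT0 h5) hj⟩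
    obtain ⟨j, hj, hne⟩ := h3
    refine Finset.prod_eq_zero hj ?_
    unfold ptinner_sg
    by_cases a : j ∈ T' <;> by_cases b : j ∈ T0
    · exact absurd ⟨fun _ => b, fun _ => a⟩ hne
    · rw [if_pos a, if_neg b]
      norm_num
    · rw [if_neg a, if_pos b]
      norm_num
    · exact absurd ⟨fun h => absurd h a, fun h => absurd h b⟩ hne

omit [Fintype ι] in
private theorem ptinner_pf_prod (W : ℕ → ℝ) (s : Finset ι) (e : ι → ℕ)
    (h : Squarefree (∏ i ∈ s, e i)) :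
    QT.pf W (∏ i ∈ s, e i) = ∏ i ∈ s, ∏ p ∈ (e i).primeFactors, W p := by
  induction s using Finset.induction_on with
  | empty => simp [QT.pf]
  | insert a s ha ih =>
    rw [Finset.prod_insert ha] at h ⊢
    rw [Finset.prod_insert ha]
    have hco : Nat.Coprime (e a) (∏ i ∈ s, e i) := Nat.coprime_of_squarefree_mul h
    rw [← ih (Squarefree.squarefree_of_dvd (Dvd.intro_left _ rfl) h)]
    unfold QT.pf
    rw [hco.primeFactors_mul, Finset.prod_union hco.disjoint_primeFactors]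

end aux

open Classical in
theorem inner_PT {ι : Type} [Fintype ι] [DecidableEq ι] (I : Finset ι) (hne : I.Nonempty) :
    ∃ (C : ℝ) (K : ℕ), 0 < C ∧ ∀ (R : ℕ → ι → Finset ι → Prop) (w F : ℕ → ℝ) (B η : ℝ),
    (∀ i T, ¬ R 2 i T) → (∀ p, 0 ≤ w p) → (∀ p, w p ≤ 1) →
    (∀ p, p.Prime → w p * ∑ i ∈ I, ((((I.erase i).powerset.filter fun T => R p i T).card : ℕ) : ℝ) / 2 ^ (I.card - 1) ≤ F p) →
    0 ≤ B → 0 ≤ η → η ≤ 1 →
    (∀ x : ℝ, 2 ≤ x → ∑ n ∈ (Icc 1 ⌊x⌋₊).filter Squarefree, QT.pf F n ≤ B * x * Real.log x ^ (-η)) →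
    ∀ (X : ℕ) (V τ : ℝ), 16 ≤ X → 1 ≤ V → V ^ K ≤ τ → V ^ K ≤ X →
    ∑ e ∈ (QT.Box ι X).filter (fun e => (∀ i ∉ I, e i = 1) ∧ (∀ i ∈ I, τ < e i) ∧
        (∀ i ∈ I, ∀ p : ℕ, p.Prime → p ∣ e i → R p i ((I.erase i).filter fun j => jacobiSym (e j) p = -1))),
      QT.pf w (∏ i, e i) ≤
      C * X * ((1 + Real.log X) ^ K * V ^ (-(1 / 16) : ℝ) + B * Real.log X ^ (-η) * (1 + Real.log V) ^ K) := by
  obtain ⟨C, K, hC, hE⟩ := ZG.engine_G (ptinner_sys I)
  refine ⟨C, K, hC, ?_⟩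
  intro R w F B η hR2 hw0 hw1 hslice hB hη0 hη1 hbd X V τ hX hV hVτ hVX
  set m : ℕ := I.card - 1 with hm
  have hcardJ : ∀ i ∈ I, (I.erase i).card = m := fun i hi => Finset.card_erase_of_mem hi
  have h2m : (0 : ℝ) < 2 ^ m := by positivity
  set As : ι → ℕ → Finset (Finset ι) := fun i p => (I.erase i).powerset.filter fun T => R p i T
    with hAs
  set u : ptinner_Lab I → ℕ → ℝ := fun ℓ p =>
    if p.Prime then w p * ((∑ T' ∈ As ((ptinner_sys I).idx ℓ) p,
      ∏ j ∈ (ptinner_sys I).St ℓ, ptinner_sg T' j) / 2 ^ m) else 0 with hu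
  set h : ι → ℕ → ℝ := fun i p =>
    if i ∈ I ∧ p.Prime then w p * (((As i p).card : ℝ) / 2 ^ m) else 0 with hh
  have hh0 : ∀ i p, 0 ≤ h i p := by
    intro i p
    simp only [hh]
    split_ifs
    · exact mul_nonneg (hw0 p) (by positivity)
    · exact le_rfl
  have hu_abs : ∀ ℓ p, |u ℓ p| ≤ h ((ptinner_sys I).idx ℓ) p := by
    intro ℓ p
    simp only [hu, hh]
    by_cases hp : p.Prime
    · rw [if_pos hp, if_pos ⟨ℓ.2.1, hp⟩, abs_mul, abs_of_nonneg (hw0 p), abs_div,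
        abs_of_pos h2m]
      refine mul_le_mul_of_nonneg_left ?_ (hw0 p)
      refine div_le_div_of_nonneg_right ?_ h2m.le
      refine (Finset.abs_sum_le_sum_abs _ _).trans ?_
      refine (Finset.sum_le_card_nsmul _ _ 1 fun T' _ => ?_).trans ?_
      · rw [Finset.abs_prod]
        rw [Finset.prod_congr rfl fun j _ => ptinner_sg_abs T' j, Finset.prod_const_one]
      · rw [nsmul_eq_mul, mul_one]
    · rw [if_neg hp, if_neg fun h => hp h.2, abs_zero]
  have hh1 : ∀ i p, h i p ≤ 1 := by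
    intro i p
    simp only [hh]
    split_ifs with h1
    · have h2 : ((As i p).card : ℝ) ≤ 2 ^ m := by
        have h3 : (As i p).card ≤ 2 ^ m := by
          refine (Finset.card_filter_le _ _).trans ?_
          rw [Finset.card_powerset, hcardJ i h1.1]
        exact_mod_cast h3
      have h4 : ((As i p).card : ℝ) / 2 ^ m ≤ 1 := (div_le_one h2m).2 h2
      exact mul_le_one₀ (hw1 p) (by positivity) h4
    · norm_num
  have hsum : ∀ p, p.Prime → ∑ i ∈ I, h i p ≤ F p := by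
    intro p hp
    refine le_trans (le_of_eq ?_) (hslice p hp)
    rw [Finset.mul_sum]
    refine Finset.sum_congr rfl fun i hi => ?_
    simp only [hh, hAs]
    rw [if_pos ⟨hi, hp⟩]
  have hnd : ∀ e ∈ QT.Box ι X, ∀ i j : ι, j ≠ i → ∀ p : ℕ, p.Prime → p ∣ e i → ¬ p ∣ e j := by
    intro e he i j hne p hp h1 h2
    have hsqf : Squarefree (∏ U, e U) := (Finset.mem_filter.1 he).2.2
    have h3 : p * p ∣ ∏ U, e U := by
      have h4 : e i * e j ∣ ∏ U, e U := by
        rw [← Finset.mul_prod_erase univ e (Finset.mem_univ i)]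
        exact mul_dvd_mul_left _ (Finset.dvd_prod_of_mem e (Finset.mem_erase.2 ⟨hne, Finset.mem_univ _⟩))
      exact (mul_dvd_mul h1 h2).trans h4
    have := hsqf p h3
    exact hp.one_lt.ne' (Nat.isUnit_iff.1 this)
  -- the local factors
  have hval : ∀ e ∈ QT.Box ι X, ∀ i ∈ I, ∀ p : ℕ, p.Prime → p ∣ e i →
      ∑ ℓ with (ptinner_sys I).idx ℓ = i,
        u ℓ p * ∏ j ∈ (ptinner_sys I).St ℓ, (jacobiSym (e j) p : ℝ) =
      if R p i ((I.erase i).filter fun j => jacobiSym (e j) p = -1) then w p else 0 := by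
    intro e he i hi p hp hpd
    set T0 : Finset ι := (I.erase i).filter fun j => jacobiSym (e j) p = -1 with hT0
    have hT0J : T0 ⊆ I.erase i := Finset.filter_subset _ _
    have hjac : ∀ j ∈ I.erase i, (jacobiSym (e j) p : ℝ) = ptinner_sg T0 j := by
      intro j hj
      have h1 : ¬ p ∣ e j := hnd e he i j (Finset.mem_erase.1 hj).1 p hp hpd
      have h2 : Int.gcd (e j : ℤ) p = 1 := by
        rw [Int.gcd_natCast_natCast]
        exact ((Nat.Prime.coprime_iff_not_dvd hp).2 h1).symm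
      unfold ptinner_sg
      rcases jacobiSym.eq_one_or_neg_one h2 with h3 | h3
      · have h4 : j ∉ T0 := by
          intro h5
          have h6 := (Finset.mem_filter.1 h5).2
          rw [h3] at h6
          norm_num at h6
        rw [if_neg h4, h3]
        norm_num
      · have h4 : j ∈ T0 := Finset.mem_filter.2 ⟨hj, h3⟩
        rw [if_pos h4, h3]
        norm_num
    have h1 : ∑ ℓ : ptinner_Lab I with (ptinner_sys I).idx ℓ = i,
        u ℓ p * ∏ j ∈ (ptinner_sys I).St ℓ, (jacobiSym (e j) p : ℝ) =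
        ∑ ℓ : ptinner_Lab I with (ptinner_sys I).idx ℓ = i,
          (fun T : Finset ι => w p * ((∑ T' ∈ As i p, ∏ j ∈ T, ptinner_sg T' j) / 2 ^ m) *
            ∏ j ∈ T, ptinner_sg T0 j) ((ptinner_sys I).St ℓ) := by
      refine Finset.sum_congr rfl fun ℓ hℓ => ?_
      have hℓ' : (ptinner_sys I).idx ℓ = i := (Finset.mem_filter.1 hℓ).2
      simp only [hu, hℓ', if_pos hp]
      congr 1
      refine Finset.prod_congr rfl fun j hj => hjac j ?_
      rw [← hℓ']
      exact ℓ.2.2 hj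
    rw [h1, ptinner_label_sum I i hi
      (fun T : Finset ι => w p * ((∑ T' ∈ As i p, ∏ j ∈ T, ptinner_sg T' j) / 2 ^ m) *
            ∏ j ∈ T, ptinner_sg T0 j)]
    have h2 : ∑ T ∈ (I.erase i).powerset, w p * ((∑ T' ∈ As i p, ∏ j ∈ T, ptinner_sg T' j) / 2 ^ m) *
            ∏ j ∈ T, ptinner_sg T0 j =
        w p / 2 ^ m * ∑ T' ∈ As i p, ∑ T ∈ (I.erase i).powerset,
          (∏ j ∈ T, ptinner_sg T' j) * ∏ j ∈ T, ptinner_sg T0 j := by
      rw [Finset.sum_comm, Finset.mul_sum]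
      refine Finset.sum_congr rfl fun T _ => ?_
      rw [← Finset.sum_mul]
      ring
    rw [h2, Finset.sum_congr rfl fun T' hT' => ptinner_orth (I.erase i) T' T0
      (Finset.mem_powerset.1 (Finset.mem_filter.1 hT').1) hT0J, Finset.sum_ite_eq', hcardJ i hi]
    by_cases hR : R p i T0
    · rw [if_pos (show T0 ∈ As i p from Finset.mem_filter.2 ⟨Finset.mem_powerset.2 hT0J, hR⟩),
        if_pos hR]
      field_simp
    · rw [if_neg (show T0 ∉ As i p from fun h3 => hR (Finset.mem_filter.1 h3).2), if_neg hR,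
        mul_zero]
  have hnn : ∀ e ∈ QT.Box ι X, 0 ≤ ∏ i, ∏ p ∈ (e i).primeFactors,
      ∑ ℓ with (ptinner_sys I).idx ℓ = i,
        u ℓ p * ∏ j ∈ (ptinner_sys I).St ℓ, (jacobiSym (e j) p : ℝ) := by
    intro e he
    refine Finset.prod_nonneg fun i _ => Finset.prod_nonneg fun p hp => ?_
    have hpp : p.Prime := Nat.prime_of_mem_primeFactors hp
    have hpd : p ∣ e i := Nat.dvd_of_mem_primeFactors hp
    by_cases hi : i ∈ I
    · rw [hval e he i hi p hpp hpd]
      split_ifs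
      · exact hw0 p
      · exact le_rfl
    · rw [Finset.filter_eq_empty_iff.2, Finset.sum_empty]
      intro ℓ _ h3
      exact hi (h3 ▸ ℓ.2.1)
  have key := hE u h F B η V τ X
    (fun ℓ p => (hu_abs ℓ p).trans (hh1 _ _)) ?_ (fun ℓ p _ => hu_abs ℓ p) hh0 hsum hB
    hη0 hη1 hbd hV hVτ hVX hX
  swap
  · intro ℓ
    simp only [hu]
    rw [if_pos Nat.prime_two]
    have h1 : As ((ptinner_sys I).idx ℓ) 2 = ∅ := by
      simp only [hAs]
      rw [Finset.filter_eq_empty_iff]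
      intro T _
      exact hR2 _ T
    rw [h1, Finset.sum_empty, zero_div, mul_zero]
  refine le_trans ?_ key
  refine le_trans ?_ (le_abs_self _)
  refine le_trans ?_ (Finset.sum_le_sum_of_subset_of_nonneg (s :=
    (QT.Box ι X).filter (fun e => (∀ i ∉ I, e i = 1) ∧ (∀ i ∈ I, τ < e i) ∧
        (∀ i ∈ I, ∀ p : ℕ, p.Prime → p ∣ e i → R p i ((I.erase i).filter fun j => jacobiSym (e j) p = -1))))
    ?_ (fun e he _ => hnn e (Finset.mem_filter.1 he).1))
  · refine Finset.sum_le_sum fun e he => ?_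
    obtain ⟨heB, hoff, hlarge, hloc⟩ := Finset.mem_filter.1 he
    have hsqf : Squarefree (∏ i, e i) := (Finset.mem_filter.1 heB).2.2
    rw [ptinner_pf_prod w univ e hsqf]
    refine le_of_eq ?_
    refine Finset.prod_congr rfl fun i _ => ?_
    by_cases hi : i ∈ I
    · refine Finset.prod_congr rfl fun p hp => ?_
      have hpp : p.Prime := Nat.prime_of_mem_primeFactors hp
      have hpd : p ∣ e i := Nat.dvd_of_mem_primeFactors hp
      rw [hval e heB i hi p hpp hpd, if_pos (hloc i hi p hpp hpd)]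
    · rw [hoff i hi]
      simp
  · intro e he
    simp only [Finset.mem_filter] at he ⊢
    exact ⟨he.1, he.2.2.1⟩

end PT
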