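import Pool.Agent.Lib.MP_10e784_ag.PT.PTDefs

/-! JOB PTSlice.  The local condition `AA` and the number of sign vectors satisfying it.

`AA_two`: `2 ∣ B`.  `AA_dep`: the condition involves only `y j`, `j ≠ i`.
`slice_PT`: let `p` be prime, `p ∤ B` (otherwise `AA` is false and the count is `0`; the right side is `≥ 0`).  Let `T ⊆ I.erase i` be counted, `r, t` as in `AA`, `y' j = if j ∈ I then (if j ∈ T then -1 else 1) else y j`.  For `j ≠ i`: `jacobiSym (s j) p = ± 1` (`(s j).natAbs ∣ B`, `p ∤ B`: `jacobiSym.eq_zero_iff`,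
`jacobiSym` of an integer prime to `p`) and `jacobiSym ((G j).eval r) p = ± 1` (`Bad.sep`: `p ∤ (G j).eval r`).  So `y' j = jacobiSym (s j) p * t ^ (G j).natDegree * jacobiSym ((G j).eval r) p` for all `j ≠ i`: `T` is determined by `t` and by `r` modulo `p`
(`jacobiSym ((G j).eval r) p` depends only on `r` modulo `p`: `jacobiSym.mod_left`, `Polynomial.eval` of congruent integers: `Int.ModEq`/`sub_dvd_eval_sub`).  The classes of the possible `r` modulo `p` are roots of `G i` in `ZMod p`, so there are `rt (G i) p` of them (`rt` is the `Nat.card` of the subtype).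
* Bound `2 ^ (I.card - 1)`: the number of subsets of `I.erase i` (`i ∈ I`).
* If all degrees are even: `t ^ (G j).natDegree = 1`, `T` is determined by `r`: at most `rt (G i) p`, and `kap G I ≥ 1`.
* If some index `k` of odd degree is not in `I` (then `k ≠ i`): `y' k = y k` is given, and `t = t ^ (G k).natDegree` is determined by `r`: at most `rt (G i) p`.
* Otherwise `kap G I = 2`: at most `2 * rt (G i) p` pairs `(r, t)`.
(An injection from the set of the `T` into `{roots} × {1, -1}`, resp. into the set of roots: choose `r, t` for each `T`; if two sets `T, T'` have the same class of `r` and the same `t` (resp. the same class of `r`) then `y'` agrees on `I.erase i`, so `T = T'`.) -/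

namespace PT

open Finset Polynomial

theorem AA_two {ι : Type} (G : ι → ℤ[X]) (s : ι → ℤ) (B : ℕ) (hB : Bad G B) (i : ι) (y : ι → ℤ) :
    ¬ AA G s B 2 i y := fun h => h.1 hB.two

theorem AA_dep {ι : Type} (G : ι → ℤ[X]) (s : ι → ℤ) (B : ℕ) (p : ℕ) (i : ι) (y y' : ι → ℤ)
    (h : ∀ j, j ≠ i → y j = y' j) (hA : AA G s B p i y) : AA G s B p i y' := by
  obtain ⟨h1, r, t, h2, h3, h4⟩ := hA
  refine ⟨h1, r, t, h2, h3, fun j hj => ?_⟩
  rw [← h j hj]
  exact h4 j hj

private theorem ptslice_root (G : ℤ[X]) {p : ℕ} {r : ℤ} (h : (p : ℤ) ∣ G.eval r) :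
    (G.map (Int.castRingHom (ZMod p))).eval (r : ZMod p) = 0 := by
  rw [Polynomial.eval_intCast_map]
  exact (ZMod.intCast_zmod_eq_zero_iff_dvd _ _).2 h

private theorem ptslice_jac (G : ℤ[X]) {p : ℕ} {r r' : ℤ} (h : (r : ZMod p) = (r' : ZMod p)) :
    jacobiSym (G.eval r) p = jacobiSym (G.eval r') p := by
  apply jacobiSym.mod_left'
  have h1 : (p : ℤ) ∣ r - r' := by
    rw [← ZMod.intCast_zmod_eq_zero_iff_dvd]
    push_cast
    rw [h, sub_self]
  have h2 : (p : ℤ) ∣ G.eval r - G.eval r' := h1.trans (Polynomial.sub_dvd_eval_sub r r' G)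
  exact (Int.modEq_iff_dvd.2 h2).symm

private theorem ptslice_ne {B p : ℕ} (hp : p.Prime) (hpB : ¬ p ∣ B) {s : ℤ} (hs : s.natAbs ∣ B) :
    jacobiSym s p ≠ 0 := by
  apply jacobiSym.ne_zero
  have h1 : ¬ p ∣ s.natAbs := fun h => hpB (h.trans hs)
  have h2 : Nat.Coprime s.natAbs p := ((Nat.Prime.coprime_iff_not_dvd hp).2 h1).symm
  exact h2

private theorem ptslice_ne' {p : ℕ} (hp : p.Prime) {s : ℤ} (hs : ¬ (p : ℤ) ∣ s) :
    jacobiSym s p ≠ 0 := by
  apply jacobiSym.ne_zero
  have h1 : ¬ p ∣ s.natAbs := fun h => hs (Int.natCast_dvd.2 h)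
  have h2 : Nat.Coprime s.natAbs p := ((Nat.Prime.coprime_iff_not_dvd hp).2 h1).symm
  exact h2

open Classical in
theorem ptslice_inj {ι : Type} (G : ι → ℤ[X]) (s : ι → ℤ) (B : ℕ)
    (hs : ∀ i, (s i).natAbs ∣ B) (I : Finset ι) (p : ℕ) (hp : p.Prime) (hpB : ¬ p ∣ B) (y : ι → ℤ)
    (i : ι) {T T' : Finset ι} (hT : T ⊆ I.erase i) (hT' : T' ⊆ I.erase i) {r r' t t' : ℤ}
    (hr : (r : ZMod p) = (r' : ZMod p)) (ht : ∀ j, j ≠ i → t ^ (G j).natDegree = t' ^ (G j).natDegree)
    (h1 : ∀ j, j ≠ i → jacobiSym (s j) p * (if j ∈ I then (if j ∈ T then -1 else 1) else y j) =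
      t ^ (G j).natDegree * jacobiSym ((G j).eval r) p)
    (h2 : ∀ j, j ≠ i → jacobiSym (s j) p * (if j ∈ I then (if j ∈ T' then -1 else 1) else y j) =
      t' ^ (G j).natDegree * jacobiSym ((G j).eval r') p) : T = T' := by
  have key : ∀ j ∈ I.erase i, (j ∈ T ↔ j ∈ T') := by
    intro j hj
    obtain ⟨hji, hjI⟩ := Finset.mem_erase.1 hj
    have h3 := h1 j hji
    have h4 := h2 j hji
    rw [if_pos hjI] at h3 h4
    rw [ht j hji, ptslice_jac (G j) hr, ← h4] at h3
    have h5 := mul_left_cancel₀ (ptslice_ne hp hpB (hs j)) h3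
    by_cases ha : j ∈ T <;> by_cases hb : j ∈ T' <;> simp [ha, hb] at h5 ⊢
  ext j
  constructor
  · intro hj
    exact (key j (hT hj)).1 hj
  · intro hj
    exact (key j (hT' hj)).2 hj

theorem ptslice_kap_nonneg {ι : Type} (G : ι → ℤ[X]) (I : Finset ι) : 0 ≤ kap G I := by
  unfold kap
  split_ifs <;> norm_num

open Classical in
theorem ptslice_card {ι : Type} (G : ι → ℤ[X]) (s : ι → ℤ) (B : ℕ) (hB : Bad G B)
    (hs : ∀ i, (s i).natAbs ∣ B) (I : Finset ι) (p : ℕ) (hp : p.Prime) (y : ι → ℤ)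
    (i : ι) (hi : i ∈ I) : (sl (AA G s B) I p i y : ℝ) ≤ kap G I * rt (G i) p := by
  by_cases hpB : p ∣ B
  · have h0 : sl (AA G s B) I p i y = 0 := by
      unfold sl
      rw [Finset.card_eq_zero, Finset.filter_eq_empty_iff]
      intro T _ hT
      exact hT.1 hpB
    rw [h0, Nat.cast_zero]
    exact mul_nonneg (ptslice_kap_nonneg G I) (Nat.cast_nonneg _)
  haveI : NeZero p := ⟨hp.ne_zero⟩
  set 𝒯 := (I.erase i).powerset.filter fun T => AA G s B p i fun j =>
    if j ∈ I then (if j ∈ T then -1 else 1) else y j with h𝒯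
  have hsl : sl (AA G s B) I p i y = 𝒯.card := by
    unfold sl
    rw [h𝒯]
  have hmem : ∀ T : {T // T ∈ 𝒯}, T.1 ⊆ I.erase i ∧ AA G s B p i fun j =>
      if j ∈ I then (if j ∈ T.1 then -1 else 1) else y j := by
    intro T
    have h := Finset.mem_filter.1 T.2
    exact ⟨Finset.mem_powerset.1 h.1, h.2⟩
  choose hsub hpB' rr tt hrr htt hjj using hmem
  let f : {T // T ∈ 𝒯} → {ρ : ZMod p // ((G i).map (Int.castRingHom (ZMod p))).eval ρ = 0} :=
    fun T => ⟨(rr T : ZMod p), ptslice_root (G i) (hrr T)⟩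
  have hcard : Nat.card {T // T ∈ 𝒯} = 𝒯.card := by
    rw [Nat.card_eq_fintype_card, Fintype.card_coe]
  by_cases hk : (∃ k, Odd (G k).natDegree) ∧ ∀ k, Odd (G k).natDegree → k ∈ I
  · have hkap : kap G I = 2 := by
      unfold kap
      rw [if_pos hk]
    let g : {T // T ∈ 𝒯} → {ρ : ZMod p // ((G i).map (Int.castRingHom (ZMod p))).eval ρ = 0} × Bool :=
      fun T => (f T, decide (tt T = 1))
    have hg : Function.Injective g := by
      intro T T' hTT
      have h1 : (rr T : ZMod p) = (rr T' : ZMod p) := congrArg Subtype.val (congrArg Prod.fst hTT)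
      have h2 : decide (tt T = 1) = decide (tt T' = 1) := congrArg Prod.snd hTT
      have h3 : tt T = tt T' := by
        rcases htt T with h4 | h4 <;> rcases htt T' with h5 | h5 <;> simp [h4, h5] at h2 ⊢
      apply Subtype.ext
      exact ptslice_inj G s B hs I p hp hpB y i (hsub T) (hsub T') h1 (fun j _ => by rw [h3])
        (hjj T) (hjj T')
    have h1 := Nat.card_le_card_of_injective g hg
    rw [hcard, Nat.card_prod, Nat.card_eq_fintype_card (α := Bool), Fintype.card_bool] at h1
    rw [hsl, hkap]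
    have h2 : 𝒯.card ≤ 2 * rt (G i) p := by
      unfold rt
      linarith
    exact_mod_cast h2
  · have hkap : kap G I = 1 := by
      unfold kap
      rw [if_neg hk]
    have hf : Function.Injective f := by
      intro T T' hTT
      have h1 : (rr T : ZMod p) = (rr T' : ZMod p) := congrArg Subtype.val hTT
      apply Subtype.ext
      refine ptslice_inj G s B hs I p hp hpB y i (hsub T) (hsub T') h1 (fun j _ => ?_)
        (hjj T) (hjj T')
      by_cases hodd : ∃ k, Odd (G k).natDegree
      · have h2 : ∃ k, Odd (G k).natDegree ∧ k ∉ I := by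
          by_contra hc
          push Not at hc
          exact hk ⟨hodd, hc⟩
        obtain ⟨k, hk1, hk2⟩ := h2
        have hki : k ≠ i := fun h => hk2 (h ▸ hi)
        have h3 := hjj T k hki
        have h4 := hjj T' k hki
        beta_reduce at h3 h4
        rw [if_neg hk2] at h3 h4
        rw [h3, ptslice_jac (G k) h1] at h4
        have h5 : jacobiSym ((G k).eval (rr T')) p ≠ 0 :=
          ptslice_ne' hp (hB.sep p hp hpB i k (Ne.symm hki) _ (hrr T'))
        have h6 := mul_right_cancel₀ h5 h4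
        have h7 : tt T = tt T' := by
          rcases htt T with h8 | h8 <;> rcases htt T' with h9 | h9 <;>
            simp [h8, h9, hk1.neg_one_pow] at h6 ⊢
        rw [h7]
      · have h2 : Even (G j).natDegree := by
          rw [← Nat.not_odd_iff_even]
          exact fun h => hodd ⟨j, h⟩
        have h3 : ∀ t : ℤ, t = 1 ∨ t = -1 → t ^ (G j).natDegree = 1 := by
          rintro t (rfl | rfl)
          · exact one_pow _
          · exact h2.neg_one_pow
        rw [h3 _ (htt T), h3 _ (htt T')]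
    have h1 := Nat.card_le_card_of_injective f hf
    rw [hcard] at h1
    rw [hsl, hkap, one_mul]
    exact_mod_cast h1

open Classical in
theorem ptslice_le {ι : Type} (A : ℕ → ι → (ι → ℤ) → Prop) (I : Finset ι) (p : ℕ) (y : ι → ℤ)
    (i : ι) (hi : i ∈ I) : sl A I p i y ≤ 2 ^ (I.card - 1) := by
  unfold sl
  refine (Finset.card_filter_le _ _).trans ?_
  rw [Finset.card_powerset]
  apply Nat.pow_le_pow_right (by norm_num)
  rw [Finset.card_erase_of_mem hi]

theorem slice_PT {ι : Type} [Fintype ι] [DecidableEq ι] (G : ι → ℤ[X]) (s : ι → ℤ) (B : ℕ) (hB : Bad G B)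
    (hs : ∀ i, (s i).natAbs ∣ B) (I : Finset ι) (p : ℕ) (hp : p.Prime) (y : ι → ℤ) (hy : ∀ j, y j = 1 ∨ y j = -1)
    (i : ι) (hi : i ∈ I) :
    (sl (AA G s B) I p i y : ℝ) / 2 ^ (I.card - 1) ≤ min 1 (kap G I * rt (G i) p / 2 ^ (I.card - 1)) := by
  classical
  have h2 : (0 : ℝ) < 2 ^ (I.card - 1) := by positivity
  apply le_min
  · rw [div_le_one h2]
    have h3 := ptslice_le (AA G s B) I p y i hi
    exact_mod_cast h3
  · apply div_le_div_of_nonneg_right _ h2.le
    exact ptslice_card G s B hB hs I p hp y i hi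

end PT
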