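import Pool.Agent.Lib.MP_10e784_ag.PT.PTUb
import Pool.Agent.Lib.MP_10e784_ag.PT.PTRtSum

/-! JOB PTTyp.  Integers with too many prime factors in `S`.

`F p = 1 + (1/10) ind S p` (`0 ≤ F ≤ 11/10`), `PS F x = PS 1 x + (1/10) PS (ind S) x ≤ (1 + 1/(10 n)) log log x + C`: `PS 1 x ≤ log log x + C` for `x ≥ 2` (Mertens; e.g. `ZR.mert_prime` in `Pool/Agent/Lib/MP_1ad228_ntR/RC4.lean` and partial summation, or more simply `PT.rt_sum` applied to `G = X`: `rt X p = 1`; or
`PTConv.conv_upper` with the bound `∑_p p ^ (-s) ≤ log ζ(s) ≤ log (1 / (s - 1)) + 1`, compare `prime_sum_le` in `Pool/Agent/Lib/MP_1ad228_nt/GTUb.lean`'s imports; choose what is easiest).  `ub_PS` with `c = 1 + 1/(10 n)` gives `∑_{m ≤ N, sqfree} (11/10) ^ (ω_S m) = ∑ pf F m ≤ B N (log N) ^ (1/(10 n))`,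
`ω_S m = (m.primeFactors.filter (· ∈ S)).card`.  If `ω_S m > (3/2)(1/n) log log N =: T` then `(11/10) ^ (ω_S m) ≥ (11/10) ^ T = (log N) ^ ((3/2)(1/n) log (11/10))`, and `log (11/10) ≥ 1 - 10/11 = 1/11` (`Real.one_sub_inv_le_log_of_pos`), so (for `log N ≥ 1`, `N ≥ 3`)
`# ≤ B N (log N) ^ (1/(10 n) - 3/(22 n)) ≤ B N (log N) ^ (-1/(50 n))` because `1/10 - 3/22 = -4/110 < -1/50`.  `N = 2`: the number is at most `2`; enlarge the constant. -/

namespace PT

open Finset

open Classical in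
/-- the weight `1 + (1/10) 1_S` -/
noncomputable def pttyp_F (S : Set ℕ) (p : ℕ) : ℝ := if p ∈ S then 11 / 10 else 1

theorem pttyp_rt (p : ℕ) : rt (Polynomial.X : Polynomial ℤ) p = 1 := by
  unfold rt
  have h : ∀ ρ : ZMod p, ((Polynomial.X : Polynomial ℤ).map (Int.castRingHom (ZMod p))).eval ρ = 0 ↔ ρ = 0 := by
    intro ρ
    rw [Polynomial.map_X, Polynomial.eval_X]
  rw [Nat.card_congr (Equiv.subtypeEquivRight h)]
  exact Nat.card_unique

theorem pttyp_PS (S : Set ℕ) (x : ℝ) :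
    PS (pttyp_F S) x = PS (fun p => (rt (Polynomial.X : Polynomial ℤ) p : ℝ)) x + (1 / 10) * PS (ind S) x := by
  unfold PS
  rw [Finset.mul_sum, ← Finset.sum_add_distrib]
  refine Finset.sum_congr rfl fun p _ => ?_
  beta_reduce
  rw [pttyp_rt]
  unfold pttyp_F ind
  split_ifs
  · push_cast; ring
  · push_cast; ring

open Classical in
theorem pttyp_pf (S : Set ℕ) (m : ℕ) :
    QT.pf (pttyp_F S) m = (11 / 10 : ℝ) ^ (m.primeFactors.filter (· ∈ S)).card := by
  unfold QT.pf pttyp_F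
  rw [Finset.prod_ite, Finset.prod_const, Finset.prod_const_one, mul_one]

open Classical in
theorem typ {ι : Type} (G : ι → Polynomial ℤ) (S : Set ℕ) (n : ℕ) (hS : Spl G S n) :
    ∃ C : ℝ, 0 < C ∧ ∀ N : ℕ, 2 ≤ N →
      ((((Icc 1 N).filter fun m => Squarefree m ∧
        (3 / (2 * n) : ℝ) * Real.log (Real.log N) < ((m.primeFactors.filter (· ∈ S)).card : ℝ)).card : ℕ) : ℝ) ≤
      C * N * Real.log N ^ (-(1 / (50 * n)) : ℝ) := by
  have hn : (0 : ℝ) < n := by exact_mod_cast hS.npos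
  obtain ⟨C1, hC1⟩ := rt_sum (Polynomial.X : Polynomial ℤ) (by
    rw [Polynomial.map_X]
    exact Polynomial.irreducible_X)
  obtain ⟨C2, hC2⟩ := hS.upper
  obtain ⟨B, hB0, hB⟩ := ub_PS (pttyp_F S) (11 / 10) (1 + 1 / (10 * n)) (C1 + C2 / 10)
    (fun p _ => by unfold pttyp_F; split_ifs <;> norm_num)
    (fun p _ => by unfold pttyp_F; split_ifs <;> norm_num)
    (fun x hx => by
      rw [pttyp_PS]
      have h1 := hC1 x hx
      have h2 := hC2 x hx
      have h3 : (1 + 1 / (10 * (n : ℝ))) * Real.log (Real.log x) + (C1 + C2 / 10) =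
          (Real.log (Real.log x) + C1) + (1 / 10) * ((1 / n : ℝ) * Real.log (Real.log x) + C2) := by
        field_simp
        ring
      rw [h3]
      linarith)
  refine ⟨B + 1, by positivity, fun N hN => ?_⟩
  rcases Nat.lt_or_ge N 3 with hN3 | hN3
  · -- `N = 2`
    have hN2 : N = 2 := by omega
    subst hN2
    have h1 : ((((Icc 1 2).filter fun m => Squarefree m ∧
        (3 / (2 * n) : ℝ) * Real.log (Real.log (2 : ℕ)) < ((m.primeFactors.filter (· ∈ S)).card : ℝ)).card : ℕ) : ℝ)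
        ≤ 2 := by
      have h2 := Finset.card_filter_le (Icc 1 2) fun m => Squarefree m ∧
        (3 / (2 * n) : ℝ) * Real.log (Real.log (2 : ℕ)) < ((m.primeFactors.filter (· ∈ S)).card : ℝ)
      rw [Nat.card_Icc] at h2
      exact_mod_cast h2
    refine h1.trans ?_
    have h2 : (0 : ℝ) < Real.log (2 : ℕ) := Real.log_pos (by norm_num)
    have h3 : Real.log (2 : ℕ) ≤ 1 := by
      have := Real.log_two_lt_d9
      push_cast
      linarith
    have h4 : (1 : ℝ) ≤ Real.log (2 : ℕ) ^ (-(1 / (50 * n)) : ℝ) := by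
      apply Real.one_le_rpow_of_pos_of_le_one_of_nonpos h2 h3
      have : 0 < 1 / (50 * (n : ℝ)) := by positivity
      linarith
    have h5 : (2 : ℝ) ≤ (B + 1) * (2 : ℕ) := by push_cast; nlinarith
    calc (2 : ℝ) ≤ (B + 1) * (2 : ℕ) * 1 := by linarith
      _ ≤ _ := mul_le_mul_of_nonneg_left h4 (by positivity)
  · have hNR : (3 : ℝ) ≤ N := by exact_mod_cast hN3
    have hL : 1 ≤ Real.log N := by
      rw [Real.le_log_iff_exp_le (by linarith)]
      have := Real.exp_one_lt_d9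
      linarith
    have hL0 : 0 < Real.log N := by linarith
    set L := Real.log N with hLdef
    set T : ℝ := (3 / (2 * n) : ℝ) * Real.log L with hT
    set 𝒮 := (Icc 1 N).filter fun m => Squarefree m ∧ T < ((m.primeFactors.filter (· ∈ S)).card : ℝ) with h𝒮
    have h1 := hB N (by linarith)
    rw [Nat.floor_natCast] at h1
    have h2 : (𝒮.card : ℝ) * (11 / 10 : ℝ) ^ T ≤ ∑ m ∈ (Icc 1 N).filter Squarefree, QT.pf (pttyp_F S) m := by
      have h3 : (𝒮.card : ℝ) * (11 / 10 : ℝ) ^ T = ∑ m ∈ 𝒮, (11 / 10 : ℝ) ^ T := by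
        rw [Finset.sum_const, nsmul_eq_mul]
      rw [h3]
      have h4 : ∑ m ∈ 𝒮, (11 / 10 : ℝ) ^ T ≤ ∑ m ∈ 𝒮, QT.pf (pttyp_F S) m := by
        refine Finset.sum_le_sum fun m hm => ?_
        have hm2 := (Finset.mem_filter.1 hm).2.2
        rw [pttyp_pf, ← Real.rpow_natCast]
        exact Real.rpow_le_rpow_of_exponent_le (by norm_num) hm2.le
      refine h4.trans (Finset.sum_le_sum_of_subset_of_nonneg ?_ fun m _ _ => ?_)
      · intro m hm
        have hm2 := Finset.mem_filter.1 hm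
        exact Finset.mem_filter.2 ⟨hm2.1, hm2.2.1⟩
      · rw [pttyp_pf]
        positivity
    have h5 : (11 / 10 : ℝ) ^ T = L ^ ((3 / (2 * n) : ℝ) * Real.log (11 / 10)) := by
      rw [Real.rpow_def_of_pos (by norm_num), Real.rpow_def_of_pos hL0, hT]
      congr 1
      ring
    have h6 : (1 : ℝ) / 11 ≤ Real.log (11 / 10) := by
      have := Real.one_sub_inv_le_log_of_pos (x := (11 / 10 : ℝ)) (by norm_num)
      norm_num at this ⊢
      linarith
    have h7 : (𝒮.card : ℝ) ≤ B * N * L ^ (1 / (10 * n) - (3 / (2 * n) : ℝ) * Real.log (11 / 10)) := by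
      have h8 := h2.trans h1
      rw [h5] at h8
      have h9 : 0 < L ^ ((3 / (2 * n) : ℝ) * Real.log (11 / 10)) := Real.rpow_pos_of_pos hL0 _
      rw [Real.rpow_sub hL0, ← mul_div_assoc, le_div_iff₀ h9]
      have h10 : (1 + 1 / (10 * (n : ℝ)) - 1) = 1 / (10 * n) := by ring
      rw [h10] at h8
      exact h8
    have h8 : L ^ (1 / (10 * n) - (3 / (2 * n) : ℝ) * Real.log (11 / 10)) ≤ L ^ (-(1 / (50 * n)) : ℝ) := by
      apply Real.rpow_le_rpow_of_exponent_le hL
      have h9 : (3 / (2 * n) : ℝ) * (1 / 11) ≤ (3 / (2 * n) : ℝ) * Real.log (11 / 10) :=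
        mul_le_mul_of_nonneg_left h6 (by positivity)
      have h10 : 1 / (10 * (n : ℝ)) - (3 / (2 * n) : ℝ) * (1 / 11) = -(2 / 55) * (1 / n) := by
        field_simp
        norm_num
      have h11 : -(1 / (50 * (n : ℝ))) = -(1 / 50) * (1 / n) := by
        field_simp
      have h12 : 0 < 1 / (n : ℝ) := by positivity
      rw [h11]
      nlinarith
    calc (𝒮.card : ℝ) ≤ B * N * L ^ (1 / (10 * n) - (3 / (2 * n) : ℝ) * Real.log (11 / 10)) := h7
      _ ≤ B * N * L ^ (-(1 / (50 * n)) : ℝ) := mul_le_mul_of_nonneg_left h8 (by positivity)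
      _ ≤ (B + 1) * N * L ^ (-(1 / (50 * n)) : ℝ) := by
          apply mul_le_mul_of_nonneg_right _ (Real.rpow_pos_of_pos hL0 _).le
          nlinarith

end PT
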