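import Pool.Agent.Lib.MP_10e784_ag.PT.PTCount
import Pool.Agent.Lib.MP_10e784_ag.PT.PTSlice
import Pool.Agent.Lib.MP_10e784_ag.PT.PTFSum
import Pool.Agent.Lib.MP_10e784_ag.PT.PTTyp
import Pool.Agent.Lib.MP_10e784_ag.PT.PTSplit
import Pool.Agent.Lib.MP_10e784_ag.PT.PTLocal

/-! JOB PTMain.  The main theorem for a family.

`S, n` from `split_set`.  `B` from `bad_exists` with `m = c.natAbs`.  `w = ww S` (`0 ≤ w ≤ 1`).  For every `I` nonempty: `FI_sum`, `FI_nonneg`, `FI_le` and `ub_PS` with `c = 1 - 1/(5 n)` give `B_I` with `∑_{m ≤ x} pf (FI G S I) m ≤ B_I x (log x) ^ (-1/(5 n))`; let `B' ` be the sum of the `B_I` over all `I` (finitely many).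
For every `s : ι → ℤ` with `(s i).natAbs ∣ B` apply `count_PT` with `A = AA G s B` (`AA_two`, `AA_dep`), `F = FI G S`, `η = 1/(5 n)`, `η1 = (9/10) η = 9/(50 n) < 1/4`; `hslice`: `slice_PT` summed over `i ∈ I` and multiplied by `ww S p`.  Get `C_s`.
Counting: a bad `D` with `|D| ≤ N` is `g0 * m`, `m = ∏ e i ≤ N` squarefree (`local_PT`, `g0 ≠ 0`), so the number of bad `D` is at most `(2 B + 1) * #M`, `M = {m ≤ N : m squarefree, m = ∏ e i for some s, e with PLoc (AA G s B) e}`.  The `m ∈ M` with `ω_S m > T := (3/(2 n)) log log N` are bounded by `typ`; for the others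
`1 ≤ (10/9) ^ (ω_S m) * pf w m ≤ (10/9) ^ T * pf w m` (`pf (ww S) m = (9/10) ^ (ω_S m)`; real power; if `T < 0` there are none), `(10/9) ^ T = (log N) ^ ((3/(2n)) log (10/9)) ≤ (log N) ^ (1/(6 n))` for `log N ≥ 1` (`log (10/9) ≤ 1/9`), and
`∑_{m ∈ M} pf w m ≤ ∑_s ∑_{e ∈ Box ι N, PLoc} pf w (∏ e)` (for each `m` choose `s, e`; `e ∈ Box`: entries between `1` and `N`, product `m ≤ N` squarefree).  Total `≤ C N ((log N) ^ (-1/(50 n)) + (log N) ^ (1/(6 n) - 9/(50 n))) ≤ C N (log N) ^ (-1/(100 n))`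
(`1/6 - 9/50 = -1/75`).  For `N = 2` (`log 2 < 1`) enlarge the constant.  Model for the bookkeeping: `gtmain_card` in `Pool/Agent/Lib/MP_1ad228_nt/GTMain.lean`. -/

namespace PT

open Finset Polynomial

/-- for every nonempty `I` the same constant -/
private theorem ptmain_B {ι : Type} [Fintype ι] [DecidableEq ι] (G : ι → ℤ[X]) (hG : Fam G)
    (par : (∀ i, Even (G i).natDegree) ∨ 4 ≤ (univ.filter fun i => Odd (G i).natDegree).card)
    (S : Set ℕ) (n : ℕ) (hS : Spl G S n) :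
    ∃ B : ℝ, 0 ≤ B ∧ ∀ I : Finset ι, I.Nonempty → ∀ x : ℝ, 2 ≤ x →
      ∑ m ∈ (Icc 1 ⌊x⌋₊).filter Squarefree, QT.pf (FI G S I) m ≤ B * x * Real.log x ^ (-(1 / (5 * n)) : ℝ) := by
  have h1 : ∀ I : Finset ι, ∃ B : ℝ, 0 ≤ B ∧ (I.Nonempty → ∀ x : ℝ, 2 ≤ x →
      ∑ m ∈ (Icc 1 ⌊x⌋₊).filter Squarefree, QT.pf (FI G S I) m ≤ B * x * Real.log x ^ (-(1 / (5 * n)) : ℝ)) := by
    intro I
    by_cases hI : I.Nonempty
    · obtain ⟨C, hC⟩ := FI_sum G hG par S n hS I hI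
      obtain ⟨B, hB, hb⟩ := ub_PS (FI G S I) I.card (1 - 1 / (5 * n)) C (fun p _ => FI_nonneg G S I p)
        (fun p _ => FI_le G S I p) hC
      refine ⟨B, hB.le, fun _ x hx => ?_⟩
      have h2 := hb x hx
      have h3 : (1 - 1 / (5 * (n : ℝ)) - 1) = -(1 / (5 * n)) := by ring
      rw [h3] at h2
      exact h2
    · exact ⟨0, le_refl _, fun h => absurd h hI⟩
  choose b hb0 hb using h1
  refine ⟨∑ I, b I, Finset.sum_nonneg fun I _ => hb0 I, ?_⟩
  intro I hI x hx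
  refine (hb I hI x hx).trans ?_
  have h2 : b I ≤ ∑ J, b J := Finset.single_le_sum (f := b) (fun J _ => hb0 J) (Finset.mem_univ I)
  have h3 : 0 ≤ x * Real.log x ^ (-(1 / (5 * n)) : ℝ) :=
    mul_nonneg (by linarith) (Real.rpow_nonneg (Real.log_nonneg (by linarith)) _)
  nlinarith [mul_le_mul_of_nonneg_right h2 h3]

private theorem ptmain_ww0 (S : Set ℕ) (p : ℕ) : 0 ≤ ww S p := by
  unfold ww
  split_ifs <;> norm_num

private theorem ptmain_ww1 (S : Set ℕ) (p : ℕ) : ww S p ≤ 1 := by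
  unfold ww
  split_ifs <;> norm_num

private theorem ptmain_pf0 (S : Set ℕ) (m : ℕ) : 0 ≤ QT.pf (ww S) m :=
  Finset.prod_nonneg fun p _ => ptmain_ww0 S p

open Classical in
private theorem ptmain_pf (S : Set ℕ) (m : ℕ) :
    QT.pf (ww S) m = (9 / 10 : ℝ) ^ (m.primeFactors.filter (· ∈ S)).card := by
  unfold QT.pf ww
  rw [Finset.prod_ite, Finset.prod_const, Finset.prod_const_one, mul_one]

open Classical in
/-- the constant for a fixed vector `s` -/
private theorem ptmain_C {ι : Type} [Fintype ι] [DecidableEq ι] (G : ι → ℤ[X]) (hG : Fam G)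
    (par : (∀ i, Even (G i).natDegree) ∨ 4 ≤ (univ.filter fun i => Odd (G i).natDegree).card)
    (S : Set ℕ) (n : ℕ) (hS : Spl G S n) (B : ℕ) (hB : Bad G B) (s : ι → ℤ) (hs : ∀ i, (s i).natAbs ∣ B) :
    ∃ C : ℝ, 0 < C ∧ ∀ N : ℕ, 2 ≤ N →
      ∑ e ∈ (QT.Box ι N).filter (fun e => PLoc (AA G s B) e), QT.pf (ww S) (∏ i, e i) ≤
        C * N * Real.log N ^ (-(9 / (50 * n)) : ℝ) := by
  obtain ⟨B1, hB1, hb⟩ := ptmain_B G hG par S n hS
  have hn : (1 : ℝ) ≤ n := by exact_mod_cast hS.npos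
  have hn0 : (0 : ℝ) < n := by linarith
  refine count_PT (AA G s B) (AA_two G s B hB) (AA_dep G s B) (ww S) (ptmain_ww0 S) (ptmain_ww1 S)
    (FI G S) ?_ B1 (1 / (5 * n)) (9 / (50 * n)) hB1 (by positivity) ?_ ?_ ?_ hb
  · intro I hI p hp y hy
    unfold FI
    refine mul_le_mul_of_nonneg_left ?_ (ptmain_ww0 S p)
    exact Finset.sum_le_sum fun i hi => slice_PT G s B hB hs I p hp y hy i hi
  · rw [div_le_one (by positivity)]
    linarith
  · rw [div_lt_div_iff₀ (by positivity) (by positivity)]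
    nlinarith
  · rw [div_lt_div_iff₀ (by positivity) (by positivity)]
    nlinarith

/-- the products `m = ∏ e i` of the vectors satisfying the local conditions -/
private def ptmain_M {ι : Type} [Fintype ι] (G : ι → ℤ[X]) (B : ℕ) (m : ℕ) : Prop :=
  ∃ (s : ι → ℤ) (e : ι → ℕ), (∀ i, (s i).natAbs ∣ B) ∧ PLoc (AA G s B) e ∧ m = ∏ i, e i

open Classical in
/-- weighted count of the `m` -/
private theorem ptmain_sum {ι : Type} [Fintype ι] [DecidableEq ι] (G : ι → ℤ[X]) (B : ℕ) (hB : B ≠ 0) (S : Set ℕ)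
    (N : ℕ) :
    ∑ m ∈ (Icc 1 N).filter (fun m => Squarefree m ∧ ptmain_M G B m), QT.pf (ww S) m ≤
      ∑ s ∈ (Fintype.piFinset fun _ : ι => Icc (-(B : ℤ)) B).filter (fun s => ∀ i, (s i).natAbs ∣ B),
        ∑ e ∈ (QT.Box ι N).filter (fun e => PLoc (AA G s B) e), QT.pf (ww S) (∏ i, e i) := by
  set M := (Icc 1 N).filter (fun m => Squarefree m ∧ ptmain_M G B m) with hM
  set CS := (Fintype.piFinset fun _ : ι => Icc (-(B : ℤ)) B).filter (fun s => ∀ i, (s i).natAbs ∣ B) with hCS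
  have h1 : ∀ m ∈ M, ∃ x : (_ : ι → ℤ) × (ι → ℕ),
      x ∈ CS.sigma (fun s => (QT.Box ι N).filter (fun e => PLoc (AA G s B) e)) ∧ m = ∏ i, x.2 i := by
    intro m hm
    rw [hM, Finset.mem_filter, Finset.mem_Icc] at hm
    obtain ⟨⟨hm1, hmN⟩, hsq, s, e, hs, hloc, hme⟩ := hm
    refine ⟨⟨s, e⟩, ?_, hme⟩
    rw [Finset.mem_sigma]
    refine ⟨?_, ?_⟩
    · rw [hCS, Finset.mem_filter, Fintype.mem_piFinset]
      refine ⟨fun i => ?_, hs⟩
      have h1 : (s i).natAbs ≤ B := Nat.le_of_dvd (Nat.pos_of_ne_zero hB) (hs i)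
      rw [Finset.mem_Icc, ← abs_le, Int.abs_eq_natAbs]
      exact_mod_cast h1
    · rw [Finset.mem_filter]
      refine ⟨?_, hloc⟩
      have hpos : ∀ i, 1 ≤ e i := by
        intro i
        rw [Nat.one_le_iff_ne_zero]
        intro h0
        have : m = 0 := by
          rw [hme]
          exact Finset.prod_eq_zero (Finset.mem_univ i) h0
        omega
      unfold QT.Box
      rw [Finset.mem_filter, Fintype.mem_piFinset]
      refine ⟨fun i => ?_, ?_, ?_⟩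
      · rw [Finset.mem_Icc]
        refine ⟨hpos i, ?_⟩
        have h2 : e i ∣ ∏ j, e j := Finset.dvd_prod_of_mem e (Finset.mem_univ i)
        refine (Nat.le_of_dvd (Finset.prod_pos fun j _ => hpos j) h2).trans ?_
        change ∏ j, e j ≤ N
        rw [← hme]
        exact hmN
      · change ∏ j, e j ≤ N
        rw [← hme]
        exact hmN
      · change Squarefree (∏ j, e j)
        rw [← hme]
        exact hsq
  choose! φ hφ1 hφ2 using h1
  rw [← Finset.sum_sigma CS (fun s => (QT.Box ι N).filter (fun e => PLoc (AA G s B) e))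
    (fun x => QT.pf (ww S) (∏ i, x.2 i))]
  have hinj : Set.InjOn φ M := by
    intro a ha b hb hab
    rw [hφ2 a ha, hφ2 b hb, hab]
  calc ∑ m ∈ M, QT.pf (ww S) m = ∑ x ∈ M.image φ, QT.pf (ww S) (∏ i, x.2 i) := by
        rw [Finset.sum_image hinj]
        refine Finset.sum_congr rfl fun m hm => ?_
        rw [← hφ2 m hm]
    _ ≤ _ := by
        refine Finset.sum_le_sum_of_subset_of_nonneg ?_ (fun x _ _ => ptmain_pf0 S _)
        intro x hx
        rw [Finset.mem_image] at hx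
        obtain ⟨m, hm, rfl⟩ := hx
        exact hφ1 m hm

open Classical in
/-- the number of the `m` -/
private theorem ptmain_card {ι : Type} [Fintype ι] [DecidableEq ι] (G : ι → ℤ[X]) (hG : Fam G)
    (par : (∀ i, Even (G i).natDegree) ∨ 4 ≤ (univ.filter fun i => Odd (G i).natDegree).card)
    (S : Set ℕ) (n : ℕ) (hS : Spl G S n) (B : ℕ) (hB : Bad G B) :
    ∃ C : ℝ, 0 < C ∧ ∀ N : ℕ, 3 ≤ N →
      ((((Icc 1 N).filter (fun m => Squarefree m ∧ ptmain_M G B m)).card : ℕ) : ℝ) ≤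
        C * N * Real.log N ^ (-(1 / (100 * n)) : ℝ) := by
  have hn : (1 : ℝ) ≤ n := by exact_mod_cast hS.npos
  have hn0 : (0 : ℝ) < n := by linarith
  obtain ⟨C1, hC1, h1⟩ := typ G S n hS
  set CS := (Fintype.piFinset fun _ : ι => Icc (-(B : ℤ)) B).filter (fun s => ∀ i, (s i).natAbs ∣ B) with hCS
  have h2 : ∀ s : ι → ℤ, ∃ C : ℝ, 0 < C ∧ ((∀ i, (s i).natAbs ∣ B) → ∀ N : ℕ, 2 ≤ N →
      ∑ e ∈ (QT.Box ι N).filter (fun e => PLoc (AA G s B) e), QT.pf (ww S) (∏ i, e i) ≤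
        C * N * Real.log N ^ (-(9 / (50 * n)) : ℝ)) := by
    intro s
    by_cases hs : ∀ i, (s i).natAbs ∣ B
    · obtain ⟨C, hC, h⟩ := ptmain_C G hG par S n hS B hB s hs
      exact ⟨C, hC, fun _ => h⟩
    · exact ⟨1, one_pos, fun h => absurd h hs⟩
  choose c hc0 hc using h2
  have hC2 : 0 ≤ ∑ s ∈ CS, c s := Finset.sum_nonneg fun s _ => (hc0 s).le
  refine ⟨C1 + ∑ s ∈ CS, c s, by linarith, ?_⟩
  intro N hN
  have hN3 : (3 : ℝ) ≤ N := by exact_mod_cast hN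
  have hL : 1 ≤ Real.log N := by
    rw [Real.le_log_iff_exp_le (by linarith)]
    exact Real.exp_one_lt_three.le.trans hN3
  set L := Real.log N with hLdef
  have hL0 : 0 < L := by linarith
  set T : ℝ := (3 / (2 * n) : ℝ) * Real.log L with hT
  set M := (Icc 1 N).filter (fun m => Squarefree m ∧ ptmain_M G B m) with hM
  set M1 := (Icc 1 N).filter fun m => Squarefree m ∧ T < ((m.primeFactors.filter (· ∈ S)).card : ℝ) with hM1
  have h3 : (M.card : ℝ) ≤ (M1.card : ℝ) + ((M \ M1).card : ℝ) := by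
    have h4 : M.card ≤ M1.card + (M \ M1).card := by
      have h5 := Finset.card_le_card (Finset.subset_union_right (s₁ := M1) (s₂ := M))
      rw [← Finset.union_sdiff_self_eq_union] at h5
      exact h5.trans (Finset.card_union_le _ _)
    exact_mod_cast h4
  have h4 : ((M \ M1).card : ℝ) ≤ (10 / 9 : ℝ) ^ T * ∑ m ∈ M, QT.pf (ww S) m := by
    have h5 : ((M \ M1).card : ℝ) ≤ ∑ m ∈ M \ M1, (10 / 9 : ℝ) ^ T * QT.pf (ww S) m := by
      rw [Finset.card_eq_sum_ones, Nat.cast_sum]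
      refine Finset.sum_le_sum fun m hm => ?_
      rw [Finset.mem_sdiff, hM, hM1, Finset.mem_filter, Finset.mem_filter] at hm
      obtain ⟨⟨hm1, hm2, -⟩, hm3⟩ := hm
      have h6 : ((m.primeFactors.filter (· ∈ S)).card : ℝ) ≤ T := by
        by_contra h7
        exact hm3 ⟨hm1, hm2, not_le.1 h7⟩
      rw [ptmain_pf, Nat.cast_one]
      have h7 : (9 / 10 : ℝ) ^ (m.primeFactors.filter (· ∈ S)).card =
          (10 / 9 : ℝ) ^ (-((m.primeFactors.filter (· ∈ S)).card : ℝ)) := by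
        rw [Real.rpow_neg (by norm_num), Real.rpow_natCast, ← inv_pow]
        norm_num
      rw [h7, ← Real.rpow_add (by norm_num)]
      exact Real.one_le_rpow (by norm_num) (by linarith)
    refine h5.trans ?_
    rw [Finset.mul_sum]
    refine Finset.sum_le_sum_of_subset_of_nonneg Finset.sdiff_subset fun m _ _ => ?_
    exact mul_nonneg (Real.rpow_nonneg (by norm_num) _) (ptmain_pf0 S m)
  have h5 : (10 / 9 : ℝ) ^ T ≤ L ^ (1 / (6 * n) : ℝ) := by
    rw [Real.rpow_def_of_pos (by norm_num), Real.rpow_def_of_pos hL0]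
    apply Real.exp_le_exp.2
    have h6 : Real.log (10 / 9 : ℝ) ≤ 1 / 9 := by
      have := Real.log_le_sub_one_of_pos (show (0 : ℝ) < 10 / 9 by norm_num)
      linarith
    have h7 : 0 ≤ Real.log L := Real.log_nonneg hL
    have h8 : 0 ≤ T := mul_nonneg (by positivity) h7
    calc Real.log (10 / 9) * T ≤ 1 / 9 * T := mul_le_mul_of_nonneg_right h6 h8
      _ = Real.log L * (1 / (6 * n)) := by
        rw [hT]
        field_simp
        ring
  have h6 : ∑ m ∈ M, QT.pf (ww S) m ≤ (∑ s ∈ CS, c s) * N * L ^ (-(9 / (50 * n)) : ℝ) := by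
    refine (ptmain_sum G B hB.ne S N).trans ?_
    rw [Finset.sum_mul, Finset.sum_mul]
    refine Finset.sum_le_sum fun s hs => ?_
    rw [Finset.mem_filter] at hs
    exact hc s hs.2 N (by omega)
  have h7 : (M1.card : ℝ) ≤ C1 * N * L ^ (-(1 / (50 * n)) : ℝ) := h1 N (by omega)
  have h8 : L ^ (-(1 / (50 * n)) : ℝ) ≤ L ^ (-(1 / (100 * n)) : ℝ) := by
    apply Real.rpow_le_rpow_of_exponent_le hL
    have : (1 : ℝ) / (100 * n) ≤ 1 / (50 * n) := by
      apply one_div_le_one_div_of_le (by positivity)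
      linarith
    linarith
  have h9 : L ^ (1 / (6 * n) : ℝ) * L ^ (-(9 / (50 * n)) : ℝ) ≤ L ^ (-(1 / (100 * n)) : ℝ) := by
    rw [← Real.rpow_add hL0]
    apply Real.rpow_le_rpow_of_exponent_le hL
    have h10 : (1 / (6 * n) : ℝ) + -(9 / (50 * n)) = -(1 / (75 * n)) := by
      field_simp
      norm_num
    rw [h10]
    have : (1 : ℝ) / (100 * n) ≤ 1 / (75 * n) := by
      apply one_div_le_one_div_of_le (by positivity)
      linarith
    linarith
  have hP0 : 0 ≤ ∑ m ∈ M, QT.pf (ww S) m := Finset.sum_nonneg fun m _ => ptmain_pf0 S m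
  have hN0 : (0 : ℝ) ≤ N := by linarith
  calc (M.card : ℝ) ≤ (M1.card : ℝ) + ((M \ M1).card : ℝ) := h3
    _ ≤ C1 * N * L ^ (-(1 / (50 * n)) : ℝ) +
        L ^ (1 / (6 * n) : ℝ) * ((∑ s ∈ CS, c s) * N * L ^ (-(9 / (50 * n)) : ℝ)) := by
        refine add_le_add h7 (h4.trans ?_)
        exact mul_le_mul h5 h6 hP0 (Real.rpow_nonneg hL0.le _)
    _ = C1 * N * L ^ (-(1 / (50 * n)) : ℝ) +
        (∑ s ∈ CS, c s) * N * (L ^ (1 / (6 * n) : ℝ) * L ^ (-(9 / (50 * n)) : ℝ)) := by ring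
    _ ≤ C1 * N * L ^ (-(1 / (100 * n)) : ℝ) + (∑ s ∈ CS, c s) * N * L ^ (-(1 / (100 * n)) : ℝ) :=
        add_le_add (mul_le_mul_of_nonneg_left h8 (by positivity))
          (mul_le_mul_of_nonneg_left h9 (by positivity))
    _ = (C1 + ∑ s ∈ CS, c s) * N * L ^ (-(1 / (100 * n)) : ℝ) := by ring

/-- bad twists are `g0 * m` -/
private theorem ptmain_data {ι : Type} [Fintype ι] [DecidableEq ι] (G : ι → ℤ[X]) (B : ℕ) (hB : Bad G B) (c : ℤ)
    (hc : c ≠ 0) (hcB : c.natAbs ∣ B) (N : ℕ) (D : ℤ) (hDN : |D| ≤ (N : ℤ)) (hD : Squarefree D)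
    (h : ∃ a b : ℤ, IsCoprime a b ∧ (∀ i, hom (G i) a b ≠ 0) ∧ IsSquare (D * c * ∏ i, hom (G i) a b)) :
    ∃ (g0 : ℤ) (m : ℕ), g0.natAbs ∣ B ∧ 1 ≤ m ∧ m ≤ N ∧ Squarefree m ∧ ptmain_M G B m ∧ D = g0 * m := by
  obtain ⟨a, b, hab, hne, hsq⟩ := h
  obtain ⟨g0, s, e, hg, hs, hDg, hsqf, hloc⟩ := local_PT G B hB D c hD hc hcB a b hab hne hsq
  have hD0 : D ≠ 0 := hD.ne_zero
  have hg0 : g0 ≠ 0 := by
    rintro rfl
    rw [zero_mul] at hDg
    exact hD0 hDg
  have hcast : ∏ i, (e i : ℤ) = ((∏ i, e i : ℕ) : ℤ) := by push_cast; rfl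
  refine ⟨g0, ∏ i, e i, hg, ?_, ?_, hsqf, ⟨s, e, hs, hloc, rfl⟩, ?_⟩
  · exact Nat.one_le_iff_ne_zero.2 hsqf.ne_zero
  · have h1 : ((∏ i, e i : ℕ) : ℤ) ≤ |D| := by
      rw [hDg, hcast, abs_mul]
      have h2 : (1 : ℤ) ≤ |g0| := Int.one_le_abs hg0
      have h3 : |((∏ i, e i : ℕ) : ℤ)| = ((∏ i, e i : ℕ) : ℤ) := abs_of_nonneg (Int.natCast_nonneg _)
      rw [h3]
      nlinarith [Int.natCast_nonneg (∏ i, e i)]
    exact_mod_cast h1.trans hDN
  · rw [hDg, hcast]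

theorem main_PT {ι : Type} [Fintype ι] [DecidableEq ι] (G : ι → ℤ[X]) (hG : Fam G) (c : ℤ) (hc : c ≠ 0)
    (par : (∀ i, Even (G i).natDegree) ∨ 4 ≤ (univ.filter fun i => Odd (G i).natDegree).card) :
    ∃ C δ : ℝ, 0 < δ ∧ ∀ N : ℕ, 2 ≤ N →
      (Nat.card {D : ℤ // Squarefree D ∧ |D| ≤ (N : ℤ) ∧ ∃ a b : ℤ, IsCoprime a b ∧ (∀ i, hom (G i) a b ≠ 0) ∧
        IsSquare (D * c * ∏ i, hom (G i) a b)} : ℝ) ≤ C * N / Real.log N ^ δ := by
  classical
  obtain ⟨S, n, hS⟩ := split_set G hG.irr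
  obtain ⟨B, hB, hcB⟩ := bad_exists G hG c.natAbs (Int.natAbs_ne_zero.2 hc)
  have hn : (1 : ℝ) ≤ n := by exact_mod_cast hS.npos
  have hn0 : (0 : ℝ) < n := by linarith
  obtain ⟨C0, hC0, hM⟩ := ptmain_card G hG par S n hS B hB
  refine ⟨(2 * B + 1) * C0 + 3, 1 / (100 * n), by positivity, ?_⟩
  intro N hN
  have hN2 : (2 : ℝ) ≤ N := by exact_mod_cast hN
  have hlog0 : 0 < Real.log N := Real.log_pos (by linarith)
  -- the finite set of all bad twists
  set SS := (Icc (-(N : ℤ)) N).filter fun D => Squarefree D ∧ ∃ a b : ℤ, IsCoprime a b ∧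
    (∀ i, hom (G i) a b ≠ 0) ∧ IsSquare (D * c * ∏ i, hom (G i) a b) with hSS
  have hcard : Nat.card {D : ℤ // Squarefree D ∧ |D| ≤ (N : ℤ) ∧ ∃ a b : ℤ, IsCoprime a b ∧
      (∀ i, hom (G i) a b ≠ 0) ∧ IsSquare (D * c * ∏ i, hom (G i) a b)} ≤ SS.card := by
    have h3 := Nat.card_le_card_of_injective
      (fun x : {D : ℤ // Squarefree D ∧ |D| ≤ (N : ℤ) ∧ ∃ a b : ℤ, IsCoprime a b ∧
        (∀ i, hom (G i) a b ≠ 0) ∧ IsSquare (D * c * ∏ i, hom (G i) a b)} =>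
        (⟨x.1, by
          rw [hSS, Finset.mem_filter, Finset.mem_Icc, ← abs_le]
          exact ⟨x.2.2.1, x.2.1, x.2.2.2⟩⟩ : SS)) (fun x y hxy => by
        have := congrArg Subtype.val hxy
        exact Subtype.ext this)
    rw [Nat.card_eq_fintype_card (α := SS), Fintype.card_coe] at h3
    exact h3
  have hcard' : (Nat.card {D : ℤ // Squarefree D ∧ |D| ≤ (N : ℤ) ∧ ∃ a b : ℤ, IsCoprime a b ∧
      (∀ i, hom (G i) a b ≠ 0) ∧ IsSquare (D * c * ∏ i, hom (G i) a b)} : ℝ) ≤ SS.card := by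
    exact_mod_cast hcard
  refine hcard'.trans ?_
  rcases Nat.lt_or_ge N 3 with h3 | h3
  · -- `N = 2`
    have hN' : N = 2 := by omega
    have h4 : SS.card ≤ 5 := by
      refine (Finset.card_filter_le _ _).trans ?_
      rw [hN', Int.card_Icc]
      norm_num
    have h5 : (SS.card : ℝ) ≤ 5 := by exact_mod_cast h4
    have hl1 : Real.log N ≤ 1 := by
      rw [hN']
      have := Real.log_two_lt_d9
      push_cast
      linarith
    have h6 : Real.log N ^ (1 / (100 * n) : ℝ) ≤ 1 := Real.rpow_le_one hlog0.le hl1 (by positivity)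
    have h7 : 0 < Real.log N ^ (1 / (100 * n) : ℝ) := Real.rpow_pos_of_pos hlog0 _
    rw [le_div_iff₀ h7]
    have h8 : (SS.card : ℝ) * Real.log N ^ (1 / (100 * n) : ℝ) ≤ 5 * 1 :=
      mul_le_mul h5 h6 h7.le (by norm_num)
    have h9 : 0 ≤ (2 * (B : ℝ) + 1) * C0 := by positivity
    nlinarith
  · -- `3 ≤ N`
    set M := (Icc 1 N).filter (fun m => Squarefree m ∧ ptmain_M G B m) with hMdef
    have hsub : SS ⊆ (Icc (-(B : ℤ)) B).biUnion fun g0 => M.image fun m : ℕ => g0 * (m : ℤ) := by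
      intro D hD
      rw [hSS, Finset.mem_filter, Finset.mem_Icc, ← abs_le] at hD
      obtain ⟨hDN, hsqD, hex⟩ := hD
      obtain ⟨g0, m, hg, hm1, hmN, hmsq, hmM, hDm⟩ :=
        ptmain_data G B hB c hc hcB N D hDN hsqD hex
      rw [Finset.mem_biUnion]
      refine ⟨g0, ?_, ?_⟩
      · have h1 : g0.natAbs ≤ B := Nat.le_of_dvd (Nat.pos_of_ne_zero hB.ne) hg
        rw [Finset.mem_Icc, ← abs_le, Int.abs_eq_natAbs]
        exact_mod_cast h1
      · rw [Finset.mem_image]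
        refine ⟨m, ?_, hDm.symm⟩
        rw [hMdef, Finset.mem_filter, Finset.mem_Icc]
        exact ⟨⟨hm1, hmN⟩, hmsq, hmM⟩
    have hc1 : (SS.card : ℝ) ≤ (2 * B + 1) * (M.card : ℝ) := by
      have h1 : SS.card ≤ (2 * B + 1) * M.card := by
        refine (Finset.card_le_card hsub).trans (Finset.card_biUnion_le.trans ?_)
        have h2 : ∀ g0 ∈ Icc (-(B : ℤ)) B, (M.image fun m : ℕ => g0 * (m : ℤ)).card ≤ M.card :=
          fun g0 _ => Finset.card_image_le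
        refine (Finset.sum_le_card_nsmul _ _ _ h2).trans ?_
        rw [smul_eq_mul]
        apply Nat.mul_le_mul_right
        rw [Int.card_Icc]
        omega
      exact_mod_cast h1
    refine hc1.trans ?_
    have h4 := hM N h3
    rw [Real.rpow_neg hlog0.le] at h4
    rw [div_eq_mul_inv]
    have h5 : 0 ≤ (Real.log N ^ (1 / (100 * n) : ℝ))⁻¹ := inv_nonneg.2 (Real.rpow_nonneg hlog0.le _)
    have h6 : 0 ≤ (N : ℝ) * (Real.log N ^ (1 / (100 * n) : ℝ))⁻¹ := by positivity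
    have h7 : 0 ≤ (2 * (B : ℝ) + 1) := by positivity
    nlinarith [mul_le_mul_of_nonneg_left h4 h7]

end PT
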