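import Pool.Agent.Lib.MP_10e784_ag.PT.PTDefs
import Pool.Agent.Lib.MP_1ad228_nt.GTHall

/-! JOB PTUb.  From sums over primes to sums over squarefree integers.

Model: the proof of `ZG.ubG` in `Pool/Agent/Lib/MP_1ad228_nt/GTUb.lean` (here it is easier).  Let `M' = max M 1`, `L = log x`.
* `x ≥ 3` (so `L ≥ 1`): `ZG.hall` (file `GTHall`, `F ≤ M'`) gives `(∑_{n ≤ x} pf F n) L ≤ 3 M' x ∑_{n ≤ x} pf F n / n` and
  `∑_{n ≤ x, sqfree} pf F n / n ≤ ∏_{p ≤ x} (1 + F p / p) ≤ exp (PS F x) ≤ exp (c log L + C) = L ^ c * exp C`.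
  (The first inequality: `Finset.prod_one_add`, `n ↦ n.primeFactors` is injective on squarefree numbers; compare `gtUb_sum_le_prod` in `GTUb.lean`,
  private there, to be copied with `σ = 1` or reproved.)  Hence `∑ pf F n ≤ 3 M' exp C x L ^ (c - 1)`.
* `2 ≤ x < 3`: the sum is `pf F 1 + pf F 2 = 1 + F 2 ≤ 1 + M'`, and `x L ^ (c - 1) ≥ exp (- |c - 1|)` because `|log L| ≤ 1` (this case is done at the end of `ubG`;
  copy it). -/

namespace PT

open Finset

private lemma ptub_sum_le_prod (w : ℕ → ℝ) (hw : ∀ p, p.Prime → 0 ≤ w p) (M : ℕ) :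
    ∑ n ∈ (Icc 1 M).filter Squarefree, QT.pf w n / n ≤
      ∏ p ∈ (Icc 1 M).filter Nat.Prime, (1 + w p / p) := by
  classical
  rw [Finset.prod_one_add]
  have hterm : ∀ n ∈ (Icc 1 M).filter Squarefree, QT.pf w n / n =
      ∏ p ∈ n.primeFactors, (w p / p) := by
    intro n hn
    have hsq : Squarefree n := (Finset.mem_filter.mp hn).2
    have hprod : ∏ p ∈ n.primeFactors, p = n := Nat.prod_primeFactors_of_squarefree hsq
    rw [Finset.prod_div_distrib]
    unfold QT.pf
    congr 1
    conv_lhs => rw [← hprod]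
    push_cast
    rfl
  rw [Finset.sum_congr rfl hterm]
  have hinj : Set.InjOn Nat.primeFactors ((Icc 1 M).filter Squarefree : Finset ℕ) := by
    intro a ha b hb hab
    have h1 : Squarefree a := (Finset.mem_filter.mp ha).2
    have h2 : Squarefree b := (Finset.mem_filter.mp hb).2
    rw [← Nat.prod_primeFactors_of_squarefree h1, ← Nat.prod_primeFactors_of_squarefree h2, hab]
  rw [← Finset.sum_image (f := fun s : Finset ℕ => ∏ p ∈ s, (w p / p)) hinj]
  apply Finset.sum_le_sum_of_subset_of_nonneg
  · intro s hs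
    obtain ⟨n, hn, rfl⟩ := Finset.mem_image.mp hs
    rw [Finset.mem_powerset]
    intro p hp
    rw [Finset.mem_filter, Finset.mem_Icc]
    have hn' := (Finset.mem_filter.mp hn).1
    rw [Finset.mem_Icc] at hn'
    have h1 := Nat.le_of_mem_primeFactors hp
    have h2 := Nat.prime_of_mem_primeFactors hp
    exact ⟨⟨h2.one_lt.le, by omega⟩, h2⟩
  · intro s hs _
    apply Finset.prod_nonneg
    intro p hp
    have hpp : p.Prime := by
      have := (Finset.mem_powerset.mp hs) hp
      exact (Finset.mem_filter.mp this).2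
    exact div_nonneg (hw p hpp) (Nat.cast_nonneg p)

theorem ub_PS (F : ℕ → ℝ) (M c C : ℝ) (hF0 : ∀ p, p.Prime → 0 ≤ F p) (hFM : ∀ p, p.Prime → F p ≤ M)
    (h : ∀ x : ℝ, 2 ≤ x → PS F x ≤ c * Real.log (Real.log x) + C) :
    ∃ B : ℝ, 0 < B ∧ ∀ x : ℝ, 2 ≤ x →
      ∑ n ∈ (Icc 1 ⌊x⌋₊).filter Squarefree, QT.pf F n ≤ B * x * Real.log x ^ (c - 1) := by
  classical
  set M' : ℝ := max M 1 with hM'
  have hM1 : 1 ≤ M' := le_max_right _ _
  have hFM' : ∀ p, p.Prime → F p ≤ M' := fun p hp => (hFM p hp).trans (le_max_left _ _)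
  have hpf : ∀ n, 0 ≤ QT.pf F n := by
    intro n
    unfold QT.pf
    exact Finset.prod_nonneg fun p hp => hF0 p (Nat.prime_of_mem_primeFactors hp)
  refine ⟨3 * M' * Real.exp C + (1 + M') * Real.exp |c - 1|, by positivity, ?_⟩
  intro x hx
  have hx0 : 0 < x := by linarith
  have hL : 0 < Real.log x := Real.log_pos (by linarith)
  have hLc : 0 < Real.log x ^ (c - 1) := Real.rpow_pos_of_pos hL _
  by_cases hx3 : 3 ≤ x
  · have h1 := ZG.hall F M' hM1 (fun p hp => ⟨hF0 p hp, hFM' p hp⟩) x (by linarith)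
    have h2 := ptub_sum_le_prod F hF0 ⌊x⌋₊
    have h4 : ∏ p ∈ (Icc 1 ⌊x⌋₊).filter Nat.Prime, (1 + F p / p) ≤
        Real.exp (c * Real.log (Real.log x) + C) := by
      calc ∏ p ∈ (Icc 1 ⌊x⌋₊).filter Nat.Prime, (1 + F p / p)
          ≤ ∏ p ∈ (Icc 1 ⌊x⌋₊).filter Nat.Prime, Real.exp (F p / p) := by
            apply Finset.prod_le_prod
            · intro p hp
              have := div_nonneg (hF0 p (Finset.mem_filter.1 hp).2)
                (show (0 : ℝ) ≤ (p : ℝ) by positivity)
              linarith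
            · intro p _
              have := Real.add_one_le_exp (F p / p)
              linarith
        _ = Real.exp (PS F x) := by
            rw [PS, Real.exp_sum]
        _ ≤ Real.exp (c * Real.log (Real.log x) + C) := Real.exp_le_exp.2 (h x hx)
    have h5 : Real.exp (c * Real.log (Real.log x) + C) = Real.log x ^ c * Real.exp C := by
      rw [Real.exp_add, Real.rpow_def_of_pos hL, mul_comm c]
    have h7 : (∑ n ∈ (Icc 1 ⌊x⌋₊).filter Squarefree, QT.pf F n) * Real.log x ≤
        3 * M' * Real.exp C * x * Real.log x ^ c := by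
      refine h1.trans ?_
      calc 3 * M' * x * ∑ n ∈ (Icc 1 ⌊x⌋₊).filter Squarefree, QT.pf F n / n
          ≤ 3 * M' * x * (Real.log x ^ c * Real.exp C) := by
            refine mul_le_mul_of_nonneg_left ?_ (by positivity)
            rw [← h5]
            exact h2.trans h4
        _ = _ := by ring
    have h8 : Real.log x ^ c = Real.log x ^ (c - 1) * Real.log x := by
      rw [← Real.rpow_add_one hL.ne']
      ring_nf
    rw [h8] at h7
    have h9 : ∑ n ∈ (Icc 1 ⌊x⌋₊).filter Squarefree, QT.pf F n ≤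
        3 * M' * Real.exp C * x * Real.log x ^ (c - 1) := by
      refine le_of_mul_le_mul_right ?_ hL
      refine h7.trans (le_of_eq ?_)
      ring
    refine h9.trans ?_
    have h10 : 0 ≤ (1 + M') * Real.exp |c - 1| * x * Real.log x ^ (c - 1) := by positivity
    calc 3 * M' * Real.exp C * x * Real.log x ^ (c - 1)
        ≤ 3 * M' * Real.exp C * x * Real.log x ^ (c - 1) +
          (1 + M') * Real.exp |c - 1| * x * Real.log x ^ (c - 1) := by linarith
      _ = _ := by ring
  · push Not at hx3
    have hfl : ⌊x⌋₊ = 2 := by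
      rw [Nat.floor_eq_iff hx0.le]
      constructor
      · exact_mod_cast hx
      · norm_num
        exact hx3
    have hset : (Icc 1 2 : Finset ℕ).filter Squarefree = {1, 2} := by
      ext n
      simp only [mem_filter, mem_Icc, mem_insert, mem_singleton]
      constructor
      · rintro ⟨⟨h1, h2⟩, _⟩
        omega
      · rintro (rfl | rfl)
        · exact ⟨by omega, squarefree_one⟩
        · exact ⟨by omega, Nat.prime_two.prime.squarefree⟩
    have hS : ∑ n ∈ (Icc 1 ⌊x⌋₊).filter Squarefree, QT.pf F n ≤ 1 + M' := by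
      rw [hfl, hset, Finset.sum_pair (by norm_num)]
      have h1 : QT.pf F 1 = 1 := by unfold QT.pf; simp
      have h2 : QT.pf F 2 = F 2 := by
        unfold QT.pf
        rw [Nat.prime_two.primeFactors, Finset.prod_singleton]
      rw [h1, h2]
      have := hFM' 2 Nat.prime_two
      linarith
    have hLlog : |Real.log (Real.log x)| ≤ 1 := by
      rw [abs_le]
      have he2 : (2 : ℝ) ≤ Real.exp 1 := by
        have := Real.add_one_le_exp (1 : ℝ)
        linarith
      constructor
      · rw [Real.le_log_iff_exp_le hL]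
        have h1 : Real.log 2 ≤ Real.log x := Real.log_le_log (by norm_num) hx
        have h2 := Real.log_two_gt_d9
        have h3 : Real.exp (-1) ≤ 1 / 2 := by
          rw [Real.exp_neg, one_div]
          exact inv_anti₀ (by norm_num) he2
        linarith
      · rw [Real.log_le_iff_le_exp hL]
        have := Real.log_le_sub_one_of_pos hx0
        linarith
    have hlow : Real.exp (-|c - 1|) ≤ Real.log x ^ (c - 1) := by
      rw [Real.rpow_def_of_pos hL]
      apply Real.exp_le_exp.2
      have h1 : |Real.log (Real.log x) * (c - 1)| ≤ |c - 1| := by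
        rw [abs_mul]
        exact mul_le_of_le_one_left (abs_nonneg _) hLlog
      linarith [neg_abs_le (Real.log (Real.log x) * (c - 1))]
    have h1 : 1 ≤ Real.exp |c - 1| * x * Real.log x ^ (c - 1) := by
      calc (1 : ℝ) = Real.exp |c - 1| * 1 * Real.exp (-|c - 1|) := by
            rw [mul_one, ← Real.exp_add]; simp
        _ ≤ Real.exp |c - 1| * x * Real.log x ^ (c - 1) := by
            apply mul_le_mul _ hlow (Real.exp_pos _).le (by positivity)
            exact mul_le_mul_of_nonneg_left (by linarith) (Real.exp_pos _).le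
    have h2 : (1 + M') ≤ (1 + M') * Real.exp |c - 1| * x * Real.log x ^ (c - 1) := by
      have := mul_le_mul_of_nonneg_left h1 (show 0 ≤ 1 + M' by linarith)
      calc (1 + M') = (1 + M') * 1 := by ring
        _ ≤ (1 + M') * (Real.exp |c - 1| * x * Real.log x ^ (c - 1)) := this
        _ = _ := by ring
    have h3 : 0 ≤ 3 * M' * Real.exp C * x * Real.log x ^ (c - 1) := by positivity
    calc ∑ n ∈ (Icc 1 ⌊x⌋₊).filter Squarefree, QT.pf F n ≤ 1 + M' := hS
      _ ≤ (1 + M') * Real.exp |c - 1| * x * Real.log x ^ (c - 1) := h2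
      _ ≤ 3 * M' * Real.exp C * x * Real.log x ^ (c - 1) +
          (1 + M') * Real.exp |c - 1| * x * Real.log x ^ (c - 1) := by linarith
      _ = _ := by ring

end PT
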